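import Pool.Agent.Helper23.WT.BA

set_option autoImplicit false

/-!
# Names and Boolean values
-/

universe u v w

namespace Pool.Agent.Helper23.WT

section logic
variable {B : Type*} [CompleteBooleanAlgebra B]

/-- truth value of an equivalence -/
def iffV (a b : B) : B := (a ⇨ b) ⊓ (b ⇨ a)

theorem bElim {ι : Sort*} {Γ ψ : B} {φ : ι → B} (h : Γ ≤ ⨆ i, φ i)
    (k : ∀ i, ∀ Δ ≤ Γ, Δ ≤ φ i → Δ ≤ ψ) : Γ ≤ ψ := by
  have h1 : Γ = ⨆ i, Γ ⊓ φ i := by rw [← inf_iSup_eq, inf_eq_left.2 h]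
  rw [h1]
  exact iSup_le fun i => k i _ inf_le_left inf_le_right

theorem bOr {Γ ψ φ₁ φ₂ : B} (h : Γ ≤ φ₁ ⊔ φ₂) (k₁ : ∀ Δ ≤ Γ, Δ ≤ φ₁ → Δ ≤ ψ)
    (k₂ : ∀ Δ ≤ Γ, Δ ≤ φ₂ → Δ ≤ ψ) : Γ ≤ ψ := by
  have h1 : Γ = (Γ ⊓ φ₁) ⊔ (Γ ⊓ φ₂) := by rw [← inf_sup_left, inf_eq_left.2 h]
  rw [h1]
  exact sup_le (k₁ _ inf_le_left inf_le_right) (k₂ _ inf_le_left inf_le_right)

theorem bMP {Γ φ ψ : B} (h : Γ ≤ φ ⇨ ψ) (h' : Γ ≤ φ) : Γ ≤ ψ :=
  (le_inf h h').trans himp_inf_le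

theorem bImp {Γ φ ψ : B} (h : ∀ Δ ≤ Γ, Δ ≤ φ → Δ ≤ ψ) : Γ ≤ φ ⇨ ψ :=
  le_himp_iff.2 (h _ inf_le_left inf_le_right)

theorem bNot {Γ φ : B} (h : ∀ Δ ≤ Γ, Δ ≤ φ → Δ ≤ ⊥) : Γ ≤ φᶜ := by
  rw [← himp_bot]
  exact bImp h

theorem bAbs {Γ φ : B} (h : Γ ≤ φᶜ) (h' : Γ ≤ φ) : Γ ≤ ⊥ := by
  rw [← himp_bot] at h
  exact bMP h h'

theorem bAll {ι : Sort*} {Γ : B} {φ : ι → B} (h : Γ ≤ ⨅ i, φ i) (i : ι) : Γ ≤ φ i :=
  h.trans (iInf_le _ i)

theorem bEx {ι : Sort*} {Γ : B} {φ : ι → B} (i : ι) (h : Γ ≤ φ i) : Γ ≤ ⨆ i, φ i :=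
  h.trans (le_iSup _ i)

theorem bIff {Γ φ ψ : B} (h : ∀ Δ ≤ Γ, Δ ≤ φ → Δ ≤ ψ) (h' : ∀ Δ ≤ Γ, Δ ≤ ψ → Δ ≤ φ) :
    Γ ≤ iffV φ ψ := le_inf (bImp h) (bImp h')

theorem bIff_mp {Γ φ ψ : B} (h : Γ ≤ iffV φ ψ) (h' : Γ ≤ φ) : Γ ≤ ψ :=
  bMP (h.trans inf_le_left) h'

theorem bIff_mpr {Γ φ ψ : B} (h : Γ ≤ iffV φ ψ) (h' : Γ ≤ ψ) : Γ ≤ φ :=
  bMP (h.trans inf_le_right) h'

theorem bLeft {Γ φ ψ : B} (h : Γ ≤ φ ⊓ ψ) : Γ ≤ φ := h.trans inf_le_left
theorem bRight {Γ φ ψ : B} (h : Γ ≤ φ ⊓ ψ) : Γ ≤ ψ := h.trans inf_le_right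

theorem bCases {Γ ψ : B} (φ : B) (h : ∀ Δ ≤ Γ, Δ ≤ φ → Δ ≤ ψ) (h' : ∀ Δ ≤ Γ, Δ ≤ φᶜ → Δ ≤ ψ) :
    Γ ≤ ψ :=
  bOr (φ₁ := φ) (φ₂ := φᶜ) (by rw [sup_compl_eq_top]; exact le_top) h h'

theorem bContra {Γ φ : B} (h : ∀ Δ ≤ Γ, Δ ≤ φᶜ → Δ ≤ ⊥) : Γ ≤ φ :=
  bCases φ (fun _ _ h => h) (fun Δ h1 h2 => (h Δ h1 h2).trans bot_le)

theorem eq_of_forall {φ ψ : B} (h : ∀ Γ : B, Γ ≤ φ ↔ Γ ≤ ψ) : φ = ψ :=
  le_antisymm ((h φ).1 le_rfl) ((h ψ).2 le_rfl)

theorem iffV_self (a : B) : iffV a a = ⊤ := by simp [iffV]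

theorem iffV_eq_top {a b : B} : iffV a b = ⊤ ↔ a = b := by
  constructor
  · intro h
    have h1 : (⊤ : B) ≤ iffV a b := h.ge
    refine eq_of_forall fun Γ => ⟨fun h' => bIff_mp (le_top.trans h1) h', fun h' => bIff_mpr (le_top.trans h1) h'⟩
  · rintro rfl
    exact iffV_self a

end logic

/-- names -/
inductive Nm : Type (u + 1)
  | mk (ι : Type u) (elt : ι → Nm) (val : ι → BB) : Nm

namespace Nm

/-- truth value of `x = y` -/
noncomputable def eq : Nm.{u} → Nm.{u} → BB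
  | mk ι a u, mk κ b v =>
    (⨅ i : ι, u i ⇨ ⨆ j : κ, v j ⊓ (a i).eq (b j)) ⊓
      (⨅ j : κ, v j ⇨ ⨆ i : ι, u i ⊓ (a i).eq (b j))

/-- truth value of `x ∈ y` -/
noncomputable def mem (x : Nm.{u}) : Nm.{u} → BB
  | mk κ b v => ⨆ j : κ, v j ⊓ x.eq (b j)

theorem eq_mk (ι κ : Type u) (a : ι → Nm.{u}) (u : ι → BB) (b : κ → Nm.{u}) (v : κ → BB) :
    eq (mk ι a u) (mk κ b v) = (⨅ i : ι, u i ⇨ ⨆ j : κ, v j ⊓ (a i).eq (b j)) ⊓
      (⨅ j : κ, v j ⇨ ⨆ i : ι, u i ⊓ (a i).eq (b j)) := by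
  rw [eq]

theorem eq_refl (x : Nm.{u}) : eq x x = ⊤ := by
  induction x with
  | mk ι a u ih =>
    unfold eq
    rw [eq_top_iff]
    refine le_inf (le_iInf fun i => bImp fun Δ _ h => bEx i (le_inf h ?_))
      (le_iInf fun i => bImp fun Δ _ h => bEx i (le_inf h ?_))
    · rw [ih i]; exact le_top
    · rw [ih i]; exact le_top

theorem bRefl {Γ : BB} (x : Nm.{u}) : Γ ≤ eq x x := by rw [eq_refl]; exact le_top

theorem eq_symm (x y : Nm.{u}) : eq x y = eq y x := by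
  induction x generalizing y with
  | mk ι a u ih =>
    cases y with
    | mk κ b v =>
      unfold eq
      rw [inf_comm]
      congr 1
      · refine iInf_congr fun j => ?_
        congr 1
        refine iSup_congr fun i => ?_
        rw [ih i (b j)]
      · refine iInf_congr fun j => ?_
        congr 1
        refine iSup_congr fun i => ?_
        rw [ih j (b i)]

theorem bSymm {Γ : BB} {x y : Nm.{u}} (h : Γ ≤ eq x y) : Γ ≤ eq y x := by rwa [eq_symm]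

theorem bTrans {x y z : Nm.{u}} {Γ : BB} (h : Γ ≤ eq x y) (h' : Γ ≤ eq y z) : Γ ≤ eq x z := by
  induction x generalizing y z Γ with
  | mk ι a u ih =>
    cases y with
    | mk κ b v =>
      cases z with
      | mk μ c w =>
        unfold eq at h h' ⊢
        refine le_inf (le_iInf fun i => bImp fun Δ hΔ hu => ?_) (le_iInf fun k => bImp fun Δ hΔ hw => ?_)
        · refine bElim (bMP (bAll (bLeft (hΔ.trans h)) i) hu) fun j Δ₁ h1 h2 => ?_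
          refine bElim (bMP (bAll (bLeft ((h1.trans hΔ).trans h')) j) (bLeft h2)) fun k Δ₂ h3 h4 => ?_
          exact bEx k (le_inf (bLeft h4) (ih i (bRight (h3.trans h2)) (bRight h4)))
        · refine bElim (bMP (bAll (bRight (hΔ.trans h')) k) hw) fun j Δ₁ h1 h2 => ?_
          refine bElim (bMP (bAll (bRight ((h1.trans hΔ).trans h)) j) (bLeft h2)) fun i Δ₂ h3 h4 => ?_
          exact bEx i (le_inf (bLeft h4) (ih i (bRight h4) (bRight (h3.trans h2))))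

theorem mem_mk (x : Nm.{u}) (κ : Type u) (b : κ → Nm.{u}) (v : κ → BB) :
    mem x (mk κ b v) = ⨆ j, v j ⊓ eq x (b j) := rfl

theorem bMemL {Γ : BB} {x y z : Nm.{u}} (h : Γ ≤ eq x y) (h' : Γ ≤ mem x z) : Γ ≤ mem y z := by
  cases z with
  | mk κ b v =>
    rw [mem_mk] at h' ⊢
    refine bElim h' fun j Δ h1 h2 => ?_
    exact bEx j (le_inf (bLeft h2) (bTrans (bSymm (h1.trans h)) (bRight h2)))

theorem bMemR {Γ : BB} {x y z : Nm.{u}} (h : Γ ≤ eq y z) (h' : Γ ≤ mem x y) : Γ ≤ mem x z := by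
  cases y with
  | mk κ b v =>
    cases z with
    | mk μ c w =>
      rw [mem_mk] at h' ⊢
      unfold eq at h
      refine bElim h' fun j Δ h1 h2 => ?_
      refine bElim (bMP (bAll (bLeft (h1.trans h)) j) (bLeft h2)) fun k Δ₂ h3 h4 => ?_
      exact bEx k (le_inf (bLeft h4) (bTrans (bRight (h3.trans h2)) (bRight h4)))

/-! ### the action of the flips -/

/-- the action of the flips on the names -/
noncomputable def act (g : Flip) : Nm.{u} → Nm.{u}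
  | mk ι a v => mk ι (fun i => act g (a i)) (fun i => ρ g (v i))

theorem act_mk (g : Flip) (ι : Type u) (a : ι → Nm.{u}) (v : ι → BB) :
    act g (mk ι a v) = mk ι (fun i => act g (a i)) (fun i => ρ g (v i)) := rfl

theorem act_act (g h : Flip) (x : Nm.{u}) : act g (act h x) = act (g * h) x := by
  induction x with
  | mk ι a v ih =>
    rw [act_mk, act_mk, act_mk]
    congr 1
    · funext i; exact ih i
    · funext i; exact ρ_mul g h (v i)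

theorem act_one (x : Nm.{u}) : act 1 x = x := by
  induction x with
  | mk ι a v ih =>
    rw [act_mk]
    congr 1
    · funext i; exact ih i
    · funext i; exact ρ_one (v i)

theorem act_self (g : Flip) (x : Nm.{u}) : act g (act g x) = x := by
  rw [act_act, Flip.mul_self, act_one]

theorem act_comm (g h : Flip) (x : Nm.{u}) : act g (act h x) = act h (act g x) := by
  rw [act_act, act_act, mul_comm]

theorem eq_act (g : Flip) (x y : Nm.{u}) : eq (act g x) (act g y) = ρ g (eq x y) := by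
  induction x generalizing y with
  | mk ι a u ih =>
    cases y with
    | mk κ b v =>
      rw [act_mk, act_mk, eq_mk, eq_mk]
      simp only [map_inf, OrderIso.map_iInf, OrderIso.map_iSup, map_himp, ih]

theorem mem_act (g : Flip) (x y : Nm.{u}) : mem (act g x) (act g y) = ρ g (mem x y) := by
  cases y with
  | mk κ b v =>
    rw [act_mk, mem_mk, mem_mk]
    simp only [map_inf, OrderIso.map_iSup, eq_act]

/-- `x` has a finite support -/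
def Sym (x : Nm.{u}) : Prop := ∃ E : Finset ℕ, ∀ g ∈ Flip.Fix E, eq (act g x) x = ⊤

/-- hereditarily symmetric names -/
def HS : Nm.{u} → Prop
  | mk ι a v => (∀ i, HS (a i)) ∧ Sym (mk ι a v)

/-- all the elements of `x` are hereditarily symmetric -/
def HE : Nm.{u} → Prop
  | mk _ a _ => ∀ i, HS (a i)

theorem HS_iff (x : Nm.{u}) : HS x ↔ HE x ∧ Sym x := by
  cases x
  rfl

theorem Sym.act {x : Nm.{u}} (h : Sym x) (g : Flip) : Sym (act g x) := by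
  obtain ⟨E, hE⟩ := h
  refine ⟨E, fun k hk => ?_⟩
  rw [act_comm, eq_act, hE k hk, map_top]

theorem HS.act {x : Nm.{u}} (h : HS x) (g : Flip) : HS (act g x) := by
  induction x with
  | mk ι a v ih =>
    exact ⟨fun i => ih i (h.1 i), h.2.act g⟩

theorem HE.act {x : Nm.{u}} (h : HE x) (g : Flip) : HE (act g x) := by
  cases x
  exact fun i => (h i).act g

theorem bExt {Γ : BB} {y z : Nm.{u}} (hy : HE y) (hz : HE z)
    (h : ∀ x : Nm.{u}, HS x → ∀ Δ ≤ Γ, Δ ≤ mem x y → Δ ≤ mem x z)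
    (h' : ∀ x : Nm.{u}, HS x → ∀ Δ ≤ Γ, Δ ≤ mem x z → Δ ≤ mem x y) : Γ ≤ eq y z := by
  cases y with
  | mk κ b v =>
    cases z with
    | mk μ c w =>
      unfold eq
      refine le_inf (le_iInf fun j => bImp fun Δ hΔ hv => ?_) (le_iInf fun k => bImp fun Δ hΔ hw => ?_)
      · have h1 := h (b j) (hy j) Δ hΔ (by rw [mem_mk]; exact bEx j (le_inf hv (bRefl _)))
        rw [mem_mk] at h1
        exact h1
      · have h1 := h' (c k) (hz k) Δ hΔ (by rw [mem_mk]; exact bEx k (le_inf hw (bRefl _)))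
        rw [mem_mk] at h1
        refine bElim h1 fun j Δ₁ h2 h3 => bEx j (le_inf (bLeft h3) (bSymm (bRight h3)))

end Nm

/-- the type of hereditarily symmetric names -/
def HN : Type (u + 1) := {x : Nm.{u} // x.HS}

namespace HN

open Nm

/-- truth value of `x = y` -/
noncomputable def eq (x y : HN.{u}) : BB := Nm.eq x.1 y.1

/-- truth value of `x ∈ y` -/
noncomputable def mem (x y : HN.{u}) : BB := Nm.mem x.1 y.1

/-- the action of the flips -/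
noncomputable def act (g : Flip) (x : HN.{u}) : HN.{u} := ⟨x.1.act g, x.2.act g⟩

theorem act_act (g h : Flip) (x : HN.{u}) : act g (act h x) = act (g * h) x :=
  Subtype.ext (Nm.act_act g h x.1)

theorem act_self (g : Flip) (x : HN.{u}) : act g (act g x) = x := Subtype.ext (Nm.act_self g x.1)

theorem act_surj (g : Flip) : Function.Surjective (act g : HN.{u} → HN.{u}) :=
  fun x => ⟨act g x, act_self g x⟩

theorem eq_act (g : Flip) (x y : HN.{u}) : eq (act g x) (act g y) = ρ g (eq x y) :=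
  Nm.eq_act g x.1 y.1

theorem mem_act (g : Flip) (x y : HN.{u}) : mem (act g x) (act g y) = ρ g (mem x y) :=
  Nm.mem_act g x.1 y.1

theorem eq_refl (x : HN.{u}) : eq x x = ⊤ := Nm.eq_refl x.1
theorem bRefl {Γ : BB} (x : HN.{u}) : Γ ≤ eq x x := Nm.bRefl x.1
theorem eq_symm (x y : HN.{u}) : eq x y = eq y x := Nm.eq_symm x.1 y.1
theorem bSymm {Γ : BB} {x y : HN.{u}} (h : Γ ≤ eq x y) : Γ ≤ eq y x := Nm.bSymm h
theorem bTrans {x y z : HN.{u}} {Γ : BB} (h : Γ ≤ eq x y) (h' : Γ ≤ eq y z) : Γ ≤ eq x z :=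
  Nm.bTrans h h'
theorem bMemL {Γ : BB} {x y z : HN.{u}} (h : Γ ≤ eq x y) (h' : Γ ≤ mem x z) : Γ ≤ mem y z :=
  Nm.bMemL h h'
theorem bMemR {Γ : BB} {x y z : HN.{u}} (h : Γ ≤ eq y z) (h' : Γ ≤ mem x y) : Γ ≤ mem x z :=
  Nm.bMemR h h'

theorem bExt {Γ : BB} {y z : HN.{u}}
    (h : ∀ x : HN.{u}, ∀ Δ ≤ Γ, Δ ≤ mem x y → Δ ≤ mem x z)
    (h' : ∀ x : HN.{u}, ∀ Δ ≤ Γ, Δ ≤ mem x z → Δ ≤ mem x y) : Γ ≤ eq y z :=
  Nm.bExt ((HS_iff _).1 y.2).1 ((HS_iff _).1 z.2).1 (fun x hx => h ⟨x, hx⟩) (fun x hx => h' ⟨x, hx⟩)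

theorem eq_eq_iInf (y z : HN.{u}) : eq y z = ⨅ x, iffV (mem x y) (mem x z) := by
  refine eq_of_forall fun Γ => ⟨fun h => ?_, fun h => ?_⟩
  · exact le_iInf fun x => bIff (fun Δ hΔ hm => bMemR (hΔ.trans h) hm)
      (fun Δ hΔ hm => bMemR (bSymm (hΔ.trans h)) hm)
  · exact bExt (fun x Δ hΔ hm => bIff_mp (bAll (hΔ.trans h) x) hm)
      (fun x Δ hΔ hm => bIff_mpr (bAll (hΔ.trans h) x) hm)

theorem sym (x : HN.{u}) : ∃ E : Finset ℕ, ∀ g ∈ Flip.Fix E, eq (act g x) x = ⊤ :=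
  ((HS_iff _).1 x.2).2

/-- a name all of whose elements are hereditarily symmetric is hereditarily symmetric if it is
characterised in an equivariant way -/
theorem exists_of_char {ι : Type u} (a : ι → HN.{u}) (v : ι → BB) (Φ : HN.{u} → BB)
    (hΦ : ∀ x, Φ x = ⨆ i, v i ⊓ eq x (a i))
    (h : ∃ E : Finset ℕ, ∀ g ∈ Flip.Fix E, ∀ x, Φ (act g x) = ρ g (Φ x)) :
    ∃ z : HN.{u}, ∀ x, mem x z = Φ x := by
  obtain ⟨E, hE⟩ := h
  have hHE : HE (mk ι (fun i => (a i).1) v) := fun i => (a i).2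
  have hm : ∀ x : HN.{u}, Nm.mem x.1 (mk ι (fun i => (a i).1) v) = Φ x := fun x => by
    rw [hΦ]; rfl
  have hS : Sym (mk ι (fun i => (a i).1) v) := by
    refine ⟨E, fun g hg => ?_⟩
    have key : ∀ x : HN.{u}, Nm.mem x.1 (Nm.act g (mk ι (fun i => (a i).1) v)) =
        Nm.mem x.1 (mk ι (fun i => (a i).1) v) := by
      intro x
      obtain ⟨y, rfl⟩ := act_surj g x
      show Nm.mem (Nm.act g y.1) _ = _
      rw [Nm.mem_act, hm, ← hE g hg]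
      exact (hm (act g y)).symm
    rw [eq_top_iff]
    refine Nm.bExt (hHE.act g) hHE (fun x hx Δ _ h => ?_) (fun x hx Δ _ h => ?_)
    · rw [← key ⟨x, hx⟩]; exact h
    · rw [key ⟨x, hx⟩]; exact h
  exact ⟨⟨_, (HS_iff _).2 ⟨hHE, hS⟩⟩, hm⟩

end HN

end Pool.Agent.Helper23.WT
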