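import Pool.Agent.Helper23.WT.Defs
import Pool.Agent.Helper23.WT.BV

set_option autoImplicit false

/-!
# Formulas: values, congruence, equivariance, countability
-/

universe u v w

namespace Pool.Agent.Helper23.WT

namespace Fm

variable {κ : Type w} {n : ℕ}

/-- the Boolean value of a formula -/
noncomputable def val (e : κ → HN.{u}) : {n : ℕ} → Fm κ n → (Fin n → HN.{u}) → BB
  | _, .mem s t, v => HN.mem (Sum.elim v e s) (Sum.elim v e t)
  | _, .eq s t, v => HN.eq (Sum.elim v e s) (Sum.elim v e t)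
  | _, .fls, _ => ⊥
  | _, .imp f g, v => f.val e v ⇨ g.val e v
  | _, .all f, v => ⨅ x, f.val e (Matrix.vecCons x v)

/-- negation -/
def neg (f : Fm κ n) : Fm κ n := .imp f .fls
/-- conjunction -/
def and (f g : Fm κ n) : Fm κ n := (Fm.imp f g.neg).neg
/-- disjunction -/
def or (f g : Fm κ n) : Fm κ n := Fm.imp f.neg g
/-- equivalence -/
def iff (f g : Fm κ n) : Fm κ n := (Fm.imp f g).and (Fm.imp g f)
/-- existence -/
def ex (f : Fm κ (n + 1)) : Fm κ n := f.neg.all.neg

section Sat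
variable {M : Type v} (E : M → M → Prop) (e : κ → M)

@[simp] lemma sat_mem (s t : Fin n ⊕ κ) (v) :
    (Fm.mem s t).Sat E e v ↔ E (Sum.elim v e s) (Sum.elim v e t) := Iff.rfl
@[simp] lemma sat_eq (s t : Fin n ⊕ κ) (v) :
    (Fm.eq s t).Sat E e v ↔ Sum.elim v e s = Sum.elim v e t := Iff.rfl
@[simp] lemma sat_fls (v : Fin n → M) : (Fm.fls : Fm κ n).Sat E e v ↔ False := Iff.rfl
@[simp] lemma sat_imp (f g : Fm κ n) (v) :
    (Fm.imp f g).Sat E e v ↔ (f.Sat E e v → g.Sat E e v) := Iff.rfl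
@[simp] lemma sat_all (f : Fm κ (n + 1)) (v) :
    (Fm.all f).Sat E e v ↔ ∀ x, f.Sat E e (Matrix.vecCons x v) := Iff.rfl
@[simp] lemma sat_neg (f : Fm κ n) (v) : f.neg.Sat E e v ↔ ¬ f.Sat E e v := Iff.rfl
@[simp] lemma sat_and (f g : Fm κ n) (v) :
    (f.and g).Sat E e v ↔ f.Sat E e v ∧ g.Sat E e v := by
  simp [Fm.and]
@[simp] lemma sat_or (f g : Fm κ n) (v) : (f.or g).Sat E e v ↔ f.Sat E e v ∨ g.Sat E e v := by
  simp [Fm.or, or_iff_not_imp_left]
@[simp] lemma sat_iff (f g : Fm κ n) (v) :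
    (f.iff g).Sat E e v ↔ (f.Sat E e v ↔ g.Sat E e v) := by
  simp [Fm.iff, iff_def]
@[simp] lemma sat_ex (f : Fm κ (n + 1)) (v) :
    (Fm.ex f).Sat E e v ↔ ∃ x, f.Sat E e (Matrix.vecCons x v) := by
  simp [Fm.ex]

end Sat

section val
variable (e : κ → HN.{u})

@[simp] lemma val_mem (s t : Fin n ⊕ κ) (v) :
    (Fm.mem s t).val e v = HN.mem (Sum.elim v e s) (Sum.elim v e t) := rfl
@[simp] lemma val_eq (s t : Fin n ⊕ κ) (v) :
    (Fm.eq s t).val e v = HN.eq (Sum.elim v e s) (Sum.elim v e t) := rfl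
@[simp] lemma val_fls (v : Fin n → HN.{u}) : (Fm.fls : Fm κ n).val e v = ⊥ := rfl
@[simp] lemma val_imp (f g : Fm κ n) (v) :
    (Fm.imp f g).val e v = (f.val e v ⇨ g.val e v) := rfl
@[simp] lemma val_all (f : Fm κ (n + 1)) (v) :
    (Fm.all f).val e v = ⨅ x, f.val e (Matrix.vecCons x v) := rfl
@[simp] lemma val_neg (f : Fm κ n) (v) : f.neg.val e v = (f.val e v)ᶜ := by
  simp [Fm.neg]
@[simp] lemma val_and (f g : Fm κ n) (v) :
    (f.and g).val e v = f.val e v ⊓ g.val e v := by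
  simp [Fm.and, himp_eq, inf_comm]
@[simp] lemma val_or (f g : Fm κ n) (v) : (f.or g).val e v = f.val e v ⊔ g.val e v := by
  simp [Fm.or, himp_eq, sup_comm]
@[simp] lemma val_iff (f g : Fm κ n) (v) :
    (f.iff g).val e v = iffV (f.val e v) (g.val e v) := by
  simp [Fm.iff, iffV]
@[simp] lemma val_ex (f : Fm κ (n + 1)) (v) :
    (Fm.ex f).val e v = ⨆ x, f.val e (Matrix.vecCons x v) := by
  simp [Fm.ex, compl_iInf]

end val

/-! ### congruence -/

theorem term_congr {e e' : κ → HN.{u}} {Γ : BB} (he : ∀ c, Γ ≤ HN.eq (e c) (e' c))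
    {v v' : Fin n → HN.{u}} (hv : ∀ i, Γ ≤ HN.eq (v i) (v' i)) (s : Fin n ⊕ κ) :
    Γ ≤ HN.eq (Sum.elim v e s) (Sum.elim v' e' s) := by
  cases s with
  | inl i => exact hv i
  | inr c => exact he c

theorem val_congr (f : Fm κ n) {e e' : κ → HN.{u}} {Γ : BB} (he : ∀ c, Γ ≤ HN.eq (e c) (e' c))
    {v v' : Fin n → HN.{u}} (hv : ∀ i, Γ ≤ HN.eq (v i) (v' i)) (h : Γ ≤ f.val e v) :
    Γ ≤ f.val e' v' := by
  induction f generalizing Γ e e' with
  | mem s t =>
    exact HN.bMemL (term_congr he hv s) (HN.bMemR (term_congr he hv t) h)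
  | eq s t =>
    exact HN.bTrans (HN.bSymm (term_congr he hv s)) (HN.bTrans h (term_congr he hv t))
  | fls => exact h
  | imp f g hf hg =>
    refine bImp fun Δ hΔ h' => ?_
    refine hg (fun c => hΔ.trans (he c)) (fun i => hΔ.trans (hv i)) (bMP (hΔ.trans h) ?_)
    exact hf (fun c => HN.bSymm (hΔ.trans (he c))) (fun i => HN.bSymm (hΔ.trans (hv i))) h'
  | all f hf =>
    refine le_iInf fun x => hf he (fun i => ?_) (bAll h x)
    refine Fin.cases ?_ (fun j => ?_) i
    · exact HN.bRefl x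
    · exact hv j

/-! ### equivariance -/

theorem term_act (e : κ → HN.{u}) (s : Fin n ⊕ κ) : ∃ F : Finset ℕ, ∀ g ∈ Flip.Fix F,
    ∀ v : Fin n → HN.{u}, HN.eq (Sum.elim (fun i => HN.act g (v i)) e s)
      (HN.act g (Sum.elim v e s)) = ⊤ := by
  cases s with
  | inl i => exact ⟨∅, fun g _ v => HN.eq_refl _⟩
  | inr c =>
    obtain ⟨F, hF⟩ := (e c).sym
    exact ⟨F, fun g hg v => by rw [HN.eq_symm]; exact hF g hg⟩

theorem val_act (e : κ → HN.{u}) (f : Fm κ n) : ∃ F : Finset ℕ, ∀ g ∈ Flip.Fix F,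
    ∀ v : Fin n → HN.{u}, f.val e (fun i => HN.act g (v i)) = ρ g (f.val e v) := by
  induction f with
  | mem s t =>
    obtain ⟨F, hF⟩ := term_act e s
    obtain ⟨F', hF'⟩ := term_act e t
    refine ⟨F ∪ F', fun g hg v => ?_⟩
    have h1 := hF g (Flip.Fix_anti Finset.subset_union_left hg) v
    have h2 := hF' g (Flip.Fix_anti Finset.subset_union_right hg) v
    simp only [val_mem]
    rw [← HN.mem_act]
    refine eq_of_forall fun Γ => ⟨fun h => ?_, fun h => ?_⟩
    · exact HN.bMemL (le_top.trans h1.ge) (HN.bMemR (le_top.trans h2.ge) h)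
    · exact HN.bMemL (HN.bSymm (le_top.trans h1.ge)) (HN.bMemR (HN.bSymm (le_top.trans h2.ge)) h)
  | eq s t =>
    obtain ⟨F, hF⟩ := term_act e s
    obtain ⟨F', hF'⟩ := term_act e t
    refine ⟨F ∪ F', fun g hg v => ?_⟩
    have h1 := hF g (Flip.Fix_anti Finset.subset_union_left hg) v
    have h2 := hF' g (Flip.Fix_anti Finset.subset_union_right hg) v
    simp only [val_eq]
    rw [← HN.eq_act]
    refine eq_of_forall fun Γ => ⟨fun h => ?_, fun h => ?_⟩
    · exact HN.bTrans (HN.bSymm (le_top.trans h1.ge)) (HN.bTrans h (le_top.trans h2.ge))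
    · exact HN.bTrans (le_top.trans h1.ge) (HN.bTrans h (HN.bSymm (le_top.trans h2.ge)))
  | fls => exact ⟨∅, fun g _ v => by simp⟩
  | imp f g hf hg =>
    obtain ⟨F, hF⟩ := hf
    obtain ⟨F', hF'⟩ := hg
    refine ⟨F ∪ F', fun g hg v => ?_⟩
    simp only [val_imp]
    rw [hF g (Flip.Fix_anti Finset.subset_union_left hg) v,
      hF' g (Flip.Fix_anti Finset.subset_union_right hg) v, map_himp]
  | all f hf =>
    obtain ⟨F, hF⟩ := hf
    refine ⟨F, fun g hg v => ?_⟩
    simp only [val_all]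
    rw [OrderIso.map_iInf, ← (HN.act_surj g).iInf_comp]
    refine iInf_congr fun x => ?_
    rw [← hF g hg]
    congr 1
    funext i
    refine Fin.cases ?_ (fun j => ?_) i <;> simp

/-! ### change of parameters -/

/-- change of parameters -/
def map {κ' : Type v} (r : κ → κ') : {n : ℕ} → Fm κ n → Fm κ' n
  | _, .mem s t => .mem (Sum.map id r s) (Sum.map id r t)
  | _, .eq s t => .eq (Sum.map id r s) (Sum.map id r t)
  | _, .fls => .fls
  | _, .imp f g => .imp (f.map r) (g.map r)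
  | _, .all f => .all (f.map r)

theorem map_map {κ' : Type v} {κ'' : Type u} (r : κ → κ') (r' : κ' → κ'') (f : Fm κ n) :
    (f.map r).map r' = f.map (r' ∘ r) := by
  induction f with
  | mem s t => cases s <;> cases t <;> rfl
  | eq s t => cases s <;> cases t <;> rfl
  | fls => rfl
  | imp f g hf hg => simp only [map, hf, hg]
  | all f hf => simp only [map, hf]

theorem val_map {κ' : Type v} (r : κ → κ') (e : κ' → HN.{u}) (f : Fm κ n) (v) :
    (f.map r).val e v = f.val (e ∘ r) v := by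
  induction f with
  | mem s t => cases s <;> cases t <;> rfl
  | eq s t => cases s <;> cases t <;> rfl
  | fls => rfl
  | imp f g hf hg => simp only [map, val_imp, hf, hg]
  | all f hf => simp only [map, val_all, hf]

/-! ### renaming of variables -/

/-- renaming under a binder -/
def liftRen {m : ℕ} (r : Fin n → Fin m) : Fin (n + 1) → Fin (m + 1) :=
  Fin.cases 0 (fun i => (r i).succ)

/-- renaming of the variables -/
def ren : {n m : ℕ} → (Fin n → Fin m) → Fm κ n → Fm κ m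
  | _, _, r, .mem s t => .mem (Sum.map r id s) (Sum.map r id t)
  | _, _, r, .eq s t => .eq (Sum.map r id s) (Sum.map r id t)
  | _, _, _, .fls => .fls
  | _, _, r, .imp f g => .imp (f.ren r) (g.ren r)
  | _, _, r, .all f => .all (f.ren (liftRen r))

theorem vecCons_liftRen {X : Type v} {m : ℕ} (r : Fin n → Fin m) (x : X) (v : Fin m → X) :
    (fun i => Matrix.vecCons x v (liftRen r i)) = Matrix.vecCons x (fun i => v (r i)) := by
  funext i
  refine Fin.cases ?_ (fun j => ?_) i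
  · rfl
  · rfl

@[simp] theorem val_ren {m : ℕ} (r : Fin n → Fin m) (e : κ → HN.{u}) (f : Fm κ n)
    (v : Fin m → HN.{u}) : (f.ren r).val e v = f.val e (fun i => v (r i)) := by
  induction f generalizing m with
  | mem s t => cases s <;> cases t <;> rfl
  | eq s t => cases s <;> cases t <;> rfl
  | fls => rfl
  | imp f g hf hg => simp only [ren, val_imp, hf, hg]
  | all f hf => simp only [ren, val_all, hf, vecCons_liftRen]

@[simp] theorem sat_ren {M : Type v} (E : M → M → Prop) {m : ℕ} (r : Fin n → Fin m) (e : κ → M)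
    (f : Fm κ n) (v : Fin m → M) : (f.ren r).Sat E e v ↔ f.Sat E e (fun i => v (r i)) := by
  induction f generalizing m with
  | mem s t => cases s <;> cases t <;> rfl
  | eq s t => cases s <;> cases t <;> rfl
  | fls => rfl
  | imp f g hf hg => simp only [ren, sat_imp, hf, hg]
  | all f hf => simp only [ren, sat_all, hf, vecCons_liftRen]

/-! ### countability -/

/-- depth -/
def depth : {n : ℕ} → Fm κ n → ℕ
  | _, .mem _ _ => 0
  | _, .eq _ _ => 0
  | _, .fls => 0
  | _, .imp f g => max f.depth g.depth + 1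
  | _, .all f => f.depth + 1

theorem countable_depth [Countable κ] (d n : ℕ) : {f : Fm κ n | f.depth < d}.Countable := by
  induction d generalizing n with
  | zero => simp
  | succ d ih =>
    have h1 : (Set.range fun p : (Fin n ⊕ κ) × (Fin n ⊕ κ) => Fm.mem p.1 p.2).Countable :=
      Set.countable_range _
    have h2 : (Set.range fun p : (Fin n ⊕ κ) × (Fin n ⊕ κ) => Fm.eq p.1 p.2).Countable :=
      Set.countable_range _
    have h3 : ({Fm.fls} : Set (Fm κ n)).Countable := Set.countable_singleton _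
    have h4 : (Set.image2 Fm.imp {f : Fm κ n | f.depth < d} {f : Fm κ n | f.depth < d}).Countable :=
      (ih n).image2 (ih n) _
    have h5 : (Fm.all '' {f : Fm κ (n + 1) | f.depth < d}).Countable := (ih (n + 1)).image _
    refine ((((h1.union h2).union h3).union h4).union h5).mono ?_
    intro f hf
    have hf' : f.depth < d + 1 := hf
    cases f with
    | mem s t => exact Or.inl (Or.inl (Or.inl (Or.inl ⟨(s, t), rfl⟩)))
    | eq s t => exact Or.inl (Or.inl (Or.inl (Or.inr ⟨(s, t), rfl⟩)))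
    | fls => exact Or.inl (Or.inl (Or.inr rfl))
    | imp f g =>
      simp only [depth] at hf'
      exact Or.inl (Or.inr ⟨f, by show f.depth < d; omega, g, by show g.depth < d; omega, rfl⟩)
    | all f =>
      simp only [depth] at hf'
      exact Or.inr ⟨f, by show f.depth < d; omega, rfl⟩

instance [Countable κ] (n : ℕ) : Countable (Fm κ n) := by
  rw [← Set.countable_univ_iff]
  refine (Set.countable_iUnion fun d => countable_depth (κ := κ) d n).mono fun f _ => ?_
  exact Set.mem_iUnion.2 ⟨f.depth + 1, Nat.lt_succ_self _⟩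

/-! ### finitely many parameters -/

theorem fin_params {X : Type v} {A : ℕ → Set X} (hA : Monotone A) (f : Fm (⋃ k, A k : Set X) n) :
    ∃ k, ∀ k' ≥ k, ∃ (f' : Fm (A k') n),
      f = f'.map (fun x => (⟨x.1, Set.mem_iUnion.2 ⟨k', x.2⟩⟩ : (⋃ k, A k : Set X))) := by
  have hterm : ∀ {n : ℕ} (s : Fin n ⊕ (⋃ k, A k : Set X)), ∃ k, ∀ k' ≥ k, ∃ s' : Fin n ⊕ (A k'),
      s = Sum.map id (fun x => (⟨x.1, Set.mem_iUnion.2 ⟨k', x.2⟩⟩ : (⋃ k, A k : Set X))) s' := by
    intro n s
    cases s with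
    | inl i => exact ⟨0, fun k' _ => ⟨Sum.inl i, rfl⟩⟩
    | inr c =>
      obtain ⟨c, hc⟩ := c
      obtain ⟨k, hk⟩ := Set.mem_iUnion.1 hc
      exact ⟨k, fun k' hk' => ⟨Sum.inr ⟨c, hA hk' hk⟩, rfl⟩⟩
  induction f with
  | mem s t =>
    obtain ⟨k, hk⟩ := hterm s
    obtain ⟨l, hl⟩ := hterm t
    refine ⟨max k l, fun k' hk' => ?_⟩
    obtain ⟨s', hs'⟩ := hk k' ((le_max_left _ _).trans hk')
    obtain ⟨t', ht'⟩ := hl k' ((le_max_right _ _).trans hk')
    exact ⟨.mem s' t', by rw [hs', ht']; rfl⟩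
  | eq s t =>
    obtain ⟨k, hk⟩ := hterm s
    obtain ⟨l, hl⟩ := hterm t
    refine ⟨max k l, fun k' hk' => ?_⟩
    obtain ⟨s', hs'⟩ := hk k' ((le_max_left _ _).trans hk')
    obtain ⟨t', ht'⟩ := hl k' ((le_max_right _ _).trans hk')
    exact ⟨.eq s' t', by rw [hs', ht']; rfl⟩
  | fls => exact ⟨0, fun _ _ => ⟨.fls, rfl⟩⟩
  | imp f g hf hg =>
    obtain ⟨k, hk⟩ := hf
    obtain ⟨l, hl⟩ := hg
    refine ⟨max k l, fun k' hk' => ?_⟩
    obtain ⟨s', hs'⟩ := hk k' ((le_max_left _ _).trans hk')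
    obtain ⟨t', ht'⟩ := hl k' ((le_max_right _ _).trans hk')
    exact ⟨.imp s' t', by rw [hs', ht']; rfl⟩
  | all f hf =>
    obtain ⟨k, hk⟩ := hf
    refine ⟨k, fun k' hk' => ?_⟩
    obtain ⟨s', hs'⟩ := hk k' hk'
    exact ⟨.all s', by rw [hs']; rfl⟩

end Fm

end Pool.Agent.Helper23.WT
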