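import Pool.Agent.Helper23.WT.Dfn

set_option autoImplicit false
set_option linter.unreachableTactic false
set_option linter.unusedTactic false

/-!
# Basic set theory in a model of ZF
-/

universe u v w

namespace Pool.Agent.Helper23.WT

variable {M : Type u} [ZM M] {n m : ℕ}

/-- definable unary predicate -/
abbrev D1 (P : M → Prop) : Prop := Dfn (fun v : Fin 1 → M => P (v 0))

/-- definable unary function -/
abbrev F1 (F : M → M) : Prop := DF (fun v : Fin 1 → M => F (v 0))

theorem exists_sep {P : M → Prop} (hP : D1 P) (a : M) : ∃ b, ∀ x, ZM.E x b ↔ ZM.E x a ∧ P x := by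
  obtain ⟨f, hf⟩ := hP
  obtain ⟨b, hb⟩ := (ZM.zf : ZF (ZM.E : M → M → Prop)).separation f a
  exact ⟨b, fun x => by rw [hb, hf]; rfl⟩

/-! ### pairs -/

/-- the unordered pair -/
noncomputable def upair (x y : M) : M := mkS (fun w => w = x ∨ w = y)

theorem mem_upair {x y w : M} : ZM.E w (upair x y) ↔ w = x ∨ w = y :=
  mem_mkS (ZM.zf.pairing x y) w

/-- the ordered pair -/
noncomputable def opair (x y : M) : M := upair (upair x x) (upair x y)

theorem DF.upair {s t : (Fin n → M) → M} (hs : DF s) (ht : DF t) :
    DF (fun v => upair (s v) (t v)) :=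
  DF.comp2 (F := fun x y => WT.upair x y) (by unfold WT.upair; (repeat' first
      | with_reducible assumption | with_reducible exact DF.var _
      | with_reducible exact DF.const _ | with_reducible exact Dfn.const _
      | with_reducible apply DF.the | with_reducible apply DF.mkS
      | with_reducible apply Dfn.mem | with_reducible apply Dfn.eq
      | with_reducible apply Dfn.and | with_reducible apply Dfn.or
      | with_reducible apply Dfn.iff | with_reducible apply Dfn.imp
      | with_reducible apply Dfn.not | with_reducible apply Dfn.exu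
      | with_reducible apply Dfn.ex | with_reducible apply Dfn.all)) hs ht

theorem DF.opair {s t : (Fin n → M) → M} (hs : DF s) (ht : DF t) :
    DF (fun v => opair (s v) (t v)) := (hs.upair hs).upair (hs.upair ht)

theorem isUPair_iff {z x y : M} : IsUPair ZM.E z x y ↔ z = upair x y := by
  constructor
  · intro h
    exact ext fun w => by rw [h w, mem_upair]
  · rintro rfl w
    exact mem_upair

theorem isOPair_iff {p x y : M} : IsOPair ZM.E p x y ↔ p = opair x y := by
  constructor
  · intro h
    exact ext fun w => by
      rw [h w, isUPair_iff, isUPair_iff]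
      exact mem_upair.symm
  · rintro rfl w
    rw [isUPair_iff, isUPair_iff]
    exact mem_upair

theorem app_iff {f x y : M} : App ZM.E f x y ↔ ZM.E (opair x y) f := by
  unfold App
  simp only [isOPair_iff, exists_eq_left]

theorem upair_inj_left {x y z : M} (h : upair x y = upair x z) : y = z := by
  have h1 : ZM.E y (upair x z) := by rw [← h]; exact mem_upair.2 (Or.inr rfl)
  have h2 : ZM.E z (upair x y) := by rw [h]; exact mem_upair.2 (Or.inr rfl)
  rw [mem_upair] at h1 h2
  rcases h1 with h1 | h1
  · rcases h2 with h2 | h2
    · rw [h1, h2]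
    · exact h2.symm
  · exact h1

theorem opair_inj {x y x' y' : M} : opair x y = opair x' y' ↔ x = x' ∧ y = y' := by
  constructor
  · intro h
    have hx : x = x' := by
      have h1 : ZM.E (upair x x) (opair x' y') := by rw [← h]; exact mem_upair.2 (Or.inl rfl)
      rcases mem_upair.1 h1 with h2 | h2
      · have : ZM.E x' (upair x x) := by rw [h2]; exact mem_upair.2 (Or.inl rfl)
        rcases mem_upair.1 this with h | h <;> exact h.symm
      · have : ZM.E x' (upair x x) := by rw [h2]; exact mem_upair.2 (Or.inl rfl)
        rcases mem_upair.1 this with h | h <;> exact h.symm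
    subst hx
    exact ⟨rfl, upair_inj_left (upair_inj_left h)⟩
  · rintro ⟨rfl, rfl⟩
    rfl

/-! ### power set, union, products -/

/-- the power set -/
noncomputable def pow (a : M) : M := mkS (fun w => ∀ z, ZM.E z w → ZM.E z a)

theorem mem_pow {a w : M} : ZM.E w (pow a) ↔ ∀ z, ZM.E z w → ZM.E z a := mem_mkS (ZM.zf.power a) w

theorem DF.pow {s : (Fin n → M) → M} (hs : DF s) : DF (fun v => pow (s v)) :=
  DF.comp1 (F := fun x => WT.pow x) (by unfold WT.pow; (repeat' first
      | with_reducible apply DF.opair | with_reducible apply DF.upair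
      | with_reducible assumption | with_reducible exact DF.var _
      | with_reducible exact DF.const _ | with_reducible exact Dfn.const _
      | with_reducible apply DF.the | with_reducible apply DF.mkS
      | with_reducible apply Dfn.mem | with_reducible apply Dfn.eq
      | with_reducible apply Dfn.and | with_reducible apply Dfn.or
      | with_reducible apply Dfn.iff | with_reducible apply Dfn.imp
      | with_reducible apply Dfn.not | with_reducible apply Dfn.exu
      | with_reducible apply Dfn.ex | with_reducible apply Dfn.all)) hs

/-- the product -/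
noncomputable def prod (a b : M) : M := mkS (fun p => ∃ x y, ZM.E x a ∧ ZM.E y b ∧ p = opair x y)

theorem opair_mem_pow {x y s : M} (hx : ZM.E x s) (hy : ZM.E y s) : ZM.E (opair x y) (pow (pow s)) := by
  rw [mem_pow]
  intro w hw
  rw [mem_pow]
  intro z hz
  rcases mem_upair.1 hw with rfl | rfl
  · rcases mem_upair.1 hz with rfl | rfl <;> exact hx
  · rcases mem_upair.1 hz with rfl | rfl
    · exact hx
    · exact hy

theorem mem_prod {a b p : M} : ZM.E p (prod a b) ↔ ∃ x y, ZM.E x a ∧ ZM.E y b ∧ p = opair x y := by
  refine mem_mkS ?_ p
  obtain ⟨s, hs⟩ := (ZM.zf : ZF (ZM.E : M → M → Prop)).union (upair a b)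
  obtain ⟨c, hc⟩ := exists_sep (P := fun p => ∃ x y, ZM.E x a ∧ ZM.E y b ∧ p = opair x y) (by (repeat' first
      | with_reducible apply DF.pow | with_reducible apply DF.opair
      | with_reducible apply DF.upair | with_reducible assumption
      | with_reducible exact DF.var _ | with_reducible exact DF.const _
      | with_reducible exact Dfn.const _ | with_reducible apply DF.the
      | with_reducible apply DF.mkS | with_reducible apply Dfn.mem
      | with_reducible apply Dfn.eq | with_reducible apply Dfn.and
      | with_reducible apply Dfn.or | with_reducible apply Dfn.iff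
      | with_reducible apply Dfn.imp | with_reducible apply Dfn.not
      | with_reducible apply Dfn.exu | with_reducible apply Dfn.ex
      | with_reducible apply Dfn.all))
    (pow (pow s))
  refine ⟨c, fun p => ?_⟩
  rw [hc]
  constructor
  · exact fun h => h.2
  · rintro ⟨x, y, hx, hy, rfl⟩
    refine ⟨opair_mem_pow ?_ ?_, x, y, hx, hy, rfl⟩
    · exact (hs x).2 ⟨a, mem_upair.2 (Or.inl rfl), hx⟩
    · exact (hs y).2 ⟨b, mem_upair.2 (Or.inr rfl), hy⟩

theorem opair_mem_prod {a b x y : M} : ZM.E (opair x y) (prod a b) ↔ ZM.E x a ∧ ZM.E y b := by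
  rw [mem_prod]
  constructor
  · rintro ⟨x', y', hx, hy, h⟩
    obtain ⟨rfl, rfl⟩ := opair_inj.1 h
    exact ⟨hx, hy⟩
  · rintro ⟨hx, hy⟩
    exact ⟨x, y, hx, hy, rfl⟩

theorem DF.prod {s t : (Fin n → M) → M} (hs : DF s) (ht : DF t) :
    DF (fun v => prod (s v) (t v)) :=
  DF.comp2 (F := fun x y => WT.prod x y) (by unfold WT.prod; (repeat' first
      | with_reducible apply DF.pow | with_reducible apply DF.opair
      | with_reducible apply DF.upair | with_reducible assumption
      | with_reducible exact DF.var _ | with_reducible exact DF.const _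
      | with_reducible exact Dfn.const _ | with_reducible apply DF.the
      | with_reducible apply DF.mkS | with_reducible apply Dfn.mem
      | with_reducible apply Dfn.eq | with_reducible apply Dfn.and
      | with_reducible apply Dfn.or | with_reducible apply Dfn.iff
      | with_reducible apply Dfn.imp | with_reducible apply Dfn.not
      | with_reducible apply Dfn.exu | with_reducible apply Dfn.ex
      | with_reducible apply Dfn.all)) hs ht

/-! ### functions -/

/-- `f` is a function from `A` to `B` -/
def IsFn (f A B : M) : Prop :=
  (∀ p, ZM.E p f → ∃ x y, ZM.E x A ∧ ZM.E y B ∧ p = opair x y) ∧ ∀ x, ZM.E x A → ∃! y, ZM.E (opair x y) f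

theorem isFun_iff {f A B : M} : IsFun ZM.E f A B ↔ IsFn f A B := by
  unfold IsFun IsFn
  simp only [isOPair_iff, app_iff]

theorem Dfn.isFn {s t r : (Fin n → M) → M} (hs : DF s) (ht : DF t) (hr : DF r) :
    Dfn (fun v => IsFn (s v) (t v) (r v)) :=
  Dfn.comp3 (R := fun f A B => IsFn f A B) (by unfold IsFn; (repeat' first
      | with_reducible apply DF.prod | with_reducible apply DF.pow
      | with_reducible apply DF.opair | with_reducible apply DF.upair
      | with_reducible assumption | with_reducible exact DF.var _
      | with_reducible exact DF.const _ | with_reducible exact Dfn.const _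
      | with_reducible apply DF.the | with_reducible apply DF.mkS
      | with_reducible apply Dfn.mem | with_reducible apply Dfn.eq
      | with_reducible apply Dfn.and | with_reducible apply Dfn.or
      | with_reducible apply Dfn.iff | with_reducible apply Dfn.imp
      | with_reducible apply Dfn.not | with_reducible apply Dfn.exu
      | with_reducible apply Dfn.ex | with_reducible apply Dfn.all)) hs ht hr

/-- the value of a function -/
noncomputable def ap (f x : M) : M := the (fun y => ZM.E (opair x y) f)

theorem DF.ap {s t : (Fin n → M) → M} (hs : DF s) (ht : DF t) :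
    DF (fun v => ap (s v) (t v)) :=
  DF.comp2 (F := fun x y => WT.ap x y) (by unfold WT.ap; (repeat' first
      | with_reducible apply Dfn.isFn | with_reducible apply DF.prod
      | with_reducible apply DF.pow | with_reducible apply DF.opair
      | with_reducible apply DF.upair | with_reducible assumption
      | with_reducible exact DF.var _ | with_reducible exact DF.const _
      | with_reducible exact Dfn.const _ | with_reducible apply DF.the
      | with_reducible apply DF.mkS | with_reducible apply Dfn.mem
      | with_reducible apply Dfn.eq | with_reducible apply Dfn.and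
      | with_reducible apply Dfn.or | with_reducible apply Dfn.iff
      | with_reducible apply Dfn.imp | with_reducible apply Dfn.not
      | with_reducible apply Dfn.exu | with_reducible apply Dfn.ex
      | with_reducible apply Dfn.all)) hs ht

namespace IsFn

variable {f g A B B' x y : M}

theorem mem_iff (h : IsFn f A B) (hx : ZM.E x A) : ZM.E (opair x y) f ↔ y = ap f x := by
  have h1 : ZM.E (opair x (ap f x)) f := the_spec (h.2 x hx)
  constructor
  · intro h2
    exact (h.2 x hx).unique h2 h1
  · rintro rfl
    exact h1

theorem mem_dom (h : IsFn f A B) (h' : ZM.E (opair x y) f) : ZM.E x A ∧ ZM.E y B := by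
  obtain ⟨x', y', hx, hy, h2⟩ := h.1 _ h'
  obtain ⟨rfl, rfl⟩ := opair_inj.1 h2
  exact ⟨hx, hy⟩

theorem ap_mem (h : IsFn f A B) (hx : ZM.E x A) : ZM.E (ap f x) B :=
  (h.mem_dom ((h.mem_iff hx).2 rfl)).2

theorem ext (h : IsFn f A B) (h' : IsFn g A B') (H : ∀ x, ZM.E x A → ap f x = ap g x) : f = g := by
  refine WT.ext fun p => ⟨fun hp => ?_, fun hp => ?_⟩
  · obtain ⟨x, y, hx, hy, rfl⟩ := h.1 p hp
    rw [h.mem_iff hx] at hp
    rw [h'.mem_iff hx, hp, H x hx]
  · obtain ⟨x, y, hx, hy, rfl⟩ := h'.1 p hp
    rw [h'.mem_iff hx] at hp
    rw [h.mem_iff hx, hp, H x hx]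

theorem mono (h : IsFn f A B) (H : ∀ x, ZM.E x A → ZM.E (ap f x) B') : IsFn f A B' := by
  refine ⟨fun p hp => ?_, h.2⟩
  obtain ⟨x, y, hx, hy, rfl⟩ := h.1 p hp
  have := (h.mem_iff hx).1 hp
  exact ⟨x, y, hx, by rw [this]; exact H x hx, rfl⟩

end IsFn

/-- the function given by a definable function -/
noncomputable def lam (A : M) (F : M → M) : M := mkS (fun p => ∃ x, ZM.E x A ∧ p = opair x (F x))

theorem DF.lam {s : (Fin n → M) → M} {F : (Fin n → M) → M → M} (hs : DF s)
    (hF : DF (fun w : Fin (n + 1) → M => F (fun i => w i.succ) (w 0))) :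
    DF (fun v => lam (s v) (F v)) := by
  unfold WT.lam
  apply DF.mkS
  apply Dfn.ex
  apply Dfn.and
  · exact Dfn.mem (DF.var _) (hs.wk.wk)
  · refine Dfn.eq (DF.var _) (DF.opair (DF.var _) ?_)
    exact hF.ren (fun i : Fin (n + 1) => Fin.cases 0 (fun j => j.succ.succ) i)

section lam

variable {A B : M} {F : M → M}

theorem mem_lam (hF : F1 F) (h : ∀ x, ZM.E x A → ZM.E (F x) B) {p : M} :
    ZM.E p (lam A F) ↔ ∃ x, ZM.E x A ∧ p = opair x (F x) := by
  refine mem_mkS ?_ p
  obtain ⟨c, hc⟩ := exists_sep (P := fun p => ∃ x, ZM.E x A ∧ p = opair x (F x)) (by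
    (repeat' first
        | with_reducible apply DF.lam | with_reducible apply DF.ap
        | with_reducible apply Dfn.isFn | with_reducible apply DF.prod
        | with_reducible apply DF.pow | with_reducible apply DF.opair
        | with_reducible apply DF.upair | with_reducible assumption
        | with_reducible exact DF.var _ | with_reducible exact DF.const _
        | with_reducible exact Dfn.const _ | with_reducible apply DF.the
        | with_reducible apply DF.mkS | with_reducible apply Dfn.mem
        | with_reducible apply Dfn.eq | with_reducible apply Dfn.and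
        | with_reducible apply Dfn.or | with_reducible apply Dfn.iff
        | with_reducible apply Dfn.imp | with_reducible apply Dfn.not
        | with_reducible apply Dfn.exu | with_reducible apply Dfn.ex
        | with_reducible apply Dfn.all)
    exact hF.ren (fun _ : Fin 1 => (0 : Fin 2))) (prod A B)
  refine ⟨c, fun p => ?_⟩
  rw [hc]
  constructor
  · exact fun h => h.2
  · rintro ⟨x, hx, rfl⟩
    exact ⟨opair_mem_prod.2 ⟨hx, h x hx⟩, x, hx, rfl⟩

theorem lam_isFn (hF : F1 F) (h : ∀ x, ZM.E x A → ZM.E (F x) B) : IsFn (lam A F) A B := by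
  refine ⟨fun p hp => ?_, fun x hx => ⟨F x, ?_, fun y hy => ?_⟩⟩
  · obtain ⟨x, hx, rfl⟩ := (mem_lam hF h).1 hp
    exact ⟨x, F x, hx, h x hx, rfl⟩
  · exact (mem_lam hF h).2 ⟨x, hx, rfl⟩
  · obtain ⟨x', hx', h2⟩ := (mem_lam hF h).1 hy
    obtain ⟨rfl, rfl⟩ := opair_inj.1 h2
    rfl

theorem ap_lam (hF : F1 F) (h : ∀ x, ZM.E x A → ZM.E (F x) B) {x : M} (hx : ZM.E x A) :
    ap (lam A F) x = F x :=
  (((lam_isFn hF h).mem_iff hx).1 ((mem_lam hF h).2 ⟨x, hx, rfl⟩)).symm

end lam

/-- the set of functions -/
noncomputable def funs (A B : M) : M := mkS (fun f => IsFn f A B)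

theorem mem_funs {A B f : M} : ZM.E f (funs A B) ↔ IsFn f A B := by
  refine mem_mkS ?_ f
  obtain ⟨c, hc⟩ := exists_sep (P := fun f => IsFn f A B) (by (repeat' first
      | with_reducible apply DF.lam | with_reducible apply DF.ap
      | with_reducible apply Dfn.isFn | with_reducible apply DF.prod
      | with_reducible apply DF.pow | with_reducible apply DF.opair
      | with_reducible apply DF.upair | with_reducible assumption
      | with_reducible exact DF.var _ | with_reducible exact DF.const _
      | with_reducible exact Dfn.const _ | with_reducible apply DF.the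
      | with_reducible apply DF.mkS | with_reducible apply Dfn.mem
      | with_reducible apply Dfn.eq | with_reducible apply Dfn.and
      | with_reducible apply Dfn.or | with_reducible apply Dfn.iff
      | with_reducible apply Dfn.imp | with_reducible apply Dfn.not
      | with_reducible apply Dfn.exu | with_reducible apply Dfn.ex
      | with_reducible apply Dfn.all)) (pow (prod A B))
  refine ⟨c, fun f => ?_⟩
  rw [hc]
  refine ⟨fun h => h.2, fun h => ⟨mem_pow.2 fun p hp => ?_, h⟩⟩
  obtain ⟨x, y, hx, hy, rfl⟩ := h.1 p hp
  exact opair_mem_prod.2 ⟨hx, hy⟩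

theorem DF.funs {s t : (Fin n → M) → M} (hs : DF s) (ht : DF t) :
    DF (fun v => funs (s v) (t v)) :=
  DF.comp2 (F := fun x y => WT.funs x y) (by unfold WT.funs; (repeat' first
      | with_reducible apply DF.lam | with_reducible apply DF.ap
      | with_reducible apply Dfn.isFn | with_reducible apply DF.prod
      | with_reducible apply DF.pow | with_reducible apply DF.opair
      | with_reducible apply DF.upair | with_reducible assumption
      | with_reducible exact DF.var _ | with_reducible exact DF.const _
      | with_reducible exact Dfn.const _ | with_reducible apply DF.the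
      | with_reducible apply DF.mkS | with_reducible apply Dfn.mem
      | with_reducible apply Dfn.eq | with_reducible apply Dfn.and
      | with_reducible apply Dfn.or | with_reducible apply Dfn.iff
      | with_reducible apply Dfn.imp | with_reducible apply Dfn.not
      | with_reducible apply Dfn.exu | with_reducible apply Dfn.ex
      | with_reducible apply Dfn.all)) hs ht

end Pool.Agent.Helper23.WT
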