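import Pool.Agent.Helper23.WT.ZFm

set_option autoImplicit false

/-!
# The set of all small names
-/

universe u v w

namespace Pool.Agent.Helper23.WT

open Fm

namespace Fm

variable {κ : Type w} {n : ℕ}

/-- shift of a term under a quantifier -/
def sh (s : Fin n ⊕ κ) : Fin (n + 1) ⊕ κ := Sum.map Fin.succ id s

@[simp] lemma elim_sh {X : Type v} (v : Fin n → X) (e : κ → X) (x : X) (s : Fin n ⊕ κ) :
    Sum.elim (Matrix.vecCons x v) e (sh s) = Sum.elim v e s := by
  cases s <;> simp [sh]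

/-- `z = {x, y}` -/
def fUPair (z x y : Fin n ⊕ κ) : Fm κ n :=
  Fm.all ((Fm.mem (.inl 0) (sh z)).iff ((Fm.eq (.inl 0) (sh x)).or (Fm.eq (.inl 0) (sh y))))

/-- `p = (x, y)` -/
def fPair (p x y : Fin n ⊕ κ) : Fm κ n :=
  Fm.all ((Fm.mem (.inl 0) (sh p)).iff
    ((fUPair (.inl 0) (sh x) (sh x)).or (fUPair (.inl 0) (sh x) (sh y))))

/-- `(x, y) ∈ f` -/
def fApp (f x y : Fin n ⊕ κ) : Fm κ n :=
  Fm.ex ((fPair (.inl 0) (sh x) (sh y)).and (Fm.mem (.inl 0) (sh f)))

section Sat
variable {M : Type v} (E : M → M → Prop) (e : κ → M)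

@[simp] lemma sat_fUPair (z x y : Fin n ⊕ κ) (v : Fin n → M) :
    (fUPair z x y).Sat E e v ↔
      IsUPair E (Sum.elim v e z) (Sum.elim v e x) (Sum.elim v e y) := by
  simp [fUPair, IsUPair]

@[simp] lemma sat_fPair (p x y : Fin n ⊕ κ) (v : Fin n → M) :
    (fPair p x y).Sat E e v ↔
      IsOPair E (Sum.elim v e p) (Sum.elim v e x) (Sum.elim v e y) := by
  simp [fPair, IsOPair]

@[simp] lemma sat_fApp (f x y : Fin n ⊕ κ) (v : Fin n → M) :
    (fApp f x y).Sat E e v ↔ App E (Sum.elim v e f) (Sum.elim v e x) (Sum.elim v e y) := by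
  simp [fApp, App]

end Sat

variable (e : κ → HN.{u})

@[simp] lemma val_fUPair (z x y : Fin n ⊕ κ) (v : Fin n → HN.{u}) :
    (fUPair z x y).val e v =
      HN.eq (Sum.elim v e z) (HN.upair (Sum.elim v e x) (Sum.elim v e y)) := by
  simp [fUPair, HN.eq_eq_iInf, HN.mem_upair]

@[simp] lemma val_fPair (p x y : Fin n ⊕ κ) (v : Fin n → HN.{u}) :
    (fPair p x y).val e v =
      HN.eq (Sum.elim v e p) (HN.opair (Sum.elim v e x) (Sum.elim v e y)) := by
  simp only [fPair, HN.opair, val_all, val_iff, val_mem, val_or, val_fUPair, elim_sh,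
    Sum.elim_inl, Matrix.cons_val_zero]
  rw [HN.eq_eq_iInf]
  simp only [HN.mem_upair]

@[simp] lemma val_fApp (f x y : Fin n ⊕ κ) (v : Fin n → HN.{u}) :
    (fApp f x y).val e v =
      HN.mem (HN.opair (Sum.elim v e x) (Sum.elim v e y)) (Sum.elim v e f) := by
  simp only [fApp, val_ex, val_and, val_mem, val_fPair, elim_sh,
    Sum.elim_inl, Matrix.cons_val_zero]
  refine le_antisymm (iSup_le fun p => ?_) ?_
  · exact HN.bMemL inf_le_left inf_le_right
  · exact bEx _ (le_inf (HN.bRefl _) le_rfl)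

end Fm

/-! ### small names -/

namespace Nm

/-- a small name as a large name -/
noncomputable def lift : Nm.{0} → Nm.{1}
  | mk ι a v => mk (ULift ι) (fun i => lift (a i.down)) (fun i => v i.down)

theorem lift_mk (ι : Type) (a : ι → Nm.{0}) (v : ι → BB) :
    lift (mk ι a v) = mk (ULift ι) (fun i => lift (a i.down)) (fun i => v i.down) := rfl

theorem eq_lift (x y : Nm.{0}) : eq (lift x) (lift y) = eq x y := by
  induction x generalizing y with
  | mk ι a v ih =>
    cases y with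
    | mk κ b w =>
      rw [lift_mk, lift_mk, eq_mk, eq_mk]
      simp only [iInf_ulift, iSup_ulift, ih]

theorem act_lift (g : Flip) (x : Nm.{0}) : act g (lift x) = lift (act g x) := by
  induction x with
  | mk ι a v ih =>
    rw [lift_mk, act_mk, act_mk, lift_mk]
    simp only [ih]

theorem HS.lift {x : Nm.{0}} (h : HS x) : HS (lift x) := by
  induction x with
  | mk ι a v ih =>
    refine ⟨fun i => ih i.down (h.1 i.down), ?_⟩
    obtain ⟨E, hE⟩ := h.2
    refine ⟨E, fun g hg => ?_⟩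
    have := hE g hg
    rw [← eq_lift, ← act_lift] at this
    exact this

end Nm

namespace HN

/-- a small name as a large name -/
noncomputable def lift (x : HN.{0}) : HN.{1} := ⟨x.1.lift, x.2.lift⟩

theorem eq_lift (x y : HN.{0}) : eq (lift x) (lift y) = eq x y := Nm.eq_lift x.1 y.1

theorem act_lift (g : Flip) (x : HN.{0}) : act g (lift x) = lift (act g x) :=
  Subtype.ext (Nm.act_lift g x.1)

theorem cases_small (x : HN.{0}) : ∃ (ι : Type) (a : ι → HN.{0}) (v : ι → BB),
    (∀ w, mem w x = ⨆ i, v i ⊓ eq w (a i)) ∧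
    ∀ w : HN.{1}, mem w (lift x) = ⨆ i, v i ⊓ eq w (lift (a i)) := by
  obtain ⟨x, hx⟩ := x
  cases x with
  | mk ι a v =>
    refine ⟨ι, fun i => ⟨a i, hx.1 i⟩, v, fun w => rfl, fun w => ?_⟩
    show (⨆ j : ULift ι, v j.down ⊓ Nm.eq w.1 (Nm.lift (a j.down))) = _
    rw [iSup_ulift]
    rfl

theorem mem_lift (w : HN.{1}) (x : HN.{0}) : mem w (lift x) = ⨆ y : HN.{0}, mem y x ⊓ eq w (lift y) := by
  obtain ⟨ι, a, v, h1, h2⟩ := cases_small x
  rw [h2]
  refine le_antisymm (iSup_le fun i => bEx (a i) (le_inf ?_ inf_le_right)) (iSup_le fun y => ?_)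
  · rw [h1]
    exact bEx i (le_inf inf_le_left (bRefl _))
  · rw [h1]
    refine bElim (bLeft le_rfl) fun i Δ h3 h4 => ?_
    refine bEx i (le_inf (bLeft h4) (bTrans (bRight h3) ?_))
    rw [eq_lift]
    exact bRight h4

theorem mem_lift_lift (y x : HN.{0}) : mem (lift y) (lift x) = mem y x := by
  rw [mem_lift]
  refine le_antisymm (iSup_le fun z => ?_) ?_
  · rw [eq_lift]
    exact bMemL (bSymm inf_le_right) inf_le_left
  · exact bEx y (le_inf le_rfl (bRefl _))

theorem exists_small (w : HN.{1}) (x : HN.{0}) :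
    ∃ w' : HN.{0}, ∀ y : HN.{0}, mem y w' = mem (lift y) w ⊓ mem y x := by
  obtain ⟨ι, a, v, h1, h2⟩ := cases_small x
  obtain ⟨E, hE⟩ := w.sym
  obtain ⟨F, hF⟩ := x.sym
  refine exists_of_char a (fun i => mem (lift (a i)) w ⊓ v i)
    (fun y => mem (lift y) w ⊓ mem y x) (fun y => ?_) ⟨E ∪ F, fun g hg y => ?_⟩
  · rw [h1, inf_iSup_eq]
    refine iSup_congr fun i => eq_of_forall fun Γ => ⟨fun h => ?_, fun h => ?_⟩
    · have h3 : Γ ≤ eq (lift y) (lift (a i)) := by rw [eq_lift]; exact bRight (bRight h)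
      exact le_inf (le_inf (bMemL h3 (bLeft h)) (bLeft (bRight h))) (bRight (bRight h))
    · have h3 : Γ ≤ eq (lift y) (lift (a i)) := by rw [eq_lift]; exact bRight h
      exact le_inf (bMemL (bSymm h3) (bLeft (bLeft h))) (le_inf (bRight (bLeft h)) (bRight h))
  · rw [map_inf, ← act_lift, ← mem_act, ← mem_act]
    rw [mem_congr_top (hE g (Flip.Fix_anti Finset.subset_union_left hg)),
      mem_congr_top (hF g (Flip.Fix_anti Finset.subset_union_right hg))]

/-- the name of the set of all small names -/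
theorem exists_univ : ∃ z : HN.{1}, ∀ x, mem x z = ⨆ y : HN.{0}, eq x (lift y) := by
  refine exists_of_char (ι := HN.{0}) lift (fun _ => ⊤) (fun x => ⨆ y : HN.{0}, eq x (lift y))
    (fun x => by simp) ⟨∅, fun g _ x => ?_⟩
  rw [OrderIso.map_iSup, ← (act_surj g).iSup_comp]
  refine iSup_congr fun y => ?_
  rw [← eq_act, act_lift]

/-- the name of the set of all small names -/
noncomputable def univ : HN.{1} := exists_univ.choose

theorem mem_univ (x : HN.{1}) : mem x univ = ⨆ y : HN.{0}, eq x (lift y) :=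
  exists_univ.choose_spec x

theorem lift_emp : eq (lift emp) (emp : HN.{1}) = ⊤ := by
  rw [eq_top_iff]
  refine bExt (fun x Δ _ h => ?_) (fun x Δ _ h => ?_)
  · rw [mem_lift] at h
    refine bElim h fun y Δ' _ h2 => ?_
    rw [mem_emp] at h2
    exact (bLeft h2).trans bot_le
  · rw [mem_emp] at h
    exact h.trans bot_le

theorem lift_nat (n : ℕ) : eq (lift (nat n)) (nat n : HN.{1}) = ⊤ := by
  induction n with
  | zero => exact lift_emp
  | succ n ih =>
    rw [eq_top_iff]
    refine bExt (fun x Δ _ h => ?_) (fun x Δ _ h => ?_)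
    · rw [mem_lift] at h
      refine bElim h fun y Δ' _ h2 => ?_
      rw [mem_nat_succ] at h2 ⊢
      refine bOr (bLeft h2) (fun Δ₁ h3 h4 => ?_) (fun Δ₁ h3 h4 => ?_)
      · refine le_sup_of_le_left (bTrans (bRight (h3.trans h2)) ?_)
        refine bTrans ?_ (le_top.trans ih.ge)
        rw [eq_lift]
        exact h4
      · refine le_sup_of_le_right (bMemL (bSymm (bRight (h3.trans h2))) ?_)
        refine bMemR (le_top.trans ih.ge) ?_
        rw [mem_lift_lift]
        exact h4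
    · rw [mem_nat_succ] at h
      refine bOr h (fun Δ₁ h3 h4 => ?_) (fun Δ₁ h3 h4 => ?_)
      · refine bMemL (bSymm (bTrans h4 (bSymm (le_top.trans ih.ge)))) ?_
        rw [mem_lift_lift, mem_nat_succ]
        exact le_sup_of_le_left (bRefl _)
      · have h5 := bMemR (bSymm (le_top.trans ih.ge)) h4
        rw [mem_lift] at h5 ⊢
        refine bElim h5 fun y Δ' _ h6 => bEx y (le_inf ?_ (bRight h6))
        rw [mem_nat_succ]
        exact le_sup_of_le_right (bLeft h6)

theorem univ_trans (x y : HN.{1}) {Γ : BB} (h : Γ ≤ mem y x) (h' : Γ ≤ mem x univ) :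
    Γ ≤ mem y univ := by
  rw [mem_univ] at h' ⊢
  refine bElim h' fun x₀ Δ h1 h2 => ?_
  have h3 := bMemR h2 (h1.trans h)
  rw [mem_lift] at h3
  refine bElim h3 fun z Δ' _ h4 => bEx z (bRight h4)

theorem univ_power (x : HN.{1}) :
    mem x univ ≤ ⨆ p, mem p univ ⊓ ⨅ y, iffV (mem y p) (⨅ z, mem z y ⇨ mem z x) := by
  rw [mem_univ]
  refine bElim le_rfl fun x₀ Δ h1 h2 => ?_
  obtain ⟨p, hp⟩ := exists_power x₀
  refine bEx (lift p) (le_inf ?_ (le_iInf fun y => bIff (fun Δ' h3 h4 => ?_) (fun Δ' h3 h4 => ?_)))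
  · rw [mem_univ]
    exact bEx p (bRefl _)
  · refine le_iInf fun z => bImp fun Δ₁ h5 h6 => ?_
    rw [mem_lift] at h4
    refine bElim (h5.trans h4) fun y₀ Δ₂ h7 h8 => ?_
    have h9 : Δ₂ ≤ mem z (lift y₀) := bMemR (bRight h8) (h7.trans h6)
    rw [mem_lift] at h9
    refine bElim h9 fun z₀ Δ₃ h10 h11 => ?_
    have h12 : Δ₃ ≤ mem y₀ p := bLeft (h10.trans h8)
    rw [hp] at h12
    have h13 := bMP (bAll h12 z₀) (bLeft h11)
    rw [← mem_lift_lift] at h13
    refine bMemR (bSymm (((h10.trans h7).trans (h5.trans h3)).trans h2)) ?_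
    exact bMemL (bSymm (bRight h11)) h13
  · obtain ⟨y', hy'⟩ := exists_small y x₀
    have h5 : Δ' ≤ eq y (lift y') := by
      refine bExt (fun z Δ₁ h6 h7 => ?_) (fun z Δ₁ h6 h7 => ?_)
      · have h8 := bMP (bAll (h6.trans h4) z) h7
        have h9 := bMemR ((h6.trans h3).trans h2) h8
        rw [mem_lift] at h9
        refine bElim h9 fun z₀ Δ₂ h10 h11 => ?_
        refine bMemL (bSymm (bRight h11)) ?_
        rw [mem_lift_lift, hy']
        exact le_inf (bMemL (bRight h11) (h10.trans h7)) (bLeft h11)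
      · rw [mem_lift] at h7
        refine bElim h7 fun z₀ Δ₂ h10 h11 => ?_
        have h12 := bLeft h11
        rw [hy'] at h12
        exact bMemL (bSymm (bRight h11)) (bLeft h12)
    refine bMemL (bSymm h5) ?_
    rw [mem_lift_lift, hp]
    refine le_iInf fun z => bImp fun Δ₁ h6 h7 => ?_
    rw [hy'] at h7
    exact bRight h7

theorem univ_coll (f : HN.{1}) : ∃ z : HN.{0}, (∀ n, mem (nat n) (lift z) = ⊤) ∧
    ∀ (n : ℕ) (y : HN.{0}), mem (opair (nat n) (lift y)) f ≤
      ⨆ y', mem y' z ⊓ mem (opair (nat n) (lift y')) f := by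
  obtain ⟨z, hz⟩ := exists_coll (I := ℕ ⊕ ℕ)
    (fun i y => i.elim (fun n => mem (opair (nat n) (lift y)) f) (fun n => eq y (nat n)))
  refine ⟨z, fun n => ?_, fun n y => ?_⟩
  · have h := hz (Sum.inr n)
    simp only [Sum.elim_inr] at h
    have h1 : (⊤ : BB) ≤ ⨆ y : HN.{0}, eq y (nat n) := bEx (nat n) (bRefl _)
    rw [eq_top_iff, mem_lift]
    refine (h1.trans h).trans (iSup_mono fun y => le_inf inf_le_left ?_)
    refine bSymm (bTrans ?_ (le_top.trans (lift_nat n).ge))
    rw [eq_lift]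
    exact inf_le_right
  · exact (le_iSup (fun y => mem (opair (nat n) (lift y)) f) y).trans (hz (Sum.inl n))

end HN

end Pool.Agent.Helper23.WT
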