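import Pool.Agent.Helper23.WT.Sets

set_option autoImplicit false
set_option linter.unreachableTactic false
set_option linter.unusedTactic false

/-!
# Free algebras in a model of ZF with a closed set `C`
-/

universe u v w

namespace Pool.Agent.Helper23.WT

variable {M : Type u} [ZM M] {n m : ℕ}

/-- `f` is a function with domain `A` -/
def FnOn (f A : M) : Prop :=
  (∀ p, ZM.E p f → ∃ x y, ZM.E x A ∧ p = opair x y) ∧ ∀ x, ZM.E x A → ∃! y, ZM.E (opair x y) f

theorem Dfn.fnOn {s t : (Fin n → M) → M} (hs : DF s) (ht : DF t) :
    Dfn (fun v => FnOn (s v) (t v)) :=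
  Dfn.comp2 (R := fun f A => FnOn f A) (by unfold FnOn; (repeat' first
      | with_reducible apply DF.funs | with_reducible apply DF.lam | with_reducible apply DF.ap
      | with_reducible apply Dfn.isFn | with_reducible apply DF.prod
      | with_reducible apply DF.pow | with_reducible apply DF.opair
      | with_reducible apply DF.upair | with_reducible assumption
      | with_reducible exact DF.var _ | with_reducible exact DF.const _
      | with_reducible exact Dfn.const _ | with_reducible apply DF.the
      | with_reducible apply DF.mkS | with_reducible apply Dfn.mem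
      | with_reducible apply Dfn.eq | with_reducible apply Dfn.and
      | with_reducible apply Dfn.or | with_reducible apply Dfn.iff
      | with_reducible apply Dfn.imp | with_reducible apply Dfn.not
      | with_reducible apply Dfn.exu | with_reducible apply Dfn.ex
      | with_reducible apply Dfn.all)) hs ht

theorem isFn_iff_fnOn {f A B : M} : IsFn f A B ↔ FnOn f A ∧ ∀ x, ZM.E x A → ZM.E (ap f x) B := by
  constructor
  · intro h
    refine ⟨⟨fun p hp => ?_, h.2⟩, fun x hx => h.ap_mem hx⟩
    obtain ⟨x, y, hx, _, rfl⟩ := h.1 p hp
    exact ⟨x, y, hx, rfl⟩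
  · rintro ⟨h, h'⟩
    refine ⟨fun p hp => ?_, h.2⟩
    obtain ⟨x, y, hx, rfl⟩ := h.1 p hp
    have h1 : ZM.E (opair x (ap f x)) f := the_spec (h.2 x hx)
    have : y = ap f x := (h.2 x hx).unique hp h1
    exact ⟨x, y, hx, this ▸ h' x hx, rfl⟩

/-- `v' = v ∘ p` for some `p` in `G` -/
def Rel (o G v v' : M) : Prop := ∃ p, ZM.E p G ∧ ∀ n, ZM.E n o → ap v' n = ap v (ap p n)

theorem Dfn.rel {s t r q : (Fin n → M) → M} (hs : DF s) (ht : DF t) (hr : DF r) (hq : DF q) :
    Dfn (fun v => Rel (s v) (t v) (r v) (q v)) :=
  Dfn.comp4 (R := fun o G v v' => Rel o G v v') (by unfold Rel; (repeat' first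
      | with_reducible apply Dfn.fnOn | with_reducible apply DF.funs
      | with_reducible apply DF.lam | with_reducible apply DF.ap
      | with_reducible apply Dfn.isFn | with_reducible apply DF.prod
      | with_reducible apply DF.pow | with_reducible apply DF.opair
      | with_reducible apply DF.upair | with_reducible assumption
      | with_reducible exact DF.var _ | with_reducible exact DF.const _
      | with_reducible exact Dfn.const _ | with_reducible apply DF.the
      | with_reducible apply DF.mkS | with_reducible apply Dfn.mem
      | with_reducible apply Dfn.eq | with_reducible apply Dfn.and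
      | with_reducible apply Dfn.or | with_reducible apply Dfn.iff
      | with_reducible apply Dfn.imp | with_reducible apply Dfn.not
      | with_reducible apply Dfn.exu | with_reducible apply Dfn.ex
      | with_reducible apply Dfn.all)) hs ht hr hq

/-- `G` is a group of permutations of `o` -/
structure IsGrp (o G : M) : Prop where
  fn : ∀ p, ZM.E p G → IsFn p o o
  one : ∃ p, ZM.E p G ∧ ∀ n, ZM.E n o → ap p n = n
  mul : ∀ p q, ZM.E p G → ZM.E q G → ∃ r, ZM.E r G ∧ ∀ n, ZM.E n o → ap r n = ap p (ap q n)
  inv : ∀ p, ZM.E p G → ∃ q, ZM.E q G ∧ ∀ n, ZM.E n o → ap p (ap q n) = n ∧ ap q (ap p n) = n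

namespace IsGrp

variable {o G u v w : M}

theorem refl (hG : IsGrp o G) : Rel o G v v := by
  obtain ⟨p, hp, h⟩ := hG.one
  exact ⟨p, hp, fun n hn => by rw [h n hn]⟩

theorem symm (hG : IsGrp o G) (h : Rel o G v w) : Rel o G w v := by
  obtain ⟨p, hp, h⟩ := h
  obtain ⟨q, hq, h'⟩ := hG.inv p hp
  exact ⟨q, hq, fun n hn => by rw [h _ ((hG.fn q hq).ap_mem hn), (h' n hn).1]⟩

theorem trans (hG : IsGrp o G) (h : Rel o G u v) (h' : Rel o G v w) : Rel o G u w := by
  obtain ⟨p, hp, h⟩ := h
  obtain ⟨q, hq, h'⟩ := h'
  obtain ⟨r, hr, h''⟩ := hG.mul p q hp hq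
  exact ⟨r, hr, fun n hn => by rw [h' n hn, h _ ((hG.fn q hq).ap_mem hn), h'' n hn]⟩

end IsGrp

/-- the class of `v` -/
noncomputable def tau (o G v : M) : M := mkS (fun z => FnOn z o ∧ Rel o G v z)

theorem DF.tau {s t r : (Fin n → M) → M} (hs : DF s) (ht : DF t) (hr : DF r) :
    DF (fun v => tau (s v) (t v) (r v)) :=
  DF.comp3 (F := fun o G v => WT.tau o G v) (by unfold WT.tau; (repeat' first
      | with_reducible apply Dfn.rel | with_reducible apply Dfn.fnOn
      | with_reducible apply DF.funs | with_reducible apply DF.lam | with_reducible apply DF.ap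
      | with_reducible apply Dfn.isFn | with_reducible apply DF.prod
      | with_reducible apply DF.pow | with_reducible apply DF.opair
      | with_reducible apply DF.upair | with_reducible assumption
      | with_reducible exact DF.var _ | with_reducible exact DF.const _
      | with_reducible exact Dfn.const _ | with_reducible apply DF.the
      | with_reducible apply DF.mkS | with_reducible apply Dfn.mem
      | with_reducible apply Dfn.eq | with_reducible apply Dfn.and
      | with_reducible apply Dfn.or | with_reducible apply Dfn.iff
      | with_reducible apply Dfn.imp | with_reducible apply Dfn.not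
      | with_reducible apply Dfn.exu | with_reducible apply Dfn.ex
      | with_reducible apply Dfn.all)) hs ht hr

section

variable {o G C : M}

theorem mem_tau (hG : IsGrp o G) {v A z : M} (hv : IsFn v o A) :
    ZM.E z (tau o G v) ↔ FnOn z o ∧ Rel o G v z := by
  refine mem_mkS ?_ z
  obtain ⟨c, hc⟩ := exists_sep (P := fun z => Rel o G v z) (by (repeat' first
      | with_reducible apply DF.tau | with_reducible apply Dfn.rel
      | with_reducible apply Dfn.fnOn | with_reducible apply DF.funs
      | with_reducible apply DF.lam | with_reducible apply DF.ap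
      | with_reducible apply Dfn.isFn | with_reducible apply DF.prod
      | with_reducible apply DF.pow | with_reducible apply DF.opair
      | with_reducible apply DF.upair | with_reducible assumption
      | with_reducible exact DF.var _ | with_reducible exact DF.const _
      | with_reducible exact Dfn.const _ | with_reducible apply DF.the
      | with_reducible apply DF.mkS | with_reducible apply Dfn.mem
      | with_reducible apply Dfn.eq | with_reducible apply Dfn.and
      | with_reducible apply Dfn.or | with_reducible apply Dfn.iff
      | with_reducible apply Dfn.imp | with_reducible apply Dfn.not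
      | with_reducible apply Dfn.exu | with_reducible apply Dfn.ex
      | with_reducible apply Dfn.all)) (funs o A)
  refine ⟨c, fun z => ?_⟩
  rw [hc, mem_funs]
  constructor
  · rintro ⟨h1, h2⟩
    exact ⟨(isFn_iff_fnOn.1 h1).1, h2⟩
  · rintro ⟨h1, h2⟩
    refine ⟨isFn_iff_fnOn.2 ⟨h1, fun n hn => ?_⟩, h2⟩
    obtain ⟨p, hp, h⟩ := h2
    rw [h n hn]
    exact hv.ap_mem ((hG.fn p hp).ap_mem hn)

theorem tau_eq_iff (hG : IsGrp o G) {v A v' A' : M} (hv : IsFn v o A) (hv' : IsFn v' o A') :
    tau o G v = tau o G v' ↔ Rel o G v v' := by
  constructor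
  · intro h
    have h1 : ZM.E v' (tau o G v) := by
      rw [h]
      exact (mem_tau hG hv').2 ⟨(isFn_iff_fnOn.1 hv').1, hG.refl⟩
    exact ((mem_tau hG hv).1 h1).2
  · intro h
    refine ext fun z => ?_
    rw [mem_tau hG hv, mem_tau hG hv']
    exact ⟨fun h' => ⟨h'.1, hG.trans (hG.symm h) h'.2⟩, fun h' => ⟨h'.1, hG.trans h h'.2⟩⟩

theorem mem_of_tau (hG : IsGrp o G) {v A : M} (hv : IsFn v o A) : ZM.E v (tau o G v) :=
  (mem_tau hG hv).2 ⟨(isFn_iff_fnOn.1 hv).1, hG.refl⟩

/-- the properties of the closed set `C` -/
structure Clo (o C : M) : Prop where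
  trans : ∀ x y : M, ZM.E y x → ZM.E x C → ZM.E y C
  empty : ∃ e, (∀ y, ¬ ZM.E y e) ∧ ZM.E e C
  power : ∀ x, ZM.E x C → ZM.E (pow x) C
  coll : ∀ f, ∃ z, ZM.E z C ∧ (∀ n, ZM.E n o → ZM.E n z) ∧
    ∀ n y, ZM.E n o → ZM.E y C → ZM.E (opair n y) f → ∃ y', ZM.E y' z ∧ ZM.E (opair n y') f

theorem Clo.tau_mem (hC : Clo o C) (hG : IsGrp o G) {v : M} (hv : IsFn v o C) :
    ZM.E (tau o G v) C := by
  obtain ⟨z, hz, hoz, h⟩ := hC.coll v
  have hz' : ∀ n, ZM.E n o → ZM.E (ap v n) z := by
    intro n hn
    obtain ⟨y', hy', h2⟩ := h n (ap v n) hn (hv.ap_mem hn) ((hv.mem_iff hn).2 rfl)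
    rw [hv.mem_iff hn] at h2
    rwa [← h2]
  refine hC.trans (pow (pow (pow (pow z)))) _ ?_ (hC.power _ (hC.power _ (hC.power _
    (hC.power _ hz))))
  rw [mem_pow]
  intro w hw
  rw [mem_tau hG hv] at hw
  obtain ⟨hw1, p, hp, hw2⟩ := hw
  rw [mem_pow]
  intro q hq
  obtain ⟨n, y, hn, rfl⟩ := hw1.1 q hq
  have h1 : ZM.E (opair n (ap w n)) w := the_spec (hw1.2 n hn)
  have h2 : y = ap w n := (hw1.2 n hn).unique hq h1
  refine opair_mem_pow (hoz n hn) ?_
  rw [h2, hw2 n hn]
  exact hz' _ ((hG.fn p hp).ap_mem hn)

/-- `v ↦ α(v)` is constant on the classes -/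
def WUG (o G A α : M) : Prop :=
  ∀ v v', IsFn v o A → IsFn v' o A → Rel o G v v' → ap α v = ap α v'

/-- a good (concrete) free algebra -/
structure Good (o G T τ r : M) : Prop where
  pt : ZM.E r T
  fn : IsFn τ (funs o T) T
  wug : WUG o G T τ
  gen : ∀ X, (∀ x, ZM.E x X → ZM.E x T) → ZM.E r X → (∀ v, IsFn v o X → ZM.E (ap τ v) X) → ∀ x, ZM.E x T → ZM.E x X
  inj : ∀ v v', IsFn v o T → IsFn v' o T → ap τ v = ap τ v' → Rel o G v v'
  ne : ∀ v, IsFn v o T → ap τ v ≠ r

theorem exists_good (hC : Clo o C) (hG : IsGrp o G) : ∃ T τ r, Good o G T τ r := by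
  obtain ⟨e, he, heC⟩ := hC.empty
  obtain ⟨T, hT⟩ := exists_sep (P := fun x => ∀ X, (ZM.E e X ∧ ∀ v, IsFn v o X → ZM.E (tau o G v) X) →
    ZM.E x X) (by (repeat' first
        | with_reducible apply DF.tau | with_reducible apply Dfn.rel
        | with_reducible apply Dfn.fnOn | with_reducible apply DF.funs
        | with_reducible apply DF.lam | with_reducible apply DF.ap
        | with_reducible apply Dfn.isFn | with_reducible apply DF.prod
        | with_reducible apply DF.pow | with_reducible apply DF.opair
        | with_reducible apply DF.upair | with_reducible assumption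
        | with_reducible exact DF.var _ | with_reducible exact DF.const _
        | with_reducible exact Dfn.const _ | with_reducible apply DF.the
        | with_reducible apply DF.mkS | with_reducible apply Dfn.mem
        | with_reducible apply Dfn.eq | with_reducible apply Dfn.and
        | with_reducible apply Dfn.or | with_reducible apply Dfn.iff
        | with_reducible apply Dfn.imp | with_reducible apply Dfn.not
        | with_reducible apply Dfn.exu | with_reducible apply Dfn.ex
        | with_reducible apply Dfn.all)) C
  have heT : ZM.E e T := (hT e).2 ⟨heC, fun X hX => hX.1⟩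
  have htau : ∀ v, IsFn v o T → ZM.E (tau o G v) T := by
    intro v hv
    refine (hT _).2 ⟨hC.tau_mem hG (hv.mono fun n hn => ((hT _).1 (hv.ap_mem hn)).1),
      fun X hX => hX.2 v (hv.mono fun n hn => ((hT _).1 (hv.ap_mem hn)).2 X hX)⟩
  have hF : F1 (fun v : M => tau o G v) := by (repeat' first
      | with_reducible apply DF.tau | with_reducible apply Dfn.rel
      | with_reducible apply Dfn.fnOn | with_reducible apply DF.funs
      | with_reducible apply DF.lam | with_reducible apply DF.ap
      | with_reducible apply Dfn.isFn | with_reducible apply DF.prod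
      | with_reducible apply DF.pow | with_reducible apply DF.opair
      | with_reducible apply DF.upair | with_reducible assumption
      | with_reducible exact DF.var _ | with_reducible exact DF.const _
      | with_reducible exact Dfn.const _ | with_reducible apply DF.the
      | with_reducible apply DF.mkS | with_reducible apply Dfn.mem
      | with_reducible apply Dfn.eq | with_reducible apply Dfn.and
      | with_reducible apply Dfn.or | with_reducible apply Dfn.iff
      | with_reducible apply Dfn.imp | with_reducible apply Dfn.not
      | with_reducible apply Dfn.exu | with_reducible apply Dfn.ex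
      | with_reducible apply Dfn.all)
  have hm : ∀ v, ZM.E v (funs o T) → ZM.E (tau o G v) T := fun v hv => htau v (mem_funs.1 hv)
  have hap : ∀ v, IsFn v o T → ap (lam (funs o T) (fun v => tau o G v)) v = tau o G v :=
    fun v hv => ap_lam hF hm (mem_funs.2 hv)
  refine ⟨T, lam (funs o T) (fun v => tau o G v), e, ⟨heT, lam_isFn hF hm, ?_, ?_, ?_, ?_⟩⟩
  · intro v v' hv hv' h
    rw [hap v hv, hap v' hv', tau_eq_iff hG hv hv']
    exact h
  · intro X hX heX hcl x hx
    refine ((hT x).1 hx).2 X ⟨heX, fun v hv => ?_⟩
    rw [← hap v (hv.mono fun n hn => hX _ (hv.ap_mem hn))]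
    exact hcl v hv
  · intro v v' hv hv' h
    rw [hap v hv, hap v' hv', tau_eq_iff hG hv hv'] at h
    exact h
  · intro v hv h
    rw [hap v hv] at h
    exact he v (h ▸ mem_of_tau hG hv)

/-- the composition `h ∘ v` -/
noncomputable def cmp (o h v : M) : M := lam o (fun n => ap h (ap v n))

end

theorem DF.cmp {s t r : (Fin n → M) → M} (hs : DF s) (ht : DF t) (hr : DF r) :
    DF (fun v => cmp (s v) (t v) (r v)) :=
  DF.comp3 (F := fun o G v => WT.cmp o G v) (by unfold WT.cmp; (repeat' first
      | with_reducible apply DF.tau | with_reducible apply Dfn.rel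
      | with_reducible apply Dfn.fnOn | with_reducible apply DF.funs
      | with_reducible apply DF.lam | with_reducible apply DF.ap
      | with_reducible apply Dfn.isFn | with_reducible apply DF.prod
      | with_reducible apply DF.pow | with_reducible apply DF.opair
      | with_reducible apply DF.upair | with_reducible assumption
      | with_reducible exact DF.var _ | with_reducible exact DF.const _
      | with_reducible exact Dfn.const _ | with_reducible apply DF.the
      | with_reducible apply DF.mkS | with_reducible apply Dfn.mem
      | with_reducible apply Dfn.eq | with_reducible apply Dfn.and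
      | with_reducible apply Dfn.or | with_reducible apply Dfn.iff
      | with_reducible apply Dfn.imp | with_reducible apply Dfn.not
      | with_reducible apply Dfn.exu | with_reducible apply Dfn.ex
      | with_reducible apply Dfn.all)) hs ht hr

section

variable {o G C : M}

theorem cmp_isFn {h v A B : M} (hh : ∀ x, ZM.E x A → ZM.E (ap h x) B) (hv : IsFn v o A) :
    IsFn (cmp o h v) o B :=
  lam_isFn (by (repeat' first
      | with_reducible apply DF.cmp | with_reducible apply DF.tau
      | with_reducible apply Dfn.rel | with_reducible apply Dfn.fnOn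
      | with_reducible apply DF.funs | with_reducible apply DF.lam | with_reducible apply DF.ap
      | with_reducible apply Dfn.isFn | with_reducible apply DF.prod
      | with_reducible apply DF.pow | with_reducible apply DF.opair
      | with_reducible apply DF.upair | with_reducible assumption
      | with_reducible exact DF.var _ | with_reducible exact DF.const _
      | with_reducible exact Dfn.const _ | with_reducible apply DF.the
      | with_reducible apply DF.mkS | with_reducible apply Dfn.mem
      | with_reducible apply Dfn.eq | with_reducible apply Dfn.and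
      | with_reducible apply Dfn.or | with_reducible apply Dfn.iff
      | with_reducible apply Dfn.imp | with_reducible apply Dfn.not
      | with_reducible apply Dfn.exu | with_reducible apply Dfn.ex
      | with_reducible apply Dfn.all)) (fun _ hn => hh _ (hv.ap_mem hn))

theorem ap_cmp {h v A B : M} (hh : ∀ x, ZM.E x A → ZM.E (ap h x) B) (hv : IsFn v o A) {n : M}
    (hn : ZM.E n o) : ap (cmp o h v) n = ap h (ap v n) :=
  ap_lam (B := B) (by (repeat' first
      | with_reducible apply DF.cmp | with_reducible apply DF.tau
      | with_reducible apply Dfn.rel | with_reducible apply Dfn.fnOn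
      | with_reducible apply DF.funs | with_reducible apply DF.lam | with_reducible apply DF.ap
      | with_reducible apply Dfn.isFn | with_reducible apply DF.prod
      | with_reducible apply DF.pow | with_reducible apply DF.opair
      | with_reducible apply DF.upair | with_reducible assumption
      | with_reducible exact DF.var _ | with_reducible exact DF.const _
      | with_reducible exact Dfn.const _ | with_reducible apply DF.the
      | with_reducible apply DF.mkS | with_reducible apply Dfn.mem
      | with_reducible apply Dfn.eq | with_reducible apply Dfn.and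
      | with_reducible apply Dfn.or | with_reducible apply Dfn.iff
      | with_reducible apply Dfn.imp | with_reducible apply Dfn.not
      | with_reducible apply Dfn.exu | with_reducible apply Dfn.ex
      | with_reducible apply Dfn.all)) (fun _ hn => hh _ (hv.ap_mem hn)) hn

/-- homomorphisms in functional form -/
structure Hom (o A α a B β b h : M) : Prop where
  fn : IsFn h A B
  pt : ap h a = b
  map : ∀ v, IsFn v o A → ap h (ap α v) = ap β (cmp o h v)

theorem Good.initial (hG : IsGrp o G) {T τ r : M} (hT : Good o G T τ r) {B β b : M} (hb : ZM.E b B)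
    (hβ : IsFn β (funs o B) B) (hB : WUG o G B β) : ∃! h, Hom o T τ r B β b h := by
  obtain ⟨R, hR⟩ := exists_sep (P := fun q => ∀ X, (ZM.E (opair r b) X ∧ ∀ v w, IsFn v o T →
    IsFn w o B → (∀ n, ZM.E n o → ZM.E (opair (ap v n) (ap w n)) X) →
      ZM.E (opair (ap τ v) (ap β w)) X) → ZM.E q X) (by (repeat' first
          | with_reducible apply DF.cmp | with_reducible apply DF.tau
          | with_reducible apply Dfn.rel | with_reducible apply Dfn.fnOn
          | with_reducible apply DF.funs | with_reducible apply DF.lam
          | with_reducible apply DF.ap | with_reducible apply Dfn.isFn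
          | with_reducible apply DF.prod | with_reducible apply DF.pow
          | with_reducible apply DF.opair | with_reducible apply DF.upair
          | with_reducible assumption | with_reducible exact DF.var _
          | with_reducible exact DF.const _ | with_reducible exact Dfn.const _
          | with_reducible apply DF.the | with_reducible apply DF.mkS
          | with_reducible apply Dfn.mem | with_reducible apply Dfn.eq
          | with_reducible apply Dfn.and | with_reducible apply Dfn.or
          | with_reducible apply Dfn.iff | with_reducible apply Dfn.imp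
          | with_reducible apply Dfn.not | with_reducible apply Dfn.exu
          | with_reducible apply Dfn.ex | with_reducible apply Dfn.all)) (prod T B)
  have hR0 : ZM.E (opair r b) R := (hR _).2 ⟨opair_mem_prod.2 ⟨hT.pt, hb⟩, fun X hX => hX.1⟩
  have hRs : ∀ v w, IsFn v o T → IsFn w o B → (∀ n, ZM.E n o → ZM.E (opair (ap v n) (ap w n)) R) →
      ZM.E (opair (ap τ v) (ap β w)) R := by
    intro v w hv hw h
    refine (hR _).2 ⟨opair_mem_prod.2 ⟨hT.fn.ap_mem (mem_funs.2 hv), hβ.ap_mem (mem_funs.2 hw)⟩,
      fun X hX => hX.2 v w hv hw fun n hn => ((hR _).1 (h n hn)).2 X hX⟩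
  have hRp : ∀ x y, ZM.E (opair x y) R → ZM.E x T ∧ ZM.E y B := fun x y h =>
    opair_mem_prod.1 ((hR _).1 h).1
  -- inversion
  have hinv : ∀ q, ZM.E q R → q = opair r b ∨ ∃ v w, IsFn v o T ∧ IsFn w o B ∧
      (∀ n, ZM.E n o → ZM.E (opair (ap v n) (ap w n)) R) ∧ q = opair (ap τ v) (ap β w) := by
    obtain ⟨X, hX⟩ := exists_sep (P := fun q => q = opair r b ∨ ∃ v w, IsFn v o T ∧ IsFn w o B ∧
      (∀ n, ZM.E n o → ZM.E (opair (ap v n) (ap w n)) R) ∧ q = opair (ap τ v) (ap β w)) (by (repeat' first
          | with_reducible apply DF.cmp | with_reducible apply DF.tau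
          | with_reducible apply Dfn.rel | with_reducible apply Dfn.fnOn
          | with_reducible apply DF.funs | with_reducible apply DF.lam
          | with_reducible apply DF.ap | with_reducible apply Dfn.isFn
          | with_reducible apply DF.prod | with_reducible apply DF.pow
          | with_reducible apply DF.opair | with_reducible apply DF.upair
          | with_reducible assumption | with_reducible exact DF.var _
          | with_reducible exact DF.const _ | with_reducible exact Dfn.const _
          | with_reducible apply DF.the | with_reducible apply DF.mkS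
          | with_reducible apply Dfn.mem | with_reducible apply Dfn.eq
          | with_reducible apply Dfn.and | with_reducible apply Dfn.or
          | with_reducible apply Dfn.iff | with_reducible apply Dfn.imp
          | with_reducible apply Dfn.not | with_reducible apply Dfn.exu
          | with_reducible apply Dfn.ex | with_reducible apply Dfn.all)) R
    intro q hq
    refine ((hX q).1 (((hR q).1 hq).2 X ⟨(hX _).2 ⟨hR0, Or.inl rfl⟩, fun v w hv hw h => ?_⟩)).2
    have h' : ∀ n, ZM.E n o → ZM.E (opair (ap v n) (ap w n)) R := fun n hn => ((hX _).1 (h n hn)).1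
    exact (hX _).2 ⟨hRs v w hv hw h', Or.inr ⟨v, w, hv, hw, h', rfl⟩⟩
  -- `R` is a function
  have hfun : ∀ x, ZM.E x T → ∃! y, ZM.E (opair x y) R := by
    obtain ⟨X, hX⟩ := exists_sep (P := fun x => ∃! y, ZM.E (opair x y) R) (by (repeat' first
        | with_reducible apply DF.cmp | with_reducible apply DF.tau
        | with_reducible apply Dfn.rel | with_reducible apply Dfn.fnOn
        | with_reducible apply DF.funs | with_reducible apply DF.lam
        | with_reducible apply DF.ap | with_reducible apply Dfn.isFn
        | with_reducible apply DF.prod | with_reducible apply DF.pow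
        | with_reducible apply DF.opair | with_reducible apply DF.upair
        | with_reducible assumption | with_reducible exact DF.var _
        | with_reducible exact DF.const _ | with_reducible exact Dfn.const _
        | with_reducible apply DF.the | with_reducible apply DF.mkS
        | with_reducible apply Dfn.mem | with_reducible apply Dfn.eq
        | with_reducible apply Dfn.and | with_reducible apply Dfn.or
        | with_reducible apply Dfn.iff | with_reducible apply Dfn.imp
        | with_reducible apply Dfn.not | with_reducible apply Dfn.exu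
        | with_reducible apply Dfn.ex | with_reducible apply Dfn.all)) T
    suffices h : ∀ x, ZM.E x T → ZM.E x X from fun x hx => ((hX x).1 (h x hx)).2
    refine hT.gen X (fun x hx => ((hX x).1 hx).1) ?_ ?_
    · refine (hX r).2 ⟨hT.pt, b, hR0, fun y hy => ?_⟩
      rcases hinv _ hy with h | ⟨v, w, hv, _, _, h⟩
      · exact (opair_inj.1 h).2
      · exact (hT.ne v hv (opair_inj.1 h).1.symm).elim
    · intro v hv
      have hvT : IsFn v o T := hv.mono fun n hn => ((hX _).1 (hv.ap_mem hn)).1
      have hu : ∀ n, ZM.E n o → ∃! y, ZM.E (opair (ap v n) y) R := fun n hn =>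
        ((hX _).1 (hv.ap_mem hn)).2
      have hX' : ∀ x, ZM.E x X → ZM.E (ap R x) B := fun x hx =>
        (hRp _ _ (the_spec ((hX x).1 hx).2)).2
      have hw : IsFn (cmp o R v) o B := cmp_isFn hX' hv
      have hvw : ∀ n, ZM.E n o → ZM.E (opair (ap v n) (ap (cmp o R v) n)) R := fun n hn => by
        rw [ap_cmp hX' hv hn]
        exact the_spec (hu n hn)
      refine (hX _).2 ⟨hT.fn.ap_mem (mem_funs.2 hvT), _, hRs v _ hvT hw hvw, fun y hy => ?_⟩
      rcases hinv _ hy with h | ⟨v', w', hv', hw', h1, h⟩
      · exact (hT.ne v hvT (opair_inj.1 h).1).elim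
      · obtain ⟨h2, rfl⟩ := opair_inj.1 h
        obtain ⟨p, hp, h3⟩ := hT.inj v v' hvT hv' h2
        refine (hB _ _ hw hw' ⟨p, hp, fun n hn => ?_⟩).symm
        have hpn : ZM.E (ap p n) o := (hG.fn p hp).ap_mem hn
        refine (hu _ hpn).unique ?_ (hvw _ hpn)
        rw [← h3 n hn]
        exact h1 n hn
  have hRfn : IsFn R T B := by
    refine ⟨fun q hq => ?_, hfun⟩
    exact mem_prod.1 ((hR q).1 hq).1
  have hRB : ∀ x, ZM.E x T → ZM.E (ap R x) B := fun x hx => hRfn.ap_mem hx
  have hR1 : ap R r = b := ((hRfn.mem_iff hT.pt).1 hR0).symm
  have hR2 : ∀ v, IsFn v o T → ap R (ap τ v) = ap β (cmp o R v) := by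
    intro v hv
    have h1 := hRs v (cmp o R v) hv (cmp_isFn hRB hv) (fun n hn => by
      rw [ap_cmp hRB hv hn]
      exact (hRfn.mem_iff (hv.ap_mem hn)).2 rfl)
    exact ((hRfn.mem_iff (hT.fn.ap_mem (mem_funs.2 hv))).1 h1).symm
  refine ⟨R, ⟨hRfn, hR1, hR2⟩, fun h' hh' => ?_⟩
  refine hh'.fn.ext hRfn ?_
  obtain ⟨X, hX⟩ := exists_sep (P := fun x => ap h' x = ap R x) (by (repeat' first
      | with_reducible apply DF.cmp | with_reducible apply DF.tau
      | with_reducible apply Dfn.rel | with_reducible apply Dfn.fnOn
      | with_reducible apply DF.funs | with_reducible apply DF.lam | with_reducible apply DF.ap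
      | with_reducible apply Dfn.isFn | with_reducible apply DF.prod
      | with_reducible apply DF.pow | with_reducible apply DF.opair
      | with_reducible apply DF.upair | with_reducible assumption
      | with_reducible exact DF.var _ | with_reducible exact DF.const _
      | with_reducible exact Dfn.const _ | with_reducible apply DF.the
      | with_reducible apply DF.mkS | with_reducible apply Dfn.mem
      | with_reducible apply Dfn.eq | with_reducible apply Dfn.and
      | with_reducible apply Dfn.or | with_reducible apply Dfn.iff
      | with_reducible apply Dfn.imp | with_reducible apply Dfn.not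
      | with_reducible apply Dfn.exu | with_reducible apply Dfn.ex
      | with_reducible apply Dfn.all)) T
  suffices h : ∀ x, ZM.E x T → ZM.E x X from fun x hx => ((hX x).1 (h x hx)).2
  refine hT.gen X (fun x hx => ((hX x).1 hx).1) ?_ ?_
  · exact (hX r).2 ⟨hT.pt, by rw [hh'.pt, hR1]⟩
  · intro v hv
    have hvT : IsFn v o T := hv.mono fun n hn => ((hX _).1 (hv.ap_mem hn)).1
    refine (hX _).2 ⟨hT.fn.ap_mem (mem_funs.2 hvT), ?_⟩
    have hh'B : ∀ x, ZM.E x T → ZM.E (ap h' x) B := fun x hx => hh'.fn.ap_mem hx
    rw [hh'.map v hvT, hR2 v hvT]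
    congr 1
    refine (cmp_isFn hh'B hvT).ext (cmp_isFn hRB hvT) fun n hn => ?_
    rw [ap_cmp hh'B hvT hn, ap_cmp hRB hvT hn]
    exact ((hX _).1 (hv.ap_mem hn)).2

end

end Pool.Agent.Helper23.WT
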