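import Mathlib

set_option autoImplicit false

/-!
# The Cohen algebra with its group of flips
-/

namespace Pool.Agent.Helper23.WT

/-- regular open sets of conditions: `p ∈ U` iff `U` is dense below `p` -/
structure RegOpen (C : Type) [Preorder C] where
  carrier : Set C
  regular : ∀ p, p ∈ carrier ↔ ∀ q ≤ p, ∃ r ≤ q, r ∈ carrier

namespace RegOpen

variable {C : Type} [Preorder C]

theorem ext' {U W : RegOpen C} (h : U.carrier = W.carrier) : U = W := by
  cases U; cases W; cases h; rfl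

theorem lower (U : RegOpen C) {p q : C} (h : q ≤ p) (hp : p ∈ U.carrier) : q ∈ U.carrier :=
  (U.regular q).2 fun r hr => (U.regular p).1 hp r (hr.trans h)

/-- the regular open hull `{p | U is dense below p}` of a set closed under stronger conditions -/
def hull (U : Set C) (_hU : ∀ p q, q ≤ p → p ∈ U → q ∈ U) : RegOpen C where
  carrier := {p | ∀ q ≤ p, ∃ r ≤ q, r ∈ U}
  regular p := by
    constructor
    · intro hp q hq
      exact ⟨q, le_rfl, fun r hr => hp r (hr.trans hq)⟩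
    · intro hp q hq
      obtain ⟨r, hr, hr'⟩ := hp q hq
      obtain ⟨s, hs, hs'⟩ := hr' r le_rfl
      exact ⟨s, hs.trans hr, hs'⟩

instance : PartialOrder (RegOpen C) where
  le U W := U.carrier ⊆ W.carrier
  le_refl _ := subset_rfl
  le_trans _ _ _ h h' := h.trans h'
  le_antisymm _ _ h h' := ext' (Set.Subset.antisymm h h')

theorem le_def {U W : RegOpen C} : U ≤ W ↔ ∀ p ∈ U.carrier, p ∈ W.carrier := Iff.rfl

instance : Max (RegOpen C) :=
  ⟨fun U W => hull (U.carrier ∪ W.carrier) fun _ _ h h' =>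
    h'.elim (fun h' => Or.inl (U.lower h h')) (fun h' => Or.inr (W.lower h h'))⟩

instance : Min (RegOpen C) :=
  ⟨fun U W =>
    { carrier := U.carrier ∩ W.carrier
      regular := fun p =>
        ⟨fun h q hq => ⟨q, le_rfl, U.lower hq h.1, W.lower hq h.2⟩, fun h =>
          ⟨(U.regular p).2 fun q hq => (h q hq).imp fun _ hr => ⟨hr.1, hr.2.1⟩,
            (W.regular p).2 fun q hq => (h q hq).imp fun _ hr => ⟨hr.1, hr.2.2⟩⟩⟩ }⟩

instance : SupSet (RegOpen C) :=
  ⟨fun A => hull {p | ∃ U ∈ A, p ∈ U.carrier} fun _ _ h h' => by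
    obtain ⟨U, hU, hU'⟩ := h'
    exact ⟨U, hU, U.lower h hU'⟩⟩

instance : InfSet (RegOpen C) :=
  ⟨fun A =>
    { carrier := {p | ∀ U ∈ A, p ∈ U.carrier}
      regular := fun p =>
        ⟨fun h q hq => ⟨q, le_rfl, fun U hU => U.lower hq (h U hU)⟩, fun h U hU =>
          (U.regular p).2 fun q hq => (h q hq).imp fun _ hr => ⟨hr.1, hr.2 U hU⟩⟩ }⟩

instance : Top (RegOpen C) :=
  ⟨{ carrier := Set.univ
     regular := fun _ => ⟨fun _ q _ => ⟨q, le_rfl, trivial⟩, fun _ => trivial⟩ }⟩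

instance : Bot (RegOpen C) :=
  ⟨{ carrier := ∅
     regular := fun p => ⟨fun h => h.elim, fun h => by
       obtain ⟨r, _, hr⟩ := h p le_rfl
       exact hr.elim⟩ }⟩

instance : Compl (RegOpen C) :=
  ⟨fun U =>
    { carrier := {p | ∀ q ≤ p, q ∉ U.carrier}
      regular := fun p =>
        ⟨fun h q hq => ⟨q, le_rfl, fun r hr => h r (hr.trans hq)⟩, fun h q hq hqU => by
          obtain ⟨r, hr, hr'⟩ := h q hq
          exact hr' r le_rfl (U.lower hr hqU)⟩ }⟩

/-- the complete Boolean algebra of regular open sets of conditions -/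
instance : CompleteBooleanAlgebra (RegOpen C) where
  sup := (· ⊔ ·)
  inf := (· ⊓ ·)
  compl U := Uᶜ
  le_sup_left U W p hp := fun q hq => ⟨q, le_rfl, Or.inl (U.lower hq hp)⟩
  le_sup_right U W p hp := fun q hq => ⟨q, le_rfl, Or.inr (W.lower hq hp)⟩
  sup_le U W Z h h' p hp := (Z.regular p).2 fun q hq => by
    obtain ⟨r, hr, hr'⟩ := hp q hq
    exact ⟨r, hr, hr'.elim (fun x => h x) (fun x => h' x)⟩
  inf_le_left _ _ _ hp := hp.1
  inf_le_right _ _ _ hp := hp.2
  le_inf _ _ _ h h' _ hp := ⟨h hp, h' hp⟩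
  isLUB_sSup A := ⟨fun U hU p hp q hq => ⟨q, le_rfl, U, hU, U.lower hq hp⟩,
    fun W hW p hp => (W.regular p).2 fun q hq => by
      obtain ⟨r, hr, U, hU, hr'⟩ := hp q hq
      exact ⟨r, hr, hW hU hr'⟩⟩
  isGLB_sInf A := ⟨fun U hU p hp => hp U hU, fun W hW p hp U hU => hW hU hp⟩
  le_top _ _ _ := trivial
  bot_le _ _ hp := hp.elim
  le_sup_inf U W Z p hp := fun q hq => by
    obtain ⟨r, hr, hr'⟩ := hp.1 q hq
    rcases hr' with h | h
    · exact ⟨r, hr, Or.inl h⟩
    · obtain ⟨s, hs, hs'⟩ := hp.2 r (hr.trans hq)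
      rcases hs' with h' | h'
      · exact ⟨s, hs.trans hr, Or.inl h'⟩
      · exact ⟨s, hs.trans hr, Or.inr ⟨W.lower hs h, h'⟩⟩
  inf_compl_le_bot U p hp := (hp.2 p le_rfl hp.1).elim
  top_le_sup_compl U p _ := fun q _ => by
    by_cases h : ∃ r ≤ q, r ∈ U.carrier
    · obtain ⟨r, hr, hr'⟩ := h
      exact ⟨r, hr, Or.inl hr'⟩
    · exact ⟨q, le_rfl, Or.inr fun r hr hrU => h ⟨r, hr, hrU⟩⟩

theorem mem_inf {U W : RegOpen C} {p : C} :
    p ∈ (U ⊓ W).carrier ↔ p ∈ U.carrier ∧ p ∈ W.carrier := Iff.rfl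

theorem mem_top {p : C} : p ∈ (⊤ : RegOpen C).carrier := trivial

theorem not_mem_bot {p : C} : p ∉ (⊥ : RegOpen C).carrier := fun h => h

theorem mem_compl {U : RegOpen C} {p : C} :
    p ∈ (Uᶜ).carrier ↔ ∀ q ≤ p, q ∉ U.carrier := Iff.rfl

theorem mem_sSup {A : Set (RegOpen C)} {p : C} :
    p ∈ (sSup A).carrier ↔ ∀ q ≤ p, ∃ r ≤ q, ∃ U ∈ A, r ∈ U.carrier := Iff.rfl

theorem mem_iSup {ι : Sort*} {f : ι → RegOpen C} {p : C} :
    p ∈ (⨆ i, f i).carrier ↔ ∀ q ≤ p, ∃ r ≤ q, ∃ i, r ∈ (f i).carrier := by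
  rw [iSup, mem_sSup]
  simp

theorem mem_iInf {ι : Sort*} {f : ι → RegOpen C} {p : C} :
    p ∈ (⨅ i, f i).carrier ↔ ∀ i, p ∈ (f i).carrier := by
  rw [iInf]
  show (∀ U ∈ Set.range f, p ∈ U.carrier) ↔ _
  simp

/-- a filter of conditions meeting countably many dense sets -/
theorem exists_generic [Nonempty C] (F : ℕ → Set (RegOpen C)) :
    ∃ U : Set (RegOpen C), (⊤ ∈ U ∧ ⊥ ∉ U ∧ (∀ a ∈ U, ∀ b, a ≤ b → b ∈ U) ∧
      (∀ a ∈ U, ∀ b ∈ U, a ⊓ b ∈ U)) ∧ ∀ n, (∃ b ∈ F n, b ∈ U) ∨ (sSup (F n))ᶜ ∈ U := by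
  have step : ∀ (n : ℕ) (p : C), ∃ q ≤ p, (∃ b ∈ F n, q ∈ b.carrier) ∨
      q ∈ ((sSup (F n))ᶜ).carrier := by
    intro n p
    by_cases h : p ∈ ((sSup (F n))ᶜ).carrier
    · exact ⟨p, le_rfl, Or.inr h⟩
    · rw [mem_compl] at h
      push Not at h
      obtain ⟨q, hq, h⟩ := h
      rw [mem_sSup] at h
      obtain ⟨r, hr, b, hb, hrb⟩ := h q le_rfl
      exact ⟨r, hr.trans hq, Or.inl ⟨b, hb, hrb⟩⟩
  choose nx hnx hnx' using step
  let p : ℕ → C := fun n => Nat.rec (Classical.arbitrary C) (fun k q => nx k q) n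
  have hp : ∀ n, p (n + 1) = nx n (p n) := fun n => rfl
  have hanti : Antitone p := antitone_nat_of_succ_le fun n => by rw [hp]; exact hnx n (p n)
  refine ⟨{b | ∃ n, p n ∈ b.carrier}, ⟨⟨0, trivial⟩, ?_, ?_, ?_⟩, ?_⟩
  · rintro ⟨n, hn⟩
    exact hn
  · rintro a ⟨n, hn⟩ b hab
    exact ⟨n, hab hn⟩
  · rintro a ⟨n, hn⟩ b ⟨m, hm⟩
    exact ⟨max n m, a.lower (hanti (le_max_left _ _)) hn, b.lower (hanti (le_max_right _ _)) hm⟩
  · intro n
    rcases hnx' n (p n) with ⟨b, hb, h⟩ | h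
    · exact Or.inl ⟨b, hb, n + 1, h⟩
    · exact Or.inr ⟨n + 1, h⟩

/-- action of an order isomorphism of the conditions -/
def mapIso (e : C ≃o C) : RegOpen C ≃o RegOpen C where
  toFun U :=
    { carrier := {p | e p ∈ U.carrier}
      regular := fun p => by
        show e p ∈ U.carrier ↔ _
        rw [U.regular]
        constructor
        · intro h q hq
          obtain ⟨r, hr, hr'⟩ := h (e q) (e.monotone hq)
          exact ⟨e.symm r, by rw [e.symm_apply_le]; exact hr, by simpa using hr'⟩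
        · intro h q hq
          obtain ⟨r, hr, hr'⟩ := h (e.symm q) (by rw [e.symm_apply_le]; exact hq)
          exact ⟨e r, by rw [← e.le_symm_apply]; exact hr, hr'⟩ }
  invFun U :=
    { carrier := {p | e.symm p ∈ U.carrier}
      regular := fun p => by
        show e.symm p ∈ U.carrier ↔ _
        rw [U.regular]
        constructor
        · intro h q hq
          obtain ⟨r, hr, hr'⟩ := h (e.symm q) (e.symm.monotone hq)
          exact ⟨e r, by rw [← e.le_symm_apply]; exact hr, by simpa using hr'⟩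
        · intro h q hq
          obtain ⟨r, hr, hr'⟩ := h (e q) (by rw [← e.le_symm_apply]; exact hq)
          exact ⟨e.symm r, by rw [e.symm_apply_le]; exact hr, hr'⟩ }
  left_inv U := ext' (by ext p; simp)
  right_inv U := ext' (by ext p; simp)
  map_rel_iff' := by
    intro U W
    constructor
    · intro h p hp
      have := h (show e.symm p ∈ {q | e q ∈ U.carrier} by simpa using hp)
      simpa using this
    · intro h p hp
      exact h hp

theorem mem_mapIso {e : C ≃o C} {U : RegOpen C} {p : C} :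
    p ∈ (mapIso e U).carrier ↔ e p ∈ U.carrier := Iff.rfl

end RegOpen

/-- Cohen conditions -/
structure Cond where
  dom : Finset (ℕ × ℕ)
  val : ℕ × ℕ → Bool

instance : Preorder Cond where
  le p q := q.dom ⊆ p.dom ∧ ∀ x ∈ q.dom, p.val x = q.val x
  le_refl p := ⟨subset_rfl, fun _ _ => rfl⟩
  le_trans p q r h h' := ⟨h'.1.trans h.1, fun x hx => (h.2 x (h'.1 hx)).trans (h'.2 x hx)⟩

instance : Nonempty Cond := ⟨⟨∅, fun _ => false⟩⟩

theorem Cond.le_def {p q : Cond} : p ≤ q ↔ q.dom ⊆ p.dom ∧ ∀ x ∈ q.dom, p.val x = q.val x :=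
  Iff.rfl

/-- a countable dense set of conditions -/
def denseC (s : Finset (ℕ × ℕ) × Finset (ℕ × ℕ)) : Cond := ⟨s.1, fun x => decide (x ∈ s.2)⟩

theorem denseC_dense (p : Cond) : ∃ s, denseC s ≤ p := by
  refine ⟨(p.dom, p.dom.filter fun x => p.val x = true), subset_rfl, fun x hx => ?_⟩
  have hx' : x ∈ p.dom := hx
  show decide (x ∈ p.dom.filter fun x => p.val x = true) = p.val x
  cases h : p.val x <;> simp [h, hx']

/-- the group of flips -/
structure Flip where
  fn : ℕ × ℕ → Bool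
  fin : ∀ n, {m | fn (n, m) = true}.Finite

namespace Flip

theorem ext' {g h : Flip} (H : ∀ x, g.fn x = h.fn x) : g = h := by
  cases g; cases h
  congr
  exact funext H

instance : Mul Flip := ⟨fun g h => ⟨fun x => xor (g.fn x) (h.fn x), fun n => by
  refine ((g.fin n).union (h.fin n)).subset fun m hm => ?_
  have hm' : xor (g.fn (n, m)) (h.fn (n, m)) = true := hm
  by_contra hc
  rw [Set.mem_union, not_or] at hc
  have h1 : g.fn (n, m) = false := by simpa using hc.1
  have h2 : h.fn (n, m) = false := by simpa using hc.2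
  rw [h1, h2] at hm'
  exact absurd hm' (by decide)⟩⟩

instance : One Flip := ⟨⟨fun _ => false, fun n => by simp⟩⟩

instance : Inv Flip := ⟨fun g => g⟩

theorem mul_fn (g h : Flip) (x : ℕ × ℕ) : (g * h).fn x = xor (g.fn x) (h.fn x) := rfl
theorem one_fn (x : ℕ × ℕ) : (1 : Flip).fn x = false := rfl
theorem inv_def (g : Flip) : g⁻¹ = g := rfl

instance : CommGroup Flip where
  mul_assoc a b c := ext' fun x => by simp [mul_fn]
  one_mul a := ext' fun x => by simp [mul_fn, one_fn]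
  mul_one a := ext' fun x => by simp [mul_fn, one_fn]
  inv_mul_cancel a := ext' fun x => by simp [mul_fn, one_fn, inv_def]
  mul_comm a b := ext' fun x => by simp [mul_fn, Bool.xor_comm]

theorem mul_self (g : Flip) : g * g = 1 := inv_mul_cancel g

/-- the flips that do not move the rows in `E` -/
def Fix (E : Finset ℕ) : Set Flip := {g | ∀ n ∈ E, ∀ m, g.fn (n, m) = false}

theorem Fix_anti {E F : Finset ℕ} (h : E ⊆ F) : Fix F ⊆ Fix E := fun _ hg n hn m => hg n (h hn) m

/-- action on conditions -/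
def onCond (g : Flip) : Cond ≃o Cond where
  toFun p := ⟨p.dom, fun x => xor (p.val x) (g.fn x)⟩
  invFun p := ⟨p.dom, fun x => xor (p.val x) (g.fn x)⟩
  left_inv p := by
    cases p
    simp
  right_inv p := by
    cases p
    simp
  map_rel_iff' := by
    intro p q
    show (q.dom ⊆ p.dom ∧ ∀ x ∈ q.dom, xor (p.val x) (g.fn x) = xor (q.val x) (g.fn x)) ↔
      (q.dom ⊆ p.dom ∧ ∀ x ∈ q.dom, p.val x = q.val x)
    simp

end Flip

/-- the Cohen algebra -/
def BB : Type := RegOpen Cond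

noncomputable instance : CompleteBooleanAlgebra BB :=
  inferInstanceAs (CompleteBooleanAlgebra (RegOpen Cond))

/-- action of the flips on the algebra -/
noncomputable def ρ (g : Flip) : BB ≃o BB := RegOpen.mapIso g.onCond

theorem ρ_mul (g h : Flip) (b : BB) : ρ g (ρ h b) = ρ (g * h) b := by
  refine RegOpen.ext' ?_
  ext p
  show h.onCond (g.onCond p) ∈ b.carrier ↔ (g * h).onCond p ∈ b.carrier
  have : h.onCond (g.onCond p) = (g * h).onCond p := by
    show (⟨_, _⟩ : Cond) = ⟨_, _⟩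
    congr 1
    ext x
    show xor (xor (p.val x) (g.fn x)) (h.fn x) = xor (p.val x) (xor (g.fn x) (h.fn x))
    rw [Bool.xor_assoc]
  rw [this]

theorem ρ_one (b : BB) : ρ 1 b = b := by
  refine RegOpen.ext' ?_
  ext p
  show (1 : Flip).onCond p ∈ b.carrier ↔ p ∈ b.carrier
  have : (1 : Flip).onCond p = p := by
    show (⟨_, _⟩ : Cond) = ⟨_, _⟩
    congr 1
    ext x
    show xor (p.val x) false = p.val x
    simp
  rw [this]

/-- the truth value of `x ∈ c` -/
noncomputable def bit (x : ℕ × ℕ) : BB where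
  carrier := {p | x ∈ p.dom ∧ p.val x = true}
  regular p := by
    constructor
    · rintro ⟨h, h'⟩ q hq
      exact ⟨q, le_rfl, hq.1 h, by rw [hq.2 x h, h']⟩
    · intro h
      have hx : x ∈ p.dom := by
        by_contra hx
        obtain ⟨r, hr, hr1, hr2⟩ := h ⟨insert x p.dom, Function.update p.val x false⟩
          ⟨Finset.subset_insert _ _, fun y hy => by
            have : y ≠ x := fun e => hx (e ▸ hy)
            simp [this]⟩
        have := hr.2 x (Finset.mem_insert_self _ _)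
        rw [hr2] at this
        simp at this
      refine ⟨hx, ?_⟩
      obtain ⟨r, hr, _, hr2⟩ := h p le_rfl
      rw [← hr.2 x hx, hr2]

theorem ρ_bit_same {g : Flip} {x : ℕ × ℕ} (h : g.fn x = false) : ρ g (bit x) = bit x := by
  refine RegOpen.ext' ?_
  ext p
  show (x ∈ p.dom ∧ xor (p.val x) (g.fn x) = true) ↔ (x ∈ p.dom ∧ p.val x = true)
  rw [h]
  simp

theorem ρ_bit_flip {g : Flip} {x : ℕ × ℕ} (h : g.fn x = true) : ρ g (bit x) = (bit x)ᶜ := by
  refine RegOpen.ext' ?_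
  ext p
  show (x ∈ p.dom ∧ xor (p.val x) (g.fn x) = true) ↔
    ∀ q ≤ p, ¬ (x ∈ q.dom ∧ q.val x = true)
  rw [h]
  constructor
  · rintro ⟨h1, h2⟩ q hq ⟨_, h3⟩
    rw [hq.2 x h1] at h3
    rw [h3] at h2
    exact absurd h2 (by decide)
  · intro H
    have hx : x ∈ p.dom := by
      by_contra hx
      refine H ⟨insert x p.dom, Function.update p.val x true⟩
          ⟨Finset.subset_insert _ _, fun y hy => by
            have : y ≠ x := fun e => hx (e ▸ hy)
            simp [this]⟩ ⟨Finset.mem_insert_self _ _, by simp⟩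
    refine ⟨hx, ?_⟩
    have := H p le_rfl
    cases h' : p.val x
    · simp
    · exact absurd ⟨hx, h'⟩ this

/-- the flip of one bit -/
def Flip.single (y : ℕ × ℕ) : Flip where
  fn x := decide (x = y)
  fin n := (Set.finite_singleton y.2).subset fun m hm => by
    have : (n, m) = y := by simpa using hm
    rw [← this]
    rfl

/-- a value below `ψ ⇔ bit (n, m)` for infinitely many `m`, with `ψ` invariant under the flips of
row `n`, is `⊥` -/
theorem flip_lemma {b : BB} {n : ℕ} {S : Set ℕ} (hS : S.Infinite)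
    (h : ∀ m ∈ S, b ⊓ ρ (Flip.single (n, m)) b = ⊥) : b = ⊥ := by
  rw [eq_bot_iff]
  intro p hp
  obtain ⟨m, hm, hm'⟩ : ∃ m ∈ S, (n, m) ∉ p.dom := by
    by_contra hc
    push Not at hc
    refine hS ((p.dom.image Prod.snd).finite_toSet.subset fun m hm => ?_)
    exact Finset.mem_coe.2 (Finset.mem_image.2 ⟨(n, m), hc m hm, rfl⟩)
  have h1 : p ∈ (b ⊓ ρ (Flip.single (n, m)) b).carrier := by
    refine ⟨hp, ?_⟩
    show (Flip.single (n, m)).onCond p ∈ b.carrier
    refine b.lower ?_ hp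
    refine ⟨subset_rfl, fun x hx => ?_⟩
    show xor (p.val x) (decide (x = (n, m))) = p.val x
    have : x ≠ (n, m) := fun e => hm' (e ▸ hx)
    simp [this]
  rw [h m hm] at h1
  exact h1

/-- the supremum of a family is attained on a countable subfamily -/
theorem exists_countable_sup {ι : Type*} [Nonempty ι] (f : ι → BB) :
    ∃ s : ℕ → ι, ⨆ i, f i = ⨆ n, f (s n) := by
  classical
  obtain ⟨en, hen⟩ := exists_surjective_nat (Finset (ℕ × ℕ) × Finset (ℕ × ℕ))
  let w : ℕ → ι := fun n => if h : ∃ i, denseC (en n) ∈ (f i).carrier then h.choose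
    else Classical.arbitrary ι
  refine ⟨w, le_antisymm ?_ (iSup_le fun n => le_iSup f (w n))⟩
  intro p hp
  replace hp := (RegOpen.mem_iSup (C := Cond) (f := f)).1 hp
  refine (RegOpen.mem_iSup (C := Cond) (f := fun n => f (w n))).2 ?_
  intro q hq
  obtain ⟨r, hr, i, hi⟩ := hp q hq
  obtain ⟨s, hs⟩ := denseC_dense r
  obtain ⟨n, rfl⟩ := hen s
  have h : ∃ i, denseC (en n) ∈ (f i).carrier := ⟨i, (f i).lower hs hi⟩
  refine ⟨_, hs.trans hr, n, ?_⟩
  show denseC (en n) ∈ (f (w n)).carrier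
  have : w n = h.choose := dif_pos h
  rw [this]
  exact h.choose_spec

theorem exists_genericB (F : ℕ → Set BB) :
    ∃ U : Set BB, (⊤ ∈ U ∧ ⊥ ∉ U ∧ (∀ a ∈ U, ∀ b, a ≤ b → b ∈ U) ∧
      (∀ a ∈ U, ∀ b ∈ U, a ⊓ b ∈ U)) ∧ ∀ n, (∃ b ∈ F n, b ∈ U) ∨ (sSup (F n))ᶜ ∈ U :=
  RegOpen.exists_generic (C := Cond) F

end Pool.Agent.Helper23.WT
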