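import Mathlib

set_option autoImplicit false

/-!
# Models of ZF, and the initial algebras `W` and `T` in such a model

`Fm κ n` are the first-order formulas of the language of set theory with free variables indexed by
`Fin n` and with parameters named by the elements of `κ`; `ZF E` says that `(M, E)` is a model of
Zermelo-Fraenkel set theory.  All other definitions are statements about elements of `M` that only
quantify over `M`.
-/

universe u v

namespace Pool.Agent.Helper23.WT

/-- Formulas of the language of set theory with `n` free variables and parameters from `κ`. -/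
inductive Fm (κ : Type u) : ℕ → Type u
  | mem {n : ℕ} (s t : Fin n ⊕ κ) : Fm κ n
  | eq {n : ℕ} (s t : Fin n ⊕ κ) : Fm κ n
  | fls {n : ℕ} : Fm κ n
  | imp {n : ℕ} (f g : Fm κ n) : Fm κ n
  | all {n : ℕ} (f : Fm κ (n + 1)) : Fm κ n

/-- `f` holds in `(M, E)`, where `e` interprets the parameters and `v` the free variables; the
quantifier `all` binds the variable with index `0`. -/
def Fm.Sat {M : Type v} (E : M → M → Prop) {κ : Type u} (e : κ → M) :
    {n : ℕ} → Fm κ n → (Fin n → M) → Prop
  | _, .mem s t, v => E (Sum.elim v e s) (Sum.elim v e t)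
  | _, .eq s t, v => Sum.elim v e s = Sum.elim v e t
  | _, .fls, _ => False
  | _, .imp f g, v => f.Sat E e v → g.Sat E e v
  | _, .all f, v => ∀ x, f.Sat E e (Matrix.vecCons x v)

section

variable {M : Type v} (E : M → M → Prop)

/-- `(M, E)` is a model of Zermelo-Fraenkel set theory. -/
structure ZF : Prop where
  ext : ∀ x y, (∀ z, E z x ↔ E z y) → x = y
  foundation : ∀ x, (∃ y, E y x) → ∃ y, E y x ∧ ∀ z, E z y → ¬ E z x
  pairing : ∀ x y, ∃ z, ∀ w, E w z ↔ w = x ∨ w = y
  union : ∀ x, ∃ z, ∀ w, E w z ↔ ∃ y, E y x ∧ E w y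
  power : ∀ x, ∃ z, ∀ w, E w z ↔ ∀ u, E u w → E u x
  infinity : ∃ x, (∃ e, (∀ y, ¬ E y e) ∧ E e x) ∧
    ∀ y, E y x → ∃ s, E s x ∧ ∀ w, E w s ↔ E w y ∨ w = y
  separation : ∀ (f : Fm M 1) (a : M), ∃ z, ∀ w, E w z ↔ E w a ∧ f.Sat E id ![w]
  replacement : ∀ (f : Fm M 2) (a : M), (∀ x, E x a → ∃! y, f.Sat E id ![x, y]) →
    ∃ z, ∀ y, E y z ↔ ∃ x, E x a ∧ f.Sat E id ![x, y]

/-- `z = {x, y}` -/
def IsUPair (z x y : M) : Prop := ∀ w, E w z ↔ w = x ∨ w = y

/-- `p = (x, y) = {{x}, {x, y}}` -/
def IsOPair (p x y : M) : Prop := ∀ z, E z p ↔ IsUPair E z x x ∨ IsUPair E z x y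

/-- `(x, y) ∈ f`, that is `f(x) = y` if `f` is a function -/
def App (f x y : M) : Prop := ∃ p, IsOPair E p x y ∧ E p f

/-- `f` is a function from `A` to `B` -/
def IsFun (f A B : M) : Prop :=
  (∀ p, E p f → ∃ x y, E x A ∧ E y B ∧ IsOPair E p x y) ∧ ∀ x, E x A → ∃! y, App E f x y

/-- `∅ ∈ w`, and `y ∪ {y} ∈ w` for all `y ∈ w` -/
def IsInductive (w : M) : Prop :=
  (∃ e, (∀ y, ¬ E y e) ∧ E e w) ∧ ∀ y, E y w → ∃ s, E s w ∧ ∀ z, E z s ↔ E z y ∨ z = y

/-- `o = ω`, the least inductive set -/
def IsOmega (o : M) : Prop := IsInductive E o ∧ ∀ w, IsInductive E w → ∀ x, E x o → E x w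

/-- `p` is a finitely supported permutation of `o = ω`: a bijection from `o` to `o` such that for
some `k ∈ o`, `p(n) = n` for all `n ∈ o` with `n ∉ k` (that is, `n ≥ k`) -/
def IsFinPerm (o p : M) : Prop :=
  IsFun E p o o ∧ (∀ m, E m o → ∃! n, App E p n m) ∧
    ∃ k, E k o ∧ ∀ n, E n o → ¬ E n k → App E p n n

/-- `(A, α, a)` is an `ω`-algebra with a point: `α` is a function from `A^ω` (the set of all
functions from `o = ω` to `A`) to `A`, and `a ∈ A` -/
def IsPtAlg (o A α a : M) : Prop :=
  E a A ∧ (∀ q, E q α → ∃ v y, IsFun E v o A ∧ E y A ∧ IsOPair E q v y) ∧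
    ∀ v, IsFun E v o A → ∃! y, App E α v y

/-- `α(v) = α(v ∘ p)` for all `v ∈ A^ω` and all finitely supported permutations `p` of `ω` -/
def IsWU (o A α : M) : Prop :=
  ∀ v p v', IsFun E v o A → IsFinPerm E o p → IsFun E v' o A →
    (∀ n m x, App E p n m → App E v m x → App E v' n x) → ∀ y, App E α v y → App E α v' y

/-- `h` is a homomorphism from `(A, α, a)` to `(B, β, b)`: a function from `A` to `B` with
`h(a) = b` and `h(α(v)) = β(h ∘ v)` for all `v ∈ A^ω` -/
def IsHom (o A α a B β b h : M) : Prop :=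
  IsFun E h A B ∧ App E h a b ∧ ∀ v w, IsFun E v o A → IsFun E w o B →
    (∀ n x y, App E v n x → App E h x y → App E w n y) →
    ∀ x y, App E α v x → App E h x y → App E β w y

/-- `(W, ν, l)` is an initial object of the category of `ω`-algebras with a point: the set of
countably branching trees, with `ν = node` and `l = leaf` -/
def IsInitialAlg (o W ν l : M) : Prop :=
  IsPtAlg E o W ν l ∧ ∀ B β b, IsPtAlg E o B β b → ∃! h, IsHom E o W ν l B β b h

/-- `(T, τ, r)` is an initial object of the category of the `ω`-algebras with a point that satisfy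
`α(v) = α(v ∘ p)` for all finitely supported permutations `p`: the set of countably branching
weakly unordered trees -/
def IsInitialWU (o T τ r : M) : Prop :=
  IsPtAlg E o T τ r ∧ IsWU E o T τ ∧
    ∀ B β b, IsPtAlg E o B β b → IsWU E o B β → ∃! h, IsHom E o T τ r B β b h

end

end Pool.Agent.Helper23.WT
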