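import Pool.Agent.Helper23.WT.Fmla

set_option autoImplicit false
set_option linter.unreachableTactic false
set_option linter.unusedTactic false

/-!
# Definable predicates and functions in a model of ZF, and basic set theory
-/

universe u v w

namespace Pool.Agent.Helper23.WT

/-- a model of ZF -/
class ZM (M : Type u) where
  E : M → M → Prop
  zf : ZF E

variable {M : Type u} [ZM M] {n m : ℕ}

/-- definable with parameters -/
def Dfn (P : (Fin n → M) → Prop) : Prop := ∃ f : Fm M n, ∀ v, f.Sat ZM.E id v ↔ P v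

/-- definable function -/
def DF (t : (Fin n → M) → M) : Prop :=
  Dfn (fun w : Fin (n + 1) → M => w 0 = t (fun i => w i.succ))

namespace Dfn

theorem congr {P Q : (Fin n → M) → Prop} (h : ∀ v, P v ↔ Q v) (hP : Dfn P) : Dfn Q := by
  obtain ⟨f, hf⟩ := hP
  exact ⟨f, fun v => (hf v).trans (h v)⟩

theorem true : Dfn (fun _ : Fin n → M => True) := ⟨Fm.fls.imp .fls, fun v => by simp⟩

theorem const (p : Prop) : Dfn (fun _ : Fin n → M => p) := by
  by_cases h : p
  · exact congr (fun v => by simp [h]) true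
  · exact ⟨Fm.fls, fun v => by simp [h]⟩

theorem not {P : (Fin n → M) → Prop} (hP : Dfn P) : Dfn (fun v => ¬ P v) := by
  obtain ⟨f, hf⟩ := hP
  exact ⟨f.neg, fun v => by simp [hf]⟩

theorem and {P Q : (Fin n → M) → Prop} (hP : Dfn P) (hQ : Dfn Q) : Dfn (fun v => P v ∧ Q v) := by
  obtain ⟨f, hf⟩ := hP
  obtain ⟨g, hg⟩ := hQ
  exact ⟨f.and g, fun v => by simp [hf, hg]⟩

theorem or {P Q : (Fin n → M) → Prop} (hP : Dfn P) (hQ : Dfn Q) : Dfn (fun v => P v ∨ Q v) := by
  obtain ⟨f, hf⟩ := hP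
  obtain ⟨g, hg⟩ := hQ
  exact ⟨f.or g, fun v => by simp [hf, hg]⟩

theorem imp {P Q : (Fin n → M) → Prop} (hP : Dfn P) (hQ : Dfn Q) : Dfn (fun v => P v → Q v) := by
  obtain ⟨f, hf⟩ := hP
  obtain ⟨g, hg⟩ := hQ
  exact ⟨f.imp g, fun v => by simp [hf, hg]⟩

theorem iff {P Q : (Fin n → M) → Prop} (hP : Dfn P) (hQ : Dfn Q) : Dfn (fun v => P v ↔ Q v) := by
  obtain ⟨f, hf⟩ := hP
  obtain ⟨g, hg⟩ := hQ
  exact ⟨f.iff g, fun v => by simp [hf, hg]⟩

theorem ex {P : (Fin n → M) → M → Prop}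
    (h : Dfn (fun w : Fin (n + 1) → M => P (fun i => w i.succ) (w 0))) :
    Dfn (fun v => ∃ x, P v x) := by
  obtain ⟨f, hf⟩ := h
  exact ⟨f.ex, fun v => by simp [hf]⟩

theorem all {P : (Fin n → M) → M → Prop}
    (h : Dfn (fun w : Fin (n + 1) → M => P (fun i => w i.succ) (w 0))) :
    Dfn (fun v => ∀ x, P v x) := by
  obtain ⟨f, hf⟩ := h
  exact ⟨f.all, fun v => by simp [hf]⟩

theorem ren {P : (Fin n → M) → Prop} (h : Dfn P) (r : Fin n → Fin m) :
    Dfn (fun v : Fin m → M => P (fun i => v (r i))) := by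
  obtain ⟨f, hf⟩ := h
  exact ⟨f.ren r, fun v => by simp [hf]⟩

end Dfn

namespace DF

theorem var (i : Fin n) : DF (fun v : Fin n → M => v i) := ⟨Fm.eq (.inl 0) (.inl i.succ), fun _ => Iff.rfl⟩

theorem const (a : M) : DF (fun _ : Fin n → M => a) := ⟨Fm.eq (.inl 0) (.inr a), fun _ => Iff.rfl⟩

theorem ren {t : (Fin n → M) → M} (h : DF t) (r : Fin n → Fin m) :
    DF (fun v : Fin m → M => t (fun i => v (r i))) := Dfn.ren h (Fm.liftRen r)

theorem wk {t : (Fin n → M) → M} (h : DF t) :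
    DF (fun v : Fin (n + 1) → M => t (fun i => v i.succ)) := h.ren _

end DF

namespace Dfn

theorem subst {P : (Fin n → M) → M → Prop} {t : (Fin n → M) → M}
    (h : Dfn (fun w : Fin (n + 1) → M => P (fun i => w i.succ) (w 0))) (ht : DF t) :
    Dfn (fun v => P v (t v)) := by
  refine congr (fun v => ?_) (ex (P := fun v x => x = t v ∧ P v x) (and ht h))
  simp

theorem comp1 {R : M → Prop} (hR : Dfn (fun w : Fin 1 → M => R (w 0))) {s : (Fin n → M) → M}
    (hs : DF s) : Dfn (fun v => R (s v)) :=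
  subst (P := fun _ x => R x) (hR.ren ![0]) hs

theorem comp2 {R : M → M → Prop} (hR : Dfn (fun w : Fin 2 → M => R (w 0) (w 1)))
    {s t : (Fin n → M) → M} (hs : DF s) (ht : DF t) : Dfn (fun v => R (s v) (t v)) :=
  subst (P := fun v x => R x (t v))
    (subst (P := fun w y => R (w 0) y) (hR.ren ![1, 0]) ht.wk) hs

theorem comp3 {R : M → M → M → Prop} (hR : Dfn (fun w : Fin 3 → M => R (w 0) (w 1) (w 2)))
    {s t r : (Fin n → M) → M} (hs : DF s) (ht : DF t) (hr : DF r) :
    Dfn (fun v => R (s v) (t v) (r v)) :=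
  subst (P := fun v x => R x (t v) (r v))
    (subst (P := fun w y => R (w 0) y (r (fun i => w i.succ)))
      (subst (P := fun w z => R (w 1) (w 0) z) (hR.ren ![2, 1, 0]) hr.wk.wk) ht.wk) hs

theorem comp4 {R : M → M → M → M → Prop}
    (hR : Dfn (fun w : Fin 4 → M => R (w 0) (w 1) (w 2) (w 3)))
    {s t r q : (Fin n → M) → M} (hs : DF s) (ht : DF t) (hr : DF r) (hq : DF q) :
    Dfn (fun v => R (s v) (t v) (r v) (q v)) :=
  subst (P := fun v x => R x (t v) (r v) (q v))
    (subst (P := fun w y => R (w 0) y (r (fun i => w i.succ)) (q (fun i => w i.succ)))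
      (subst (P := fun w z => R (w 1) (w 0) z (q (fun i => w i.succ.succ)))
        (subst (P := fun w z => R (w 2) (w 1) (w 0) z) (hR.ren ![3, 2, 1, 0]) hq.wk.wk.wk)
        hr.wk.wk) ht.wk) hs

theorem eq {s t : (Fin n → M) → M} (hs : DF s) (ht : DF t) : Dfn (fun v => s v = t v) :=
  comp2 (R := fun x y => x = y) ⟨Fm.eq (.inl 0) (.inl 1), fun _ => Iff.rfl⟩ hs ht

theorem mem {s t : (Fin n → M) → M} (hs : DF s) (ht : DF t) : Dfn (fun v => ZM.E (s v) (t v)) :=
  comp2 (R := fun x y => ZM.E x y) ⟨Fm.mem (.inl 0) (.inl 1), fun _ => Iff.rfl⟩ hs ht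

theorem exu {P : (Fin n → M) → M → Prop}
    (h : Dfn (fun w : Fin (n + 1) → M => P (fun i => w i.succ) (w 0))) :
    Dfn (fun v => ∃! x, P v x) := by
  refine ex (P := fun v x => P v x ∧ ∀ y, P v y → y = x) (and h (all (imp ?_ (eq ?_ ?_))))
  · exact h.ren (fun i : Fin (n + 1) => Fin.cases 0 (fun j => j.succ.succ) i)
  · exact DF.var _
  · exact DF.var _

end Dfn

theorem inh (M : Type u) [ZM M] : Nonempty M := by
  obtain ⟨x, _⟩ := (ZM.zf : ZF (ZM.E : M → M → Prop)).infinity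
  exact ⟨x⟩

open Classical in
/-- the unique object with the property `P` -/
noncomputable def the (P : M → Prop) : M :=
  if h : ∃! y, P y then h.choose else Classical.choice (inh M)

theorem the_spec {P : M → Prop} (h : ∃! y, P y) : P (the P) := by
  unfold the
  rw [dif_pos h]
  exact h.choose_spec.1

theorem the_neg {P : M → Prop} (h : ¬ ∃! y, P y) : the P = Classical.choice (inh M) := by
  unfold the
  rw [dif_neg h]

theorem the_eq {P : M → Prop} {y : M} (h : P y) (h' : ∀ z, P z → z = y) : the P = y :=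
  h' _ (the_spec ⟨y, h, h'⟩)

theorem DF.the {P : (Fin n → M) → M → Prop}
    (h : Dfn (fun w : Fin (n + 1) → M => P (fun i => w i.succ) (w 0))) :
    DF (fun v => the (P v)) := by
  unfold DF
  refine Dfn.congr (P := fun w : Fin (n + 1) → M =>
    ((∃! y, P (fun i => w i.succ) y) ∧ P (fun i => w i.succ) (w 0)) ∨
    (¬ (∃! y, P (fun i => w i.succ) y) ∧ w 0 = Classical.choice (inh M))) (fun w => ?_) ?_
  · constructor
    · rintro (⟨h1, h2⟩ | ⟨h1, h2⟩)
      · exact h1.unique h2 (the_spec h1)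
      · exact h2.trans (the_neg h1).symm
    · intro h1
      by_cases h2 : ∃! y, P (fun i => w i.succ) y
      · left
        refine ⟨h2, ?_⟩
        rw [h1]
        exact the_spec h2
      · right
        exact ⟨h2, h1.trans (the_neg h2)⟩
  · have h2 : Dfn (fun v => ∃! y, P v y) := Dfn.exu h
    have h3 : Dfn (fun w : Fin (n + 1) → M => ∃! y, P (fun i => w i.succ) y) := h2.ren Fin.succ
    exact (h3.and h).or (h3.not.and (Dfn.eq (DF.var 0) (DF.const _)))

theorem DF.comp1 {F : M → M} (hF : DF (fun w : Fin 1 → M => F (w 0))) {s : (Fin n → M) → M}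
    (hs : DF s) : DF (fun v => F (s v)) :=
  Dfn.comp2 (R := fun x y => x = F y) hF (DF.var 0) hs.wk

theorem DF.comp2 {F : M → M → M} (hF : DF (fun w : Fin 2 → M => F (w 0) (w 1)))
    {s t : (Fin n → M) → M} (hs : DF s) (ht : DF t) : DF (fun v => F (s v) (t v)) :=
  Dfn.comp3 (R := fun x y z => x = F y z) hF (DF.var 0) hs.wk ht.wk

theorem DF.comp3 {F : M → M → M → M} (hF : DF (fun w : Fin 3 → M => F (w 0) (w 1) (w 2)))
    {s t r : (Fin n → M) → M} (hs : DF s) (ht : DF t) (hr : DF r) :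
    DF (fun v => F (s v) (t v) (r v)) :=
  Dfn.comp4 (R := fun x y z w => x = F y z w) hF (DF.var 0) hs.wk ht.wk hr.wk

/-- the set of all objects with the property `P` -/
noncomputable def mkS (P : M → Prop) : M := the (fun b => ∀ x, ZM.E x b ↔ P x)

theorem DF.mkS {P : (Fin n → M) → M → Prop}
    (h : Dfn (fun w : Fin (n + 1) → M => P (fun i => w i.succ) (w 0))) :
    DF (fun v => mkS (P v)) := by
  refine DF.the (P := fun v b => ∀ x, ZM.E x b ↔ P v x) (Dfn.all (Dfn.iff (Dfn.mem (DF.var 0) (DF.var 1)) ?_))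
  exact h.ren (fun i : Fin (n + 1) => Fin.cases 0 (fun j => j.succ.succ) i)

theorem ext {x y : M} (h : ∀ z, ZM.E z x ↔ ZM.E z y) : x = y := ZM.zf.ext x y h

theorem mem_mkS {P : M → Prop} (h : ∃ b : M, ∀ x, ZM.E x b ↔ P x) (x : M) : ZM.E x (mkS P) ↔ P x := by
  obtain ⟨b, hb⟩ := h
  have := the_spec (P := fun b => ∀ x, ZM.E x b ↔ P x)
    ⟨b, hb, fun y hy => ext fun z => by rw [hb, hy]⟩
  exact this x

theorem mkS_eq {P : M → Prop} {b : M} (h : ∀ x, ZM.E x b ↔ P x) : mkS P = b :=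
  ext fun x => by rw [mem_mkS ⟨b, h⟩, h]

end Pool.Agent.Helper23.WT
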