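import Pool.Agent.Helper23.WT.Fmla

set_option autoImplicit false

/-!
# A countable model from a generic filter
-/

universe u v w

namespace Pool.Agent.Helper23.WT

open Fm

/-- the empty name -/
def emp0 : HN.{u} := ⟨Nm.mk PEmpty (fun i => i.elim) (fun i => i.elim),
  fun i => i.elim, ∅, fun g _ => by
    rw [Nm.act_mk, Nm.eq_mk]
    simp⟩

instance : Nonempty HN.{u} := ⟨emp0⟩

/-- the Skolem witnesses -/
noncomputable def wit (A : Set HN.{u}) (n : ℕ) (p : Fm A (n + 1) × (Fin n → A)) : ℕ → HN.{u} :=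
  (exists_countable_sup (fun x : HN.{u} =>
    p.1.val (fun a : A => a.1) (Matrix.vecCons x (fun i => (p.2 i).1)))).choose

theorem wit_spec (A : Set HN.{u}) (n : ℕ) (p : Fm A (n + 1) × (Fin n → A)) :
    ⨆ x : HN.{u}, p.1.val (fun a : A => a.1) (Matrix.vecCons x (fun i => (p.2 i).1)) =
      ⨆ j, p.1.val (fun a : A => a.1) (Matrix.vecCons (wit A n p j) (fun i => (p.2 i).1)) :=
  (exists_countable_sup (fun x : HN.{u} =>
    p.1.val (fun a : A => a.1) (Matrix.vecCons x (fun i => (p.2 i).1)))).choose_spec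

/-- one step of the closure -/
def stepS (A : Set HN.{u}) : Set HN.{u} :=
  A ∪ ⋃ (n : ℕ) (p : Fm A (n + 1) × (Fin n → A)), Set.range (wit A n p)

theorem stepS_countable {A : Set HN.{u}} (hA : A.Countable) : (stepS A).Countable := by
  have : Countable A := hA.to_subtype
  refine hA.union (Set.countable_iUnion fun n => Set.countable_iUnion fun p => ?_)
  exact Set.countable_range _

theorem exists_S (A₀ : Set HN.{u}) (hA : A₀.Countable) : ∃ S : Set HN.{u}, A₀ ⊆ S ∧ S.Countable ∧
    ∀ (n : ℕ) (f : Fm S (n + 1)) (v : Fin n → S),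
      ⨆ x : HN.{u}, f.val (fun a : S => a.1) (Matrix.vecCons x (fun i => (v i).1)) ≤
      ⨆ x : S, f.val (fun a : S => a.1) (Matrix.vecCons x.1 (fun i => (v i).1)) := by
  let A : ℕ → Set HN.{u} := fun k => stepS^[k] A₀
  have hA1 : ∀ k, A (k + 1) = stepS (A k) := fun k => Function.iterate_succ_apply' _ _ _
  have hmono : Monotone A := monotone_nat_of_le_succ fun k => by
    rw [hA1]; exact Set.subset_union_left
  have hc : ∀ k, (A k).Countable := by
    intro k
    induction k with
    | zero => exact hA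
    | succ k ih => rw [hA1]; exact stepS_countable ih
  refine ⟨⋃ k, A k, Set.subset_iUnion A 0, Set.countable_iUnion hc, ?_⟩
  intro n f v
  obtain ⟨k, hk⟩ := fin_params hmono f
  have hv : ∀ i, ∃ l, (v i).1 ∈ A l := fun i => Set.mem_iUnion.1 (v i).2
  choose l hl using hv
  let K := max k (Finset.univ.sup l)
  have hK : ∀ i, (v i).1 ∈ A K := fun i =>
    hmono ((Finset.le_sup (f := l) (Finset.mem_univ i)).trans (le_max_right _ _)) (hl i)
  obtain ⟨f', hf'⟩ := hk K (le_max_left _ _)
  have hval : ∀ x : HN.{u}, f.val (fun a : (⋃ k, A k : Set HN.{u}) => a.1)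
      (Matrix.vecCons x (fun i => (v i).1)) =
      f'.val (fun a : A K => a.1) (Matrix.vecCons x (fun i => (v i).1)) := by
    intro x
    rw [hf', val_map]
    rfl
  simp only [hval]
  have h := wit_spec (A K) n (f', fun i => ⟨(v i).1, hK i⟩)
  simp only at h
  rw [h]
  refine iSup_le fun j => ?_
  have hj : wit (A K) n (f', fun i => ⟨(v i).1, hK i⟩) j ∈ ⋃ k, A k := by
    refine Set.mem_iUnion.2 ⟨K + 1, ?_⟩
    rw [hA1]
    refine Or.inr (Set.mem_iUnion.2 ⟨n, Set.mem_iUnion.2 ⟨(f', fun i => ⟨(v i).1, hK i⟩), j, rfl⟩⟩)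
  exact le_iSup (fun x : (⋃ k, A k : Set HN.{u}) =>
    f'.val (fun a : A K => a.1) (Matrix.vecCons x.1 (fun i => (v i).1))) ⟨_, hj⟩

/-- a model obtained from a generic filter -/
structure GModel (𝓖 : ℕ → HN.{u} → Set BB) where
  M : Type
  rep : M → HN.{u}
  U : Set BB
  top : ⊤ ∈ U
  bot : ⊥ ∉ U
  up : ∀ a ∈ U, ∀ b, a ≤ b → b ∈ U
  inf : ∀ a ∈ U, ∀ b ∈ U, a ⊓ b ∈ U
  eq_iff : ∀ a b : M, a = b ↔ HN.eq (rep a) (rep b) ∈ U
  los : ∀ (n : ℕ) (f : Fm M n) (v : Fin n → M),
    f.Sat (fun a b => HN.mem (rep a) (rep b) ∈ U) id v ↔ f.val rep (fun i => rep (v i)) ∈ U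
  gen : ∀ k (m : M), (∃ b ∈ 𝓖 k (rep m), b ∈ U) ∨ (sSup (𝓖 k (rep m)))ᶜ ∈ U

theorem exists_model (A₀ : Set HN.{u}) (hA : A₀.Countable) (𝓖 : ℕ → HN.{u} → Set BB) :
    ∃ G : GModel 𝓖, ∀ a ∈ A₀, ∃ m : G.M, HN.eq (G.rep m) a ∈ G.U := by
  obtain ⟨S, hS0, hSc, hS⟩ := exists_S (insert emp0 A₀) (hA.insert _)
  have hne : S.Nonempty := ⟨emp0, hS0 (Set.mem_insert _ _)⟩
  obtain ⟨r, hr⟩ := hSc.exists_eq_range hne
  have hrS : ∀ j, r j ∈ S := fun j => by rw [hr]; exact Set.mem_range_self j
  -- the families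
  let I := (Σ n : ℕ, Fm ℕ n × (Fin n → ℕ)) ⊕ (Σ n : ℕ, Fm ℕ (n + 1) × (Fin n → ℕ)) ⊕ (ℕ × ℕ)
  have : Nonempty I := ⟨Sum.inr (Sum.inr (0, 0))⟩
  obtain ⟨en, hen⟩ := exists_surjective_nat I
  let F : I → Set BB := fun i => match i with
    | Sum.inl ⟨n, p⟩ => {p.1.val r (fun i => r (p.2 i))}
    | Sum.inr (Sum.inl ⟨n, p⟩) =>
      Set.range fun j => (p.1.val r (Matrix.vecCons (r j) (fun i => r (p.2 i))))ᶜ
    | Sum.inr (Sum.inr p) => 𝓖 p.1 (r p.2)
  obtain ⟨U, ⟨htop, hbot, hup, hinf⟩, hU⟩ := exists_genericB (fun k => F (en k))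
  have hU' : ∀ i, (∃ b ∈ F i, b ∈ U) ∨ (sSup (F i))ᶜ ∈ U := fun i => by
    obtain ⟨k, rfl⟩ := hen i
    exact hU k
  -- the quotient
  let st : Setoid ℕ :=
    { r := fun i j => HN.eq (r i) (r j) ∈ U
      iseqv :=
        { refl := fun i => by
            show HN.eq (r i) (r i) ∈ U
            rw [HN.eq_refl]; exact htop
          symm := fun {i j} h => by
            show HN.eq (r j) (r i) ∈ U
            rw [HN.eq_symm]; exact h
          trans := fun {i j k} h h' => hup _ (hinf _ h _ h') _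
            (HN.bTrans inf_le_left inf_le_right) } }
  let M := Quotient st
  let rep : M → HN.{u} := fun m => r m.out
  have hrep : ∀ j : ℕ, HN.eq (rep (Quotient.mk st j)) (r j) ∈ U := fun j =>
    Quotient.exact (Quotient.out_eq (Quotient.mk st j))
  have heq : ∀ a b : M, a = b ↔ HN.eq (rep a) (rep b) ∈ U := by
    intro a b
    constructor
    · rintro rfl
      rw [HN.eq_refl]; exact htop
    · intro h
      rw [← Quotient.out_eq a, ← Quotient.out_eq b]
      exact Quotient.sound h
  have hvalrep : ∀ (n : ℕ) (f : Fm M n) (v : Fin n → HN.{u}),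
      f.val rep v = (f.map (fun m : M => m.out)).val r v := fun n f v => by
    rw [val_map]; rfl
  have hdec : ∀ (n : ℕ) (f : Fm M n) (v : Fin n → M),
      f.val rep (fun i => rep (v i)) ∈ U ∨ (f.val rep (fun i => rep (v i)))ᶜ ∈ U := by
    intro n f v
    have h := hU' (Sum.inl ⟨n, f.map (fun m : M => m.out), fun i => (v i).out⟩)
    simp only [F, Set.mem_singleton_iff, exists_eq_left, sSup_singleton] at h
    rw [hvalrep]
    exact h
  have hlos : ∀ (n : ℕ) (f : Fm M n) (v : Fin n → M),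
      f.Sat (fun a b => HN.mem (rep a) (rep b) ∈ U) id v ↔ f.val rep (fun i => rep (v i)) ∈ U := by
    intro n f v
    have hterm : ∀ (n : ℕ) (v : Fin n → M) (s : Fin n ⊕ M),
        Sum.elim (fun i => rep (v i)) rep s = rep (Sum.elim v id s) := by
      intro n v s
      cases s <;> rfl
    induction f with
    | mem s t => rw [sat_mem, val_mem, hterm, hterm]
    | eq s t => rw [sat_eq, val_eq, hterm, hterm, heq]
    | fls => simp [hbot]
    | imp f g hf hg =>
      rw [sat_imp, val_imp]
      constructor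
      · intro h
        rcases hdec _ f v with h1 | h1
        · exact hup _ ((hg v).1 (h ((hf v).2 h1))) _ (by rw [himp_eq]; exact le_sup_left)
        · exact hup _ h1 _ (by rw [himp_eq]; exact le_sup_right)
      · intro h h1
        exact (hg v).2 (hup _ (hinf _ h _ ((hf v).1 h1)) _ himp_inf_le)
    | @all n f hf =>
      rw [sat_all, val_all]
      constructor
      · intro h
        by_contra hc
        have h1 := (hdec n (Fm.all f) v).resolve_left (by rw [val_all]; exact hc)
        rw [val_all, compl_iInf] at h1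
        have h2 := hU' (Sum.inr (Sum.inl ⟨n, f.map (fun m : M => m.out), fun i => (v i).out⟩))
        have h3 : ∀ x : HN.{u}, (f.val rep (Matrix.vecCons x (fun i => rep (v i))))ᶜ =
            ((f.map (fun m : M => m.out)).val r (Matrix.vecCons x (fun i => r ((v i).out))))ᶜ := by
          intro x
          rw [hvalrep]
        have h4 : ⨆ x : HN.{u}, (f.val rep (Matrix.vecCons x (fun i => rep (v i))))ᶜ ≤
            sSup (F (Sum.inr (Sum.inl ⟨n, f.map (fun m : M => m.out), fun i => (v i).out⟩))) := by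
          have h5 := hS n (((f.map (fun m : M => m.out)).neg).map
            (fun j : ℕ => (⟨r j, hrS j⟩ : S))) (fun i => ⟨r ((v i).out), hrS _⟩)
          simp only [val_map, val_neg] at h5
          refine (le_trans (le_of_eq ?_) h5).trans (iSup_le fun x => ?_)
          · rfl
          · obtain ⟨x, hx⟩ := x
            have hx' := hx
            rw [hr] at hx'
            obtain ⟨j, rfl⟩ := hx'
            exact le_sSup ⟨j, (h3 (r j)).symm⟩
        rcases h2 with h2 | h2
        · obtain ⟨b, ⟨j, rfl⟩, hb⟩ := h2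
          have h6 := (hf (Matrix.vecCons (Quotient.mk st j) v)).1 (h (Quotient.mk st j))
          have h7 := hup _ (hinf _ h6 _ (hrep j)) _ (val_congr f (e := rep) (e' := rep)
            (v := fun i => rep (Matrix.vecCons (Quotient.mk st j) v i))
            (v' := Matrix.vecCons (r j) (fun i => rep (v i)))
            (fun c => HN.bRefl _) (fun i => by
              refine Fin.cases ?_ (fun i => ?_) i
              · exact inf_le_right
              · exact HN.bRefl _) inf_le_left)
          refine hbot (hup _ (hinf _ h7 _ hb) _ ?_)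
          simp only
          rw [hvalrep]
          exact inf_compl_eq_bot.le
        · refine hbot (hup _ (hinf _ h1 _ h2) _ ?_)
          exact (inf_le_inf_right _ h4).trans inf_compl_eq_bot.le
      · intro h x
        refine (hf _).2 (hup _ h _ ((iInf_le _ (rep x)).trans (le_of_eq ?_)))
        congr 1
        funext i
        refine Fin.cases ?_ (fun i => ?_) i <;> rfl
  refine ⟨⟨M, rep, U, htop, hbot, hup, hinf, heq, hlos, fun k m => ?_⟩, fun a ha => ?_⟩
  · exact hU' (Sum.inr (Sum.inr (k, m.out)))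
  · have ha' : a ∈ S := hS0 (Set.mem_insert_of_mem _ ha)
    rw [hr] at ha'
    obtain ⟨j, rfl⟩ := ha'
    exact ⟨Quotient.mk st j, hrep j⟩

end Pool.Agent.Helper23.WT
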