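import Pool.Agent.Helper23.WT.Names

set_option autoImplicit false

/-!
# A model of ZF with a sequence of classes without choice sequence
-/

universe u v w

namespace Pool.Agent.Helper23.WT

open Fm

/-- the properties of the model used in the construction of the trees -/
structure Base {M : Type v} (E : M → M → Prop) (o C D : M) : Prop where
  zf : ZF E
  omega : IsOmega E o
  trans : ∀ x y, E y x → E x C → E y C
  empty : ∃ e, (∀ y, ¬ E y e) ∧ E e C
  power : ∀ x, E x C → ∃ p, E p C ∧ ∀ y, E y p ↔ ∀ z, E z y → E z x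
  coll : ∀ f, ∃ z, E z C ∧ (∀ n, E n o → E n z) ∧
    ∀ n y, E n o → E y C → App E f n y → ∃ y', E y' z ∧ App E f n y'
  D1 : ∀ n, E n o → ∃ c, App E D n c
  D2 : ∀ n, E n o → ∀ c c', App E D n c → App E D n c' →
    ∃ p, IsFinPerm E o p ∧ ∀ i j, App E p i j → (E i c' ↔ E j c)
  D3 : ¬ ∃ f, ∀ n, E n o → ∃ c, App E D n c ∧ ∃ j, E j o ∧
    ∀ i, E i o → ¬ E i j → (App E f n i ↔ E i c)

namespace GModel

variable {𝓖 : ℕ → HN.{u} → Set BB} (G : GModel.{u} 𝓖)

/-- `x` is the value of the name `a` -/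
def R (x : G.M) (a : HN.{u}) : Prop := HN.eq (G.rep x) a ∈ G.U

variable {G}

theorem up2 {a b c : BB} (ha : a ∈ G.U) (hb : b ∈ G.U) (h : a ⊓ b ≤ c) : c ∈ G.U :=
  G.up _ (G.inf _ ha _ hb) _ h

theorem up3 {a b c d : BB} (ha : a ∈ G.U) (hb : b ∈ G.U) (hc : c ∈ G.U) (h : a ⊓ b ⊓ c ≤ d) :
    d ∈ G.U := up2 (G.inf _ ha _ hb) hc h

theorem up4 {a b c d e : BB} (ha : a ∈ G.U) (hb : b ∈ G.U) (hc : c ∈ G.U) (hd : d ∈ G.U)
    (h : a ⊓ b ⊓ c ⊓ d ≤ e) : e ∈ G.U := up2 (G.inf _ (G.inf _ ha _ hb) _ hc) hd h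

theorem R_refl (x : G.M) : G.R x (G.rep x) := by
  unfold R
  rw [HN.eq_refl]
  exact G.top

theorem R_mem {x y : G.M} {a b : HN.{u}} (hx : G.R x a) (hy : G.R y b) :
    G.E x y ↔ HN.mem a b ∈ G.U := by
  constructor
  · intro h
    exact up3 hx hy h (HN.bMemL (bLeft (bLeft le_rfl)) (HN.bMemR (bRight (bLeft le_rfl))
      (bRight le_rfl)))
  · intro h
    exact up3 hx hy h (HN.bMemL (HN.bSymm (bLeft (bLeft le_rfl)))
      (HN.bMemR (HN.bSymm (bRight (bLeft le_rfl))) (bRight le_rfl)))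

theorem R_eq {x y : G.M} {a b : HN.{u}} (hx : G.R x a) (hy : G.R y b) :
    x = y ↔ HN.eq a b ∈ G.U := by
  rw [G.eq_iff]
  constructor
  · intro h
    exact up3 hx hy h (HN.bTrans (HN.bSymm (bLeft (bLeft le_rfl)))
      (HN.bTrans (bRight le_rfl) (bRight (bLeft le_rfl))))
  · intro h
    exact up3 hx hy h (HN.bTrans (bLeft (bLeft le_rfl))
      (HN.bTrans (bRight le_rfl) (HN.bSymm (bRight (bLeft le_rfl)))))

theorem R_app {f x y : G.M} {a b c : HN.{u}} (hf : G.R f a) (hx : G.R x b) (hy : G.R y c) :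
    App G.E f x y ↔ HN.mem (HN.opair b c) a ∈ G.U := by
  have h0 := G.los_iff (fApp (.inr f) (.inr x) (.inr y) : Fm G.M 0) ![]
  simp only [sat_fApp, val_fApp, Sum.elim_inr, id] at h0
  rw [h0]
  constructor
  · intro h
    refine up4 hf hx hy h (HN.bMemL (HN.bOpairCongr ?_ ?_) (HN.bMemR ?_ (bRight le_rfl)))
    · exact bRight (bLeft (bLeft le_rfl))
    · exact bRight (bLeft le_rfl)
    · exact bLeft (bLeft (bLeft le_rfl))
  · intro h
    refine up4 hf hx hy h (HN.bMemL (HN.bOpairCongr ?_ ?_) (HN.bMemR ?_ (bRight le_rfl)))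
    · exact HN.bSymm (bRight (bLeft (bLeft le_rfl)))
    · exact HN.bSymm (bRight (bLeft le_rfl))
    · exact HN.bSymm (bLeft (bLeft (bLeft le_rfl)))

theorem not_both {a : BB} (h : a ∈ G.U) (h' : aᶜ ∈ G.U) : False :=
  G.bot (up2 h h' inf_compl_eq_bot.le)

theorem R_mem_not {x y : G.M} {a b : HN.{u}} (hx : G.R x a) (hy : G.R y b) (h : ¬ G.E x y) :
    (HN.mem a b)ᶜ ∈ G.U := by
  have h0 := (G.los_iff ((Fm.mem (.inr x) (.inr y)).neg : Fm G.M 0) ![]).1 h
  simp only [val_neg, val_mem, Sum.elim_inr] at h0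
  refine up3 hx hy h0 (bNot fun Δ h1 h2 => bAbs (bRight h1) ?_)
  exact HN.bMemL (HN.bSymm (bLeft (bLeft h1))) (HN.bMemR (HN.bSymm (bRight (bLeft h1))) h2)

theorem R_eq_not {x y : G.M} {a b : HN.{u}} (hx : G.R x a) (hy : G.R y b) (h : ¬ x = y) :
    (HN.eq a b)ᶜ ∈ G.U := by
  have h0 := (G.los_iff ((Fm.eq (.inr x) (.inr y)).neg : Fm G.M 0) ![]).1 h
  simp only [val_neg, val_eq, Sum.elim_inr] at h0
  refine up3 hx hy h0 (bNot fun Δ h1 h2 => bAbs (bRight h1) ?_)
  exact HN.bTrans (bLeft (bLeft h1)) (HN.bTrans h2 (HN.bSymm (bRight (bLeft h1))))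

theorem R_app_not {f x y : G.M} {a b c : HN.{u}} (hf : G.R f a) (hx : G.R x b) (hy : G.R y c)
    (h : ¬ App G.E f x y) : (HN.mem (HN.opair b c) a)ᶜ ∈ G.U := by
  have h0 := (G.los_iff ((fApp (.inr f) (.inr x) (.inr y)).neg : Fm G.M 0) ![]).1 (by
    simpa using h)
  simp only [val_neg, val_fApp, Sum.elim_inr] at h0
  refine up4 hf hx hy h0 (bNot fun Δ h1 h2 => bAbs (bRight h1) ?_)
  refine HN.bMemL (HN.bOpairCongr ?_ ?_) (HN.bMemR ?_ h2)
  · exact HN.bSymm (bRight (bLeft (bLeft h1)))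
  · exact HN.bSymm (bRight (bLeft h1))
  · exact HN.bSymm (bLeft (bLeft (bLeft h1)))

end GModel

/-- the families of values that are met by the generic filter -/
noncomputable def famI (i : Unit ⊕ ℕ ⊕ Finset ℕ ⊕ (ℕ × Finset ℕ × ℕ)) (x : HN.{1}) : Set BB :=
  match i with
  | .inl _ => Set.range fun n => HN.eq x (HN.nat n)
  | .inr (.inl n) => Set.range fun F => HN.eq x (HN.cn n F)
  | .inr (.inr (.inl F)) => Set.range fun i => HN.eq x (HN.opair (HN.nat i) (HN.nat (sw F i)))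
  | .inr (.inr (.inr p)) => Set.range fun i : {i // p.2.2 ≤ i} =>
      (iffV (HN.mem (HN.opair (HN.nat p.1) (HN.nat i.1)) x)
        (HN.mem (HN.nat i.1 : HN.{1}) (HN.cn p.1 p.2.1)))ᶜ

theorem exists_M0 : ∃ (M : Type) (E : M → M → Prop) (o C D : M), Base E o C D := by
  classical
  obtain ⟨en, hen⟩ := exists_surjective_nat (Unit ⊕ ℕ ⊕ Finset ℕ ⊕ (ℕ × Finset ℕ × ℕ))
  let A₀ : Set HN.{1} := insert HN.omg (insert HN.univ (insert HN.Dn
    (Set.range HN.nat ∪ Set.range (fun p : ℕ × Finset ℕ => HN.cn p.1 p.2) ∪ Set.range HN.sg)))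
  have hA₀ : A₀.Countable := by
    refine Set.Countable.insert _ (Set.Countable.insert _ (Set.Countable.insert _ ?_))
    exact ((Set.countable_range _).union (Set.countable_range _)).union (Set.countable_range _)
  obtain ⟨G, hG⟩ := exists_model A₀ hA₀ (fun k x => famI (en k) x)
  obtain ⟨o, ho⟩ : ∃ o : G.M, G.R o HN.omg := hG _ (Set.mem_insert _ _)
  obtain ⟨C, hC⟩ : ∃ C : G.M, G.R C HN.univ :=
    hG _ (Set.mem_insert_of_mem _ (Set.mem_insert _ _))
  obtain ⟨D, hD⟩ : ∃ D : G.M, G.R D HN.Dn :=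
    hG _ (Set.mem_insert_of_mem _ (Set.mem_insert_of_mem _ (Set.mem_insert _ _)))
  have hN : ∀ n, ∃ m : G.M, G.R m (HN.nat n) := fun n =>
    hG _ (Set.mem_insert_of_mem _ (Set.mem_insert_of_mem _ (Set.mem_insert_of_mem _
      (Or.inl (Or.inl ⟨n, rfl⟩)))))
  have hc : ∀ n F, ∃ m : G.M, G.R m (HN.cn n F) := fun n F =>
    hG _ (Set.mem_insert_of_mem _ (Set.mem_insert_of_mem _ (Set.mem_insert_of_mem _
      (Or.inl (Or.inr ⟨(n, F), rfl⟩)))))
  have hs : ∀ F, ∃ m : G.M, G.R m (HN.sg F) := fun F =>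
    hG _ (Set.mem_insert_of_mem _ (Set.mem_insert_of_mem _ (Set.mem_insert_of_mem _
      (Or.inr ⟨F, rfl⟩))))
  choose N hN using hN
  choose c hc using hc
  choose s hs using hs
  have hgen : ∀ i (m : G.M), (∃ b ∈ famI i (G.rep m), b ∈ G.U) ∨
      (sSup (famI i (G.rep m)))ᶜ ∈ G.U := fun i m => by
    obtain ⟨k, rfl⟩ := hen i
    exact G.gen k m
  have hzf := G.zf
  -- natural numbers
  have N0 : ∀ y, ¬ G.E y (N 0) := fun y h => by
    rw [GModel.R_mem (GModel.R_refl y) (hN 0)] at h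
    change HN.mem (G.rep y) HN.emp ∈ G.U at h
    rw [HN.mem_emp] at h
    exact G.bot h
  have NS : ∀ n z, G.E z (N (n + 1)) ↔ G.E z (N n) ∨ z = N n := by
    intro n z
    rw [GModel.R_mem (GModel.R_refl z) (hN (n + 1)), HN.mem_nat_succ]
    constructor
    · intro h
      by_cases h1 : z = N n
      · exact Or.inr h1
      · left
        rw [GModel.R_mem (GModel.R_refl z) (hN n)]
        refine GModel.up2 h (GModel.R_eq_not (GModel.R_refl z) (hN n) h1) ?_
        rw [inf_sup_right, inf_compl_eq_bot, bot_sup_eq]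
        exact inf_le_left
    · rintro (h | h)
      · rw [GModel.R_mem (GModel.R_refl z) (hN n)] at h
        exact G.up _ h _ le_sup_right
      · rw [GModel.R_eq (GModel.R_refl z) (hN n)] at h
        exact G.up _ h _ le_sup_left
  have NO : ∀ z, G.E z o ↔ ∃ n, z = N n := by
    intro z
    rw [GModel.R_mem (GModel.R_refl z) ho, HN.mem_omg]
    constructor
    · intro h
      rcases hgen (.inl ()) z with ⟨b, ⟨n, rfl⟩, hb⟩ | h1
      · exact ⟨n, (GModel.R_eq (GModel.R_refl z) (hN n)).2 hb⟩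
      · exact (GModel.not_both h h1).elim
    · rintro ⟨n, rfl⟩
      exact G.up _ (hN n) _ (le_iSup (fun n => HN.eq (G.rep (N _)) (HN.nat n)) n)
  have Ninj : ∀ i j, N i = N j → i = j := by
    intro i j h
    by_contra hij
    rw [GModel.R_eq (hN i) (hN j), HN.nat_ne hij] at h
    exact G.bot h
  have Nlt : ∀ i j, G.E (N i) (N j) ↔ i < j := by
    intro i j
    rw [GModel.R_mem (hN i) (hN j), HN.mem_nat_nat]
    split_ifs with h
    · simp [h, G.top]
    · simp [h, G.bot]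
  have hom : IsOmega G.E o := by
    refine ⟨⟨⟨N 0, N0, (NO _).2 ⟨0, rfl⟩⟩, fun y hy => ?_⟩, fun w hw x hx => ?_⟩
    · obtain ⟨n, rfl⟩ := (NO y).1 hy
      exact ⟨N (n + 1), (NO _).2 ⟨n + 1, rfl⟩, NS n⟩
    · obtain ⟨n, rfl⟩ := (NO x).1 hx
      clear hx
      induction n with
      | zero =>
        obtain ⟨e, he, hew⟩ := hw.1
        have : e = N 0 := hzf.ext _ _ fun z => ⟨fun h => (he z h).elim, fun h => (N0 z h).elim⟩
        rwa [← this]
      | succ n ih =>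
        obtain ⟨t, ht, ht'⟩ := hw.2 _ ih
        have : t = N (n + 1) := hzf.ext _ _ fun z => by rw [ht', NS]
        rwa [← this]
  -- the elements of `D`
  have hDn : ∀ n y, App G.E D (N n) y ↔ ∃ F, y = c n F := by
    intro n y
    rw [GModel.R_app hD (hN n) (GModel.R_refl y), HN.mem_opair_Dn]
    constructor
    · intro h
      rcases hgen (.inr (.inl n)) y with ⟨b, ⟨F, rfl⟩, hb⟩ | h1
      · exact ⟨F, (GModel.R_eq (GModel.R_refl y) (hc n F)).2 hb⟩
      · exact (GModel.not_both h h1).elim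
    · rintro ⟨F, rfl⟩
      exact G.up _ (hc n F) _ (le_iSup (fun F => HN.eq (G.rep (c n _)) (HN.cn n F)) F)
  have hcmem : ∀ n F i, G.E (N i) (c n F) ↔ wv n F i ∈ G.U := by
    intro n F i
    rw [GModel.R_mem (hN i) (hc n F), HN.mem_nat_cn]
  have hsg : ∀ F i y, App G.E (s F) (N i) y ↔ y = N (sw F i) := by
    intro F i y
    rw [GModel.R_app (hs F) (hN i) (GModel.R_refl y), HN.mem_opair_sg,
      GModel.R_eq (GModel.R_refl y) (hN _)]
  have hopair : ∀ (q : G.M) (i j : ℕ), HN.eq (G.rep q) (HN.opair (HN.nat i) (HN.nat j)) ∈ G.U →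
      IsOPair G.E q (N i) (N j) := by
    intro q i j h
    have h0 := (G.los_iff (fPair (.inr q) (.inr (N i)) (.inr (N j)) : Fm G.M 0) ![]).2 (by
      simp only [val_fPair, Sum.elim_inr]
      exact GModel.up3 h (hN i) (hN j) (HN.bTrans (bLeft (bLeft le_rfl))
        (HN.bOpairCongr (HN.bSymm (bRight (bLeft le_rfl))) (HN.bSymm (bRight le_rfl)))))
    simpa using h0
  have hperm : ∀ F, IsFinPerm G.E o (s F) := by
    intro F
    refine ⟨⟨fun q hq => ?_, fun x hx => ?_⟩, fun m hm => ?_, ?_⟩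
    · rw [GModel.R_mem (GModel.R_refl q) (hs F), HN.mem_sg] at hq
      rcases hgen (.inr (.inr (.inl F))) q with ⟨b, ⟨i, rfl⟩, hb⟩ | h1
      · exact ⟨N i, N (sw F i), (NO _).2 ⟨_, rfl⟩, (NO _).2 ⟨_, rfl⟩, hopair _ _ _ hb⟩
      · exact (GModel.not_both hq h1).elim
    · obtain ⟨i, rfl⟩ := (NO x).1 hx
      exact ⟨N (sw F i), (hsg _ _ _).2 rfl, fun y hy => (hsg _ _ _).1 hy⟩
    · obtain ⟨i, rfl⟩ := (NO m).1 hm
      refine ⟨N (sw F i), (hsg _ _ _).2 (by rw [sw_sw]), fun y hy => ?_⟩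
      -- y is a natural number
      have hy' : G.E y o := by
        obtain ⟨q, hq, hqs⟩ := hy
        rw [GModel.R_mem (GModel.R_refl q) (hs F), HN.mem_sg] at hqs
        rcases hgen (.inr (.inr (.inl F))) q with ⟨b, ⟨i', rfl⟩, hb⟩ | h1
        · have hq' := (G.los_iff (fPair (.inr q) (.inr y) (.inr (N i)) : Fm G.M 0) ![]).1 (by
            simpa using hq)
          simp only [val_fPair, Sum.elim_inr] at hq'
          have : HN.eq (G.rep y) (HN.nat i') ∈ G.U := GModel.up2 hq' hb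
            (HN.bOpairFst (HN.bTrans (HN.bSymm (bLeft le_rfl)) (bRight le_rfl)))
          exact (NO y).2 ⟨i', (GModel.R_eq (GModel.R_refl y) (hN i')).2 this⟩
        · exact (GModel.not_both hqs h1).elim
      obtain ⟨j, rfl⟩ := (NO y).1 hy'
      have := Ninj _ _ ((hsg _ _ _).1 hy)
      rw [this, sw_sw]
    · obtain ⟨k, hk⟩ := sw_large F
      refine ⟨N k, (NO _).2 ⟨k, rfl⟩, fun n hn hnk => ?_⟩
      obtain ⟨i, rfl⟩ := (NO n).1 hn
      rw [Nlt] at hnk
      rw [hsg, hk i (by omega)]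
  refine ⟨G.M, G.E, o, C, D, ⟨hzf, hom, ?_, ?_, ?_, ?_, ?_, ?_, ?_⟩⟩
  · intro x y hy hx
    rw [GModel.R_mem (GModel.R_refl x) hC] at hx
    rw [GModel.R_mem (GModel.R_refl y) (GModel.R_refl x)] at hy
    rw [GModel.R_mem (GModel.R_refl y) hC]
    exact GModel.up2 hy hx (HN.univ_trans _ _ inf_le_left inf_le_right)
  · refine ⟨N 0, N0, ?_⟩
    rw [GModel.R_mem (hN 0) hC, HN.mem_univ]
    refine G.up _ G.top _ (bEx HN.emp (HN.bSymm (le_top.trans HN.lift_emp.ge)))
  · intro x hx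
    have h0 := (G.los_iff (Fm.ex ((Fm.mem (.inl 0) (.inr C)).and (Fm.all
      ((Fm.mem (.inl 0) (.inl 1)).iff (Fm.all ((Fm.mem (.inl 0) (.inl 1)).imp
        (.mem (.inl 0) (.inr x))))))) : Fm G.M 0) ![]).2 (by
        simp only [val_ex, val_and, val_mem, val_all, val_iff, val_imp, Sum.elim_inl, Sum.elim_inr,
          Matrix.cons_val_zero, Matrix.cons_val_one]
        rw [GModel.R_mem (GModel.R_refl x) hC] at hx
        refine GModel.up2 hx hC ?_
        refine bElim ((inf_le_left).trans (HN.univ_power _)) fun p Δ h1 h2 => ?_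
        exact bEx p (le_inf (HN.bMemR (HN.bSymm (bRight h1)) (bLeft h2)) (bRight h2)))
    simpa using h0
  · intro f
    have h0 := (G.los_iff (Fm.ex ((Fm.mem (.inl 0) (.inr C)).and
      ((Fm.all ((Fm.mem (.inl 0) (.inr o)).imp (Fm.mem (.inl 0) (.inl 1)))).and
      (Fm.all (Fm.all ((Fm.mem (.inl 1) (.inr o)).imp ((Fm.mem (.inl 0) (.inr C)).imp
        ((fApp (.inr f) (.inl 1) (.inl 0)).imp (Fm.ex ((Fm.mem (.inl 0) (.inl 3)).and
          (fApp (.inr f) (.inl 2) (.inl 0)))))))))))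
        : Fm G.M 0) ![]).2 (by
        simp only [val_ex, val_and, val_mem, val_all, val_imp, val_fApp, Sum.elim_inl,
          Sum.elim_inr, Matrix.cons_val_zero, Matrix.cons_val_one, Matrix.cons_val]
        obtain ⟨z, hz1, hz2⟩ := HN.univ_coll (G.rep f)
        refine GModel.up2 ho hC (bEx (HN.lift z) (le_inf ?_ (le_inf (le_iInf fun n =>
          bImp fun Δ h1 h2 => ?_) (le_iInf fun n => le_iInf fun y => bImp fun Δ h1 h2 =>
            bImp fun Δ' h3 h4 => bImp fun Δ₁ h5 h6 => ?_))))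
        · refine HN.bMemR (HN.bSymm inf_le_right) ?_
          rw [HN.mem_univ]
          exact bEx z (HN.bRefl _)
        · have h3 := HN.bMemR (bLeft h1) h2
          rw [HN.mem_omg] at h3
          refine bElim h3 fun k Δ' h4 h5 => HN.bMemL (HN.bSymm h5) (le_top.trans (hz1 k).ge)
        · have h7 := HN.bMemR (bLeft (((h5.trans h3).trans h1))) ((h5.trans h3).trans h2)
          have h8 := HN.bMemR (bRight (((h5.trans h3).trans h1))) (h5.trans h4)
          rw [HN.mem_omg] at h7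
          rw [HN.mem_univ] at h8
          refine bElim h7 fun k Δ₂ h9 h10 => bElim (h9.trans h8) fun y₀ Δ₃ h11 h12 => ?_
          have h13 : Δ₃ ≤ HN.mem (HN.opair (HN.nat k) (HN.lift y₀)) (G.rep f) :=
            HN.bMemL (HN.bOpairCongr (h11.trans h10) h12) ((h11.trans h9).trans h6)
          refine bElim (h13.trans (hz2 k y₀)) fun y' Δ₄ h14 h15 => bEx (HN.lift y') (le_inf ?_ ?_)
          · rw [HN.mem_lift_lift]; exact bLeft h15
          · exact HN.bMemL (HN.bOpairCongr (HN.bSymm ((h14.trans h11).trans h10)) (HN.bRefl _))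
              (bRight h15))
    simp only [sat_ex, sat_and, sat_all, sat_imp, sat_mem, sat_fApp, Sum.elim_inl, Sum.elim_inr,
      Matrix.cons_val_zero, Matrix.cons_val_one, Matrix.cons_val, id] at h0
    obtain ⟨z, h1, h2, h3⟩ := h0
    exact ⟨z, h1, h2, fun n y h4 h5 h6 => h3 n y h4 h5 h6⟩
  · intro n hn
    obtain ⟨k, rfl⟩ := (NO n).1 hn
    exact ⟨c k ∅, (hDn _ _).2 ⟨∅, rfl⟩⟩
  · intro n hn a b ha hb
    obtain ⟨k, rfl⟩ := (NO n).1 hn
    obtain ⟨F, rfl⟩ := (hDn _ _).1 ha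
    obtain ⟨F', rfl⟩ := (hDn _ _).1 hb
    refine ⟨s (symmDiff F F'), hperm _, fun i j hij => ?_⟩
    have hi : G.E i o := by
      obtain ⟨q, hq, hqs⟩ := hij
      obtain ⟨x, y, hx, hy, hxy⟩ := (hperm (symmDiff F F')).1.1 q hqs
      have h1 := (G.los_iff (fPair (.inr q) (.inr i) (.inr j) : Fm G.M 0) ![]).1 (by simpa using hq)
      have h2 := (G.los_iff (fPair (.inr q) (.inr x) (.inr y) : Fm G.M 0) ![]).1 (by simpa using hxy)
      simp only [val_fPair, Sum.elim_inr] at h1 h2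
      have : i = x := (GModel.R_eq (GModel.R_refl i) (GModel.R_refl x)).2 (GModel.up2 h1 h2
        (HN.bOpairFst (HN.bTrans (HN.bSymm inf_le_left) inf_le_right)))
      rw [this]; exact hx
    obtain ⟨i, rfl⟩ := (NO i).1 hi
    rw [hsg] at hij
    rw [hij, hcmem, hcmem, wv_sw k F F' i]
  · rintro ⟨f, hf⟩
    obtain ⟨S, hS⟩ := HN.no_name (G.rep f)
    obtain ⟨n, hn⟩ := Infinite.exists_notMem_finset S
    obtain ⟨a, ha, j, hj, h⟩ := hf (N n) ((NO _).2 ⟨n, rfl⟩)
    obtain ⟨F, rfl⟩ := (hDn _ _).1 ha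
    obtain ⟨j, rfl⟩ := (NO j).1 hj
    rcases hgen (.inr (.inr (.inr (n, F, j)))) f with ⟨b, ⟨⟨i, hi⟩, rfl⟩, hb⟩ | h1
    · simp only at hi hb
      have h2 := h (N i) ((NO _).2 ⟨i, rfl⟩) (by rw [Nlt]; omega)
      by_cases h3 : G.E (N i) (c n F)
      · have h4 := h2.2 h3
        rw [GModel.R_mem (hN i) (hc n F)] at h3
        rw [GModel.R_app (GModel.R_refl f) (hN n) (hN i)] at h4
        refine GModel.not_both (GModel.up2 h4 h3 (bIff (fun Δ h5 _ => bRight h5)
          (fun Δ h5 _ => bLeft h5))) hb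
      · have h4 : ¬ App G.E f (N n) (N i) := fun h5 => h3 (h2.1 h5)
        have h5 := GModel.R_mem_not (hN i) (hc n F) h3
        have h6 := GModel.R_app_not (GModel.R_refl f) (hN n) (hN i) h4
        exact GModel.not_both (GModel.up2 h6 h5 (bIff
          (fun Δ h5 h6 => (bAbs (bLeft h5) h6).trans bot_le)
          (fun Δ h5 h6 => (bAbs (bRight h5) h6).trans bot_le))) hb
    · have h2 : (sSup (famI (.inr (.inr (.inr (n, F, j)))) (G.rep f)))ᶜ = ⊥ := by
        show (⨆ i : {i // j ≤ i}, (iffV (HN.mem (HN.opair (HN.nat n) (HN.nat i.1)) (G.rep f))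
          (HN.mem (HN.nat i.1) (HN.cn n F)))ᶜ)ᶜ = ⊥
        rw [compl_iSup]
        simp only [compl_compl]
        exact hS n hn F j
      rw [h2] at h1
      exact G.bot h1

end Pool.Agent.Helper23.WT
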