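import Pool.Agent.Helper23.WT.Univ

set_option autoImplicit false

/-!
# The names of the Cohen reals, of the swaps, and of the sequence of classes
-/

universe u v w

namespace Pool.Agent.Helper23.WT

open Fm

/-- swap `2m` and `2m+1` for `m ∈ F` -/
def sw (F : Finset ℕ) (i : ℕ) : ℕ := if i / 2 ∈ F then (if i % 2 = 0 then i + 1 else i - 1) else i

theorem sw_div (F : Finset ℕ) (i : ℕ) : sw F i / 2 = i / 2 := by
  unfold sw
  split_ifs <;> omega

theorem sw_mod (F : Finset ℕ) (i : ℕ) (h : i / 2 ∈ F) : (sw F i % 2 = 0 ↔ ¬ i % 2 = 0) := by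
  unfold sw
  rw [if_pos h]
  split_ifs <;> omega

theorem sw_of_not_mem {F : Finset ℕ} {i : ℕ} (h : i / 2 ∉ F) : sw F i = i := if_neg h

theorem sw_sw (F : Finset ℕ) (i : ℕ) : sw F (sw F i) = i := by
  by_cases h : i / 2 ∈ F
  · have h' : sw F i / 2 ∈ F := by rw [sw_div]; exact h
    by_cases h0 : i % 2 = 0
    · have e1 : sw F i = i + 1 := by unfold sw; rw [if_pos h, if_pos h0]
      rw [e1] at h' ⊢
      unfold sw
      rw [if_pos h', if_neg (by omega)]
      omega
    · have e1 : sw F i = i - 1 := by unfold sw; rw [if_pos h, if_neg h0]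
      rw [e1] at h' ⊢
      unfold sw
      rw [if_pos h', if_pos (by omega)]
      omega
  · rw [sw_of_not_mem h, sw_of_not_mem h]

theorem sw_large (F : Finset ℕ) : ∃ k, ∀ i ≥ k, sw F i = i := by
  refine ⟨2 * (F.sup id + 1), fun i hi => sw_of_not_mem fun h => ?_⟩
  have := Finset.le_sup (f := id) h
  simp only [id] at this
  omega

/-- the truth value of `i ∈ c_{n,F}` -/
noncomputable def wv (n : ℕ) (F : Finset ℕ) (i : ℕ) : BB :=
  open Classical in
  if (i % 2 = 0 ↔ i / 2 ∉ F) then bit (n, i / 2) else (bit (n, i / 2))ᶜ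

/-- the flips of a flip in one row -/
noncomputable def gF (g : Flip) (n : ℕ) : Finset ℕ := (g.fin n).toFinset

theorem mem_gF (g : Flip) (n m : ℕ) : m ∈ gF g n ↔ g.fn (n, m) = true := by
  simp [gF]

theorem ρ_wv (g : Flip) (n : ℕ) (F : Finset ℕ) (i : ℕ) :
    ρ g (wv n F i) = wv n (symmDiff F (gF g n)) i := by
  classical
  have h2 : i / 2 ∈ symmDiff F (gF g n) ↔ (i / 2 ∈ F ∧ ¬ g.fn (n, i / 2) = true ∨
      g.fn (n, i / 2) = true ∧ i / 2 ∉ F) := by
    rw [Finset.mem_symmDiff, mem_gF]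
  unfold wv
  by_cases h : g.fn (n, i / 2) = true
  · by_cases h3 : (i % 2 = 0 ↔ i / 2 ∉ F)
    · rw [if_pos h3, if_neg (by rw [h2]; tauto), ρ_bit_flip h]
    · rw [if_neg h3, if_pos (by rw [h2]; tauto), map_compl', ρ_bit_flip h, compl_compl]
  · have h' : g.fn (n, i / 2) = false := by simpa using h
    by_cases h3 : (i % 2 = 0 ↔ i / 2 ∉ F)
    · rw [if_pos h3, if_pos (by rw [h2]; tauto), ρ_bit_same h']
    · rw [if_neg h3, if_neg (by rw [h2]; tauto), map_compl', ρ_bit_same h']

theorem wv_sw (n : ℕ) (F F' : Finset ℕ) (i : ℕ) : wv n F' i = wv n F (sw (symmDiff F F') i) := by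
  classical
  unfold wv
  rw [sw_div]
  by_cases h : i / 2 ∈ symmDiff F F'
  · have h1 := sw_mod _ i h
    have h2 : (i / 2 ∈ F ↔ i / 2 ∉ F') := by
      rw [Finset.mem_symmDiff] at h
      tauto
    by_cases h3 : (i % 2 = 0 ↔ i / 2 ∉ F')
    · rw [if_pos h3, if_pos (by tauto)]
    · rw [if_neg h3, if_neg (by tauto)]
  · rw [sw_of_not_mem h]
    have h2 : (i / 2 ∈ F ↔ i / 2 ∈ F') := by
      rw [Finset.mem_symmDiff] at h
      tauto
    by_cases h3 : (i % 2 = 0 ↔ i / 2 ∉ F')
    · rw [if_pos h3, if_pos (by tauto)]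
    · rw [if_neg h3, if_neg (by tauto)]

namespace HN

theorem exists_c (n : ℕ) (F : Finset ℕ) :
    ∃ z : HN.{u}, ∀ x, mem x z = ⨆ i, wv n F i ⊓ eq x (nat i) := by
  refine exists_of_char (ι := ULift.{u} ℕ) (fun i => nat i.down) (fun i => wv n F i.down)
    (fun x => ⨆ i, wv n F i ⊓ eq x (nat i)) (fun x => ?_) ⟨{n}, fun g hg x => ?_⟩
  · exact (Equiv.ulift.surjective.iSup_comp (fun i : ℕ => wv n F i ⊓ eq x (nat i))).symm
  · rw [OrderIso.map_iSup]
    refine iSup_congr fun i => ?_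
    rw [map_inf, ρ_wv, (inv_nat i).eq]
    have : gF g n = ∅ := by
      ext m
      rw [mem_gF]
      have := hg n (Finset.mem_singleton_self n) m
      simp [this]
    rw [this, ← Finset.bot_eq_empty, symmDiff_bot]

/-- the name of the real `c_{n,F}` -/
noncomputable def cn (n : ℕ) (F : Finset ℕ) : HN.{u} := (exists_c n F).choose

theorem mem_cn (n : ℕ) (F : Finset ℕ) (x : HN.{u}) :
    mem x (cn n F) = ⨆ i, wv n F i ⊓ eq x (nat i) := (exists_c n F).choose_spec x

theorem mem_nat_cn (n : ℕ) (F : Finset ℕ) (i : ℕ) : mem (nat i : HN.{u}) (cn n F) = wv n F i := by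
  rw [mem_cn]
  refine le_antisymm (iSup_le fun j => ?_) (bEx i (le_inf le_rfl (bRefl _)))
  by_cases h : i = j
  · rw [h]; exact inf_le_left
  · rw [nat_ne h]; exact inf_le_right.trans bot_le

theorem act_cn (g : Flip) (n : ℕ) (F : Finset ℕ) :
    eq (act g (cn n F : HN.{u})) (cn n (symmDiff F (gF g n))) = ⊤ := by
  have key : ∀ w : HN.{u}, mem (act g w) (act g (cn n F)) =
      mem (act g w) (cn n (symmDiff F (gF g n))) := by
    intro w
    rw [mem_act, mem_cn, mem_cn, OrderIso.map_iSup]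
    refine iSup_congr fun i => ?_
    rw [map_inf, ρ_wv, (inv_nat i).eq]
  rw [eq_top_iff]
  refine bExt (fun w Δ _ h1 => ?_) (fun w Δ _ h1 => ?_)
  · obtain ⟨w, rfl⟩ := act_surj g w
    rw [← key]; exact h1
  · obtain ⟨w, rfl⟩ := act_surj g w
    rw [key]; exact h1

theorem act_upair (g : Flip) (x y : HN.{u}) :
    eq (act g (upair x y)) (upair (act g x) (act g y)) = ⊤ := by
  have key : ∀ w : HN.{u}, mem (act g w) (act g (upair x y)) =
      mem (act g w) (upair (act g x) (act g y)) := by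
    intro w
    rw [mem_act, mem_upair, mem_upair, map_sup, eq_act, eq_act]
  rw [eq_top_iff]
  refine bExt (fun w Δ _ h1 => ?_) (fun w Δ _ h1 => ?_)
  · obtain ⟨w, rfl⟩ := act_surj g w
    rw [← key]; exact h1
  · obtain ⟨w, rfl⟩ := act_surj g w
    rw [key]; exact h1

theorem act_opair (g : Flip) (x y : HN.{u}) :
    eq (act g (opair x y)) (opair (act g x) (act g y)) = ⊤ := by
  rw [eq_top_iff]
  refine bTrans (le_top.trans (act_upair g _ _).ge) (bUpairCongr ?_ ?_)
  · exact le_top.trans (act_upair g _ _).ge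
  · exact le_top.trans (act_upair g _ _).ge

theorem exists_D : ∃ z : HN.{u}, (∀ w, mem w z = ⨆ p : ℕ × Finset ℕ,
    eq w (opair (nat p.1) (cn p.1 p.2))) ∧ Inv z := by
  refine exists_countable (I := ℕ × Finset ℕ) (fun p => opair (nat p.1) (cn p.1 p.2)) fun g => ?_
  refine ⟨fun p => (p.1, symmDiff p.2 (gF g p.1)), fun p => ⟨(p.1, symmDiff p.2 (gF g p.1)), ?_⟩,
    fun p => ?_⟩
  · show (p.1, symmDiff (symmDiff p.2 (gF g p.1)) (gF g p.1)) = p
    rw [symmDiff_symmDiff_cancel_right]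
  · rw [eq_top_iff]
    refine bTrans (le_top.trans (act_opair g _ _).ge) (bOpairCongr ?_ ?_)
    · exact le_top.trans (inv_nat p.1 g).ge
    · exact le_top.trans (act_cn g _ _).ge

/-- the name of the set of all pairs `(n, c_{n,F})` -/
noncomputable def Dn : HN.{u} := exists_D.choose

theorem mem_Dn (w : HN.{u}) : mem w Dn = ⨆ p : ℕ × Finset ℕ, eq w (opair (nat p.1) (cn p.1 p.2)) :=
  exists_D.choose_spec.1 w

theorem mem_opair_Dn (n : ℕ) (y : HN.{u}) : mem (opair (nat n) y) Dn = ⨆ F, eq y (cn n F) := by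
  rw [mem_Dn]
  refine le_antisymm (iSup_le fun p => ?_) (iSup_le fun F => ?_)
  · by_cases h : n = p.1
    · refine bEx p.2 ?_
      rw [h]
      exact bOpairSnd le_rfl
    · exact ((bOpairFst le_rfl).trans (le_of_eq (nat_ne h))).trans bot_le
  · exact bEx (n, F) (bOpairCongr (bRefl _) le_rfl)

/-- the name of the permutation `sw F` -/
noncomputable def sg (F : Finset ℕ) : HN.{u} :=
  (exists_countable' (fun i : ℕ => (opair (nat i) (nat (sw F i)) : HN.{u}))
    (fun i => (inv_nat i).opair (inv_nat _))).choose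

theorem mem_sg (F : Finset ℕ) (w : HN.{u}) :
    mem w (sg F) = ⨆ i, eq w (opair (nat i) (nat (sw F i))) :=
  (exists_countable' (fun i : ℕ => (opair (nat i) (nat (sw F i)) : HN.{u}))
    (fun i => (inv_nat i).opair (inv_nat _))).choose_spec.1 w

theorem mem_opair_sg (F : Finset ℕ) (n : ℕ) (y : HN.{u}) :
    mem (opair (nat n) y) (sg F) = eq y (nat (sw F n)) := by
  rw [mem_sg]
  refine le_antisymm (iSup_le fun i => ?_) ?_
  · by_cases h : n = i
    · rw [h]
      exact bOpairSnd le_rfl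
    · exact ((bOpairFst le_rfl).trans (le_of_eq (nat_ne h))).trans bot_le
  · exact bEx n (bOpairCongr (bRefl _) le_rfl)

/-- no name with a support missing `n` can define `c_{n,F}` -/
theorem no_name (f : HN.{u}) : ∃ E : Finset ℕ, ∀ n ∉ E, ∀ (F : Finset ℕ) (j : ℕ),
    ⨅ i : {i // j ≤ i}, iffV (mem (opair (nat n) (nat i.1)) f) (mem (nat i.1) (cn n F)) = ⊥ := by
  classical
  obtain ⟨E, hE⟩ := f.sym
  refine ⟨E, fun n hn F j => ?_⟩
  refine flip_lemma (n := n) (S := {m | j ≤ 2 * m}) ?_ (fun m hm => ?_)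
  · refine Set.infinite_of_injective_forall_mem (f := fun k : ℕ => j + k)
      (fun a b h => by simpa using h) (fun k => ?_)
    show j ≤ 2 * (j + k)
    omega
  · set g := Flip.single (n, m) with hg
    have hgE : g ∈ Flip.Fix E := fun k hk l => by
      show decide ((k, l) = (n, m)) = false
      simp only [decide_eq_false_iff_not, Prod.mk.injEq, not_and]
      rintro rfl
      exact absurd hk hn
    have hm' : j ≤ 2 * m := hm
    set a := mem (opair (nat n) (nat (2 * m))) f with ha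
    set w := wv n F (2 * m) with hw
    have h1 : ⨅ i : {i // j ≤ i}, iffV (mem (opair (nat n) (nat i.1)) f) (mem (nat i.1) (cn n F)) ≤
        iffV a w := by
      refine (iInf_le _ ⟨2 * m, hm'⟩).trans (le_of_eq ?_)
      show iffV _ _ = _
      rw [mem_nat_cn]
    have h2 : ρ g a = a := by
      rw [ha, ← mem_act, mem_congr_top (hE g hgE)]
      refine mem_congr_top' ?_
      exact ((inv_nat n).opair (inv_nat _)) g
    have h3 : ρ g w = wᶜ := by
      rw [hw, ρ_wv]
      have h4 : g.fn (n, 2 * m / 2) = true := by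
        rw [Nat.mul_div_cancel_left m (by norm_num)]
        show decide ((n, m) = (n, m)) = true
        simp
      have h5 : 2 * m / 2 ∈ symmDiff F (gF g n) ↔ 2 * m / 2 ∉ F := by
        rw [Finset.mem_symmDiff, mem_gF, h4]
        simp
      unfold wv
      by_cases h6 : (2 * m % 2 = 0 ↔ 2 * m / 2 ∉ F)
      · rw [if_pos h6, if_neg (by tauto)]
      · rw [if_neg h6, if_pos (by tauto), compl_compl]
    rw [eq_bot_iff]
    have h4 : ρ g (iffV a w) = iffV a wᶜ := by
      unfold iffV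
      rw [map_inf, map_himp, map_himp, h2, h3]
    refine (inf_le_inf h1 ((ρ g).monotone h1)).trans ?_
    rw [h4]
    refine bCases a (fun Δ h5 h6 => ?_) (fun Δ h5 h6 => ?_)
    · exact bAbs (bIff_mp (bRight h5) h6) (bIff_mp (bLeft h5) h6)
    · have h7 : Δ ≤ wᶜ := bNot fun Δ' h8 h9 => bAbs (h8.trans h6) (bIff_mpr (bLeft (h8.trans h5)) h9)
      exact bAbs h6 (bIff_mpr (bRight h5) h7)

end HN

end Pool.Agent.Helper23.WT
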