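import Pool.Agent.Helper23.WT.Omega
import Pool.Agent.Helper23.WT.Model

set_option autoImplicit false
set_option linter.unreachableTactic false
set_option linter.unusedTactic false

/-!
# The homomorphism from `W` to `T` is not surjective in the model
-/

universe u v w

namespace Pool.Agent.Helper23.WT

variable {M : Type u} [ZM M] {o C D : M}

theorem Base.clo (h : Base ZM.E o C D) : Clo o C where
  trans := h.trans
  empty := h.empty
  power x hx := by
    obtain ⟨p, hp, hp'⟩ := h.power x hx
    have : p = pow x := ext fun z => by rw [hp', mem_pow]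
    rwa [← this]
  coll f := by
    obtain ⟨z, h1, h2, h3⟩ := h.coll f
    simp only [app_iff] at h3
    exact ⟨z, h1, h2, h3⟩

theorem Good.cases {G W ν l : M} (h : Good o G W ν l) {w : M} (hw : ZM.E w W) :
    w = l ∨ ∃ v, IsFn v o W ∧ w = ap ν v := by
  obtain ⟨X, hX⟩ := exists_sep (P := fun w => w = l ∨ ∃ v, IsFn v o W ∧ w = ap ν v) (by (repeat' first
      | with_reducible apply DF.cmp | with_reducible apply DF.tau
      | with_reducible apply Dfn.rel | with_reducible apply Dfn.fnOn
      | with_reducible apply DF.funs | with_reducible apply DF.lam | with_reducible apply DF.ap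
      | with_reducible apply Dfn.isFn | with_reducible apply DF.prod
      | with_reducible apply DF.pow | with_reducible apply DF.opair
      | with_reducible apply DF.upair | with_reducible assumption
      | with_reducible exact DF.var _ | with_reducible exact DF.const _
      | with_reducible exact Dfn.const _ | with_reducible apply DF.the
      | with_reducible apply DF.mkS | with_reducible apply Dfn.mem
      | with_reducible apply Dfn.eq | with_reducible apply Dfn.and
      | with_reducible apply Dfn.or | with_reducible apply Dfn.iff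
      | with_reducible apply Dfn.imp | with_reducible apply Dfn.not
      | with_reducible apply Dfn.exu | with_reducible apply Dfn.ex
      | with_reducible apply Dfn.all)) W
  refine ((hX w).1 (h.gen X (fun x hx => ((hX x).1 hx).1) ((hX _).2 ⟨h.pt, Or.inl rfl⟩)
    (fun v hv => ?_) w hw)).2
  have hvW : IsFn v o W := hv.mono fun n hn => ((hX _).1 (hv.ap_mem hn)).1
  exact (hX _).2 ⟨h.fn.ap_mem (mem_funs.2 hvW), Or.inr ⟨v, hvW, rfl⟩⟩

theorem not_surj (hB : Base ZM.E o C D) {G1 GT W ν l T τ r h : M}
    (hG1' : ∀ v v', Rel o G1 v v' ↔ ∀ n, ZM.E n o → ap v' n = ap v n)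
    (hGT : IsGrp o GT) (hGT' : ∀ p, ZM.E p GT ↔ IsFinPerm ZM.E o p)
    (hW : Good o G1 W ν l) (hT : Good o GT T τ r) (hh : Hom o W ν l T τ r h) :
    ¬ ∀ t, ZM.E t T → ∃ w, ZM.E w W ∧ ap h w = t := by
  intro hsurj
  have hhT : ∀ x, ZM.E x W → ZM.E (ap h x) T := fun x hx => hh.fn.ap_mem hx
  -- the two elements
  have hc0 : F1 (fun _ : M => r) := by (repeat' first
      | with_reducible apply DF.cmp | with_reducible apply DF.tau
      | with_reducible apply Dfn.rel | with_reducible apply Dfn.fnOn
      | with_reducible apply DF.funs | with_reducible apply DF.lam | with_reducible apply DF.ap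
      | with_reducible apply Dfn.isFn | with_reducible apply DF.prod
      | with_reducible apply DF.pow | with_reducible apply DF.opair
      | with_reducible apply DF.upair | with_reducible assumption
      | with_reducible exact DF.var _ | with_reducible exact DF.const _
      | with_reducible exact Dfn.const _ | with_reducible apply DF.the
      | with_reducible apply DF.mkS | with_reducible apply Dfn.mem
      | with_reducible apply Dfn.eq | with_reducible apply Dfn.and
      | with_reducible apply Dfn.or | with_reducible apply Dfn.iff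
      | with_reducible apply Dfn.imp | with_reducible apply Dfn.not
      | with_reducible apply Dfn.exu | with_reducible apply Dfn.ex
      | with_reducible apply Dfn.all)
  have hc1 : IsFn (lam o (fun _ => r)) o T := lam_isFn hc0 (fun _ _ => hT.pt)
  obtain ⟨s, hs⟩ : ∃ s, s = ap τ (lam o (fun _ => r)) := ⟨_, rfl⟩
  have hsT : ZM.E s T := by rw [hs]; exact hT.fn.ap_mem (mem_funs.2 hc1)
  have hsr : s ≠ r := by rw [hs]; exact hT.ne _ hc1
  -- the functions `u c`
  obtain ⟨b, hb⟩ : ∃ b : M → M → M, b = fun c i => the (fun y => (ZM.E i c ∧ y = s) ∨ (¬ ZM.E i c ∧ y = r)) :=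
    ⟨_, rfl⟩
  have hb1 : ∀ c i, ZM.E i c → b c i = s := by
    intro c i hi
    rw [hb]
    exact the_eq (Or.inl ⟨hi, rfl⟩) (fun z hz => by
      rcases hz with h | h
      · exact h.2
      · exact absurd hi h.1)
  have hb0 : ∀ c i, ¬ ZM.E i c → b c i = r := by
    intro c i hi
    rw [hb]
    exact the_eq (Or.inr ⟨hi, rfl⟩) (fun z hz => by
      rcases hz with h | h
      · exact absurd h.1 hi
      · exact h.2)
  have hbT : ∀ c i, ZM.E (b c i) T := by
    intro c i
    by_cases hi : ZM.E i c
    · rw [hb1 c i hi]; exact hsT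
    · rw [hb0 c i hi]; exact hT.pt
  have hbF : ∀ c, F1 (fun i => b c i) := by
    intro c
    rw [hb]
    (repeat' first
        | with_reducible apply DF.cmp | with_reducible apply DF.tau
        | with_reducible apply Dfn.rel | with_reducible apply Dfn.fnOn
        | with_reducible apply DF.funs | with_reducible apply DF.lam
        | with_reducible apply DF.ap | with_reducible apply Dfn.isFn
        | with_reducible apply DF.prod | with_reducible apply DF.pow
        | with_reducible apply DF.opair | with_reducible apply DF.upair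
        | with_reducible assumption | with_reducible exact DF.var _
        | with_reducible exact DF.const _ | with_reducible exact Dfn.const _
        | with_reducible apply DF.the | with_reducible apply DF.mkS
        | with_reducible apply Dfn.mem | with_reducible apply Dfn.eq
        | with_reducible apply Dfn.and | with_reducible apply Dfn.or
        | with_reducible apply Dfn.iff | with_reducible apply Dfn.imp
        | with_reducible apply Dfn.not | with_reducible apply Dfn.exu
        | with_reducible apply Dfn.ex | with_reducible apply Dfn.all)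
  obtain ⟨u, hu⟩ : ∃ u : M → M, u = fun c => lam o (b c) := ⟨_, rfl⟩
  have hu1 : ∀ c, IsFn (u c) o T := by
    intro c
    rw [hu]
    exact lam_isFn (hbF c) (fun i _ => hbT c i)
  have hu2 : ∀ c i, ZM.E i o → ap (u c) i = b c i := by
    intro c i hi
    rw [hu]
    exact ap_lam (hbF c) (fun i _ => hbT c i) hi
  have hu3 : ∀ c i, ZM.E i o → (ap (u c) i = s ↔ ZM.E i c) := by
    intro c i hi
    rw [hu2 c i hi]
    by_cases hic : ZM.E i c
    · simp [hb1 c i hic, hic]
    · rw [hb0 c i hic]
      exact ⟨fun h => absurd h.symm hsr, fun h => absurd h hic⟩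
  have huF : DF (fun v : Fin 1 → M => u (v 0)) := by
    rw [hu, hb]
    (repeat' first
        | with_reducible apply DF.cmp | with_reducible apply DF.tau
        | with_reducible apply Dfn.rel | with_reducible apply Dfn.fnOn
        | with_reducible apply DF.funs | with_reducible apply DF.lam
        | with_reducible apply DF.ap | with_reducible apply Dfn.isFn
        | with_reducible apply DF.prod | with_reducible apply DF.pow
        | with_reducible apply DF.opair | with_reducible apply DF.upair
        | with_reducible assumption | with_reducible exact DF.var _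
        | with_reducible exact DF.const _ | with_reducible exact Dfn.const _
        | with_reducible apply DF.the | with_reducible apply DF.mkS
        | with_reducible apply Dfn.mem | with_reducible apply Dfn.eq
        | with_reducible apply Dfn.and | with_reducible apply Dfn.or
        | with_reducible apply Dfn.iff | with_reducible apply Dfn.imp
        | with_reducible apply Dfn.not | with_reducible apply Dfn.exu
        | with_reducible apply Dfn.ex | with_reducible apply Dfn.all)
  -- the function `t`
  have htu : ∀ n, ZM.E n o → ∃! y, ∃ c, ZM.E (opair n c) D ∧ y = ap τ (u c) := by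
    intro n hn
    obtain ⟨c, hc⟩ := hB.D1 n hn
    refine ⟨ap τ (u c), ⟨c, app_iff.1 hc, rfl⟩, ?_⟩
    rintro y ⟨c', hc', rfl⟩
    obtain ⟨p, hp, hp'⟩ := hB.D2 n hn c c' hc (app_iff.2 hc')
    refine (hT.wug _ _ (hu1 c) (hu1 c') ⟨p, (hGT' p).2 hp, fun i hi => ?_⟩).symm
    have hpf := (isFinPerm_iff.1 hp).1
    have hpi := hpf.ap_mem hi
    have h1 := hp' i (ap p i) (app_iff.2 ((hpf.mem_iff hi).2 rfl))
    rw [hu2 c' i hi, hu2 c _ hpi]
    by_cases h2 : ZM.E i c'
    · rw [hb1 _ _ h2, hb1 _ _ (h1.1 h2)]
    · rw [hb0 _ _ h2, hb0 _ _ (fun h3 => h2 (h1.2 h3))]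
  have htF : F1 (fun n : M => the (fun y => ∃ c, ZM.E (opair n c) D ∧ y = ap τ (u c))) := by
    have huF2 : DF (fun v : Fin 3 → M => u (v 0)) := DF.comp1 (F := u) huF (DF.var 0)
    (repeat' first
        | with_reducible apply DF.cmp | with_reducible apply DF.tau
        | with_reducible apply Dfn.rel | with_reducible apply Dfn.fnOn
        | with_reducible apply DF.funs | with_reducible apply DF.lam
        | with_reducible apply DF.ap | with_reducible apply Dfn.isFn
        | with_reducible apply DF.prod | with_reducible apply DF.pow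
        | with_reducible apply DF.opair | with_reducible apply DF.upair
        | with_reducible assumption | with_reducible exact DF.var _
        | with_reducible exact DF.const _ | with_reducible exact Dfn.const _
        | with_reducible apply DF.the | with_reducible apply DF.mkS
        | with_reducible apply Dfn.mem | with_reducible apply Dfn.eq
        | with_reducible apply Dfn.and | with_reducible apply Dfn.or
        | with_reducible apply Dfn.iff | with_reducible apply Dfn.imp
        | with_reducible apply Dfn.not | with_reducible apply Dfn.exu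
        | with_reducible apply Dfn.ex | with_reducible apply Dfn.all)
  have htT : ∀ n, ZM.E n o → ZM.E (the (fun y => ∃ c, ZM.E (opair n c) D ∧ y = ap τ (u c))) T := by
    intro n hn
    obtain ⟨c, _, h⟩ := the_spec (htu n hn)
    rw [h]
    exact hT.fn.ap_mem (mem_funs.2 (hu1 c))
  obtain ⟨t, ht⟩ : ∃ t, t = lam o (fun n => the (fun y => ∃ c, ZM.E (opair n c) D ∧ y = ap τ (u c))) :=
    ⟨_, rfl⟩
  have ht1 : IsFn t o T := by
    rw [ht]
    exact lam_isFn htF htT
  have ht2 : ∀ n c, ZM.E n o → ZM.E (opair n c) D → ap t n = ap τ (u c) := by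
    intro n c hn hc
    rw [ht, ap_lam htF htT hn]
    exact (htu n hn).unique (the_spec (htu n hn)) ⟨c, hc, rfl⟩
  -- a preimage
  obtain ⟨w, hw, hwt⟩ := hsurj (ap τ t) (hT.fn.ap_mem (mem_funs.2 ht1))
  rcases hW.cases hw with rfl | ⟨w', hw', rfl⟩
  · rw [hh.pt] at hwt
    exact hT.ne t ht1 hwt.symm
  rw [hh.map w' hw'] at hwt
  have hcw := cmp_isFn hhT hw'
  obtain ⟨q, hq, hq'⟩ := hT.inj _ _ hcw ht1 hwt
  have hqf := hGT.fn q hq
  have hqn : ∀ n, ZM.E n o → ZM.E (ap q n) o := fun n hn => hqf.ap_mem hn
  have hx1 : ∀ n, ZM.E n o → ZM.E (ap w' (ap q n)) W := fun n hn => hw'.ap_mem (hqn n hn)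
  have hx2 : ∀ n, ZM.E n o → ap h (ap w' (ap q n)) = ap t n := by
    intro n hn
    rw [hq' n hn, ap_cmp hhT hw' (hqn n hn)]
  -- the choice function
  obtain ⟨f, hf⟩ := exists_sep (P := fun z => ∃ n i, z = opair n i ∧ ∃ v, IsFn v o W ∧
    ap ν v = ap w' (ap q n) ∧ ap h (ap v i) = s) (by (repeat' first
        | with_reducible apply DF.cmp | with_reducible apply DF.tau
        | with_reducible apply Dfn.rel | with_reducible apply Dfn.fnOn
        | with_reducible apply DF.funs | with_reducible apply DF.lam
        | with_reducible apply DF.ap | with_reducible apply Dfn.isFn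
        | with_reducible apply DF.prod | with_reducible apply DF.pow
        | with_reducible apply DF.opair | with_reducible apply DF.upair
        | with_reducible assumption | with_reducible exact DF.var _
        | with_reducible exact DF.const _ | with_reducible exact Dfn.const _
        | with_reducible apply DF.the | with_reducible apply DF.mkS
        | with_reducible apply Dfn.mem | with_reducible apply Dfn.eq
        | with_reducible apply Dfn.and | with_reducible apply Dfn.or
        | with_reducible apply Dfn.iff | with_reducible apply Dfn.imp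
        | with_reducible apply Dfn.not | with_reducible apply Dfn.exu
        | with_reducible apply Dfn.ex | with_reducible apply Dfn.all)) (prod o o)
  refine hB.D3 ⟨f, fun n hn => ?_⟩
  obtain ⟨c, hc⟩ := hB.D1 n hn
  refine ⟨c, hc, ?_⟩
  have hc' := app_iff.1 hc
  -- analysis of the value
  have hxn : ap h (ap w' (ap q n)) = ap τ (u c) := by rw [hx2 n hn, ht2 n c hn hc']
  rcases hW.cases (hx1 n hn) with h1 | ⟨v, hv, h1⟩
  · rw [h1, hh.pt] at hxn
    exact (hT.ne _ (hu1 c) hxn.symm).elim
  have hcv := cmp_isFn hhT hv
  rw [h1, hh.map v hv] at hxn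
  obtain ⟨σ, hσ, hσ'⟩ := hT.inj _ _ (hu1 c) hcv hxn.symm
  obtain ⟨_, _, k, hk, hk'⟩ := isFinPerm_iff.1 ((hGT' σ).1 hσ)
  have hσf := hGT.fn σ hσ
  refine ⟨k, hk, fun i hi hik => ?_⟩
  have h2 : ap σ i = i := ((hσf.mem_iff hi).1 (hk' i hi hik)).symm
  have h3 : ap h (ap v i) = ap (u c) i := by
    rw [← ap_cmp hhT hv hi, hσ' i hi, h2]
  rw [app_iff, hf, opair_mem_prod]
  constructor
  · rintro ⟨_, n', i', hni, v', hv', h4, h5⟩
    obtain ⟨rfl, rfl⟩ := opair_inj.1 hni
    rw [h1] at h4
    have h6 := (hG1' _ _).1 (hW.inj _ _ hv hv' h4.symm)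
    rw [h6 _ hi, h3] at h5
    exact (hu3 c _ hi).1 h5
  · intro h4
    exact ⟨⟨hn, hi⟩, n, i, rfl, v, hv, h1.symm, by rw [h3]; exact (hu3 c i hi).2 h4⟩

theorem Base.final (h : Base ZM.E o C D) : ∃ W ν l T τ r h : M, IsInitialAlg ZM.E o W ν l ∧
    IsInitialWU ZM.E o T τ r ∧ IsHom ZM.E o W ν l T τ r h ∧
      ¬ ∀ t, ZM.E t T → ∃ w, ZM.E w W ∧ App ZM.E h w t := by
  obtain ⟨G1, hG1, hG1'⟩ := exists_G1 o
  obtain ⟨GT, hGT, hGT'⟩ := exists_GT h.omega
  obtain ⟨W, ν, l, hW⟩ := exists_good h.clo hG1
  obtain ⟨T, τ, r, hT⟩ := exists_good h.clo hGT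
  have hwu : WUG o G1 T τ := by
    intro v v' hv hv' hvv
    rw [hG1'] at hvv
    rw [hv'.ext hv hvv]
  obtain ⟨f, hf, _⟩ := hW.initial hG1 hT.pt hT.fn hwu
  refine ⟨W, ν, l, T, τ, r, f, hW.isInitialAlg hG1 hG1', hT.isInitialWU hGT hGT',
    (isHom_iff hW.pt hW.fn hT.fn).2 hf, fun hs => ?_⟩
  refine not_surj h hG1' hGT hGT' hW hT hf fun t ht => ?_
  obtain ⟨w, hw, hw'⟩ := hs t ht
  rw [app_iff, hf.fn.mem_iff hw] at hw'
  exact ⟨w, hw, hw'.symm⟩

theorem main : ∃ (M : Type) (E : M → M → Prop), ZF E ∧ ∃ o, IsOmega E o ∧
    ∃ W ν l T τ r h, IsInitialAlg E o W ν l ∧ IsInitialWU E o T τ r ∧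
      IsHom E o W ν l T τ r h ∧ ¬ ∀ t, E t T → ∃ w, E w W ∧ App E h w t := by
  obtain ⟨M, E, o, C, D, h⟩ := exists_M0
  letI : ZM M := ⟨E, h.zf⟩
  exact ⟨M, E, h.zf, o, h.omega, Base.final (M := M) (o := o) (C := C) (D := D) h⟩

end Pool.Agent.Helper23.WT
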