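import Pool.Agent.Helper23.WT.Alg

set_option autoImplicit false
set_option linter.unreachableTactic false
set_option linter.unusedTactic false

/-!
# The set of natural numbers, the groups of permutations, and the translation of the definitions
-/

universe u v w

namespace Pool.Agent.Helper23.WT

variable {M : Type u} [ZM M] {n m : ℕ} {o : M}

/-! ### natural numbers -/

theorem omega_induction (ho : IsOmega ZM.E o) {P : M → Prop} (hP : D1 P)
    (h0 : ∀ e, (∀ y, ¬ ZM.E y e) → P e)
    (hs : ∀ y, ZM.E y o → P y → ∀ s, ZM.E s o → (∀ z, ZM.E z s ↔ ZM.E z y ∨ z = y) → P s) :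
    ∀ x, ZM.E x o → P x := by
  obtain ⟨w, hw⟩ := exists_sep hP o
  have hind : IsInductive ZM.E w := by
    refine ⟨?_, fun y hy => ?_⟩
    · obtain ⟨e, he, heo⟩ := ho.1.1
      exact ⟨e, he, (hw e).2 ⟨heo, h0 e he⟩⟩
    · obtain ⟨hy1, hy2⟩ := (hw y).1 hy
      obtain ⟨s, hs1, hs2⟩ := ho.1.2 y hy1
      exact ⟨s, (hw s).2 ⟨hs1, hs y hy1 hy2 s hs1 hs2⟩, hs2⟩
  intro x hx
  exact ((hw x).1 (ho.2 w hind x hx)).2

theorem omega_trans (ho : IsOmega ZM.E o) : ∀ n, ZM.E n o → ∀ x, ZM.E x n → ZM.E x o ∧ ∀ y, ZM.E y x → ZM.E y n := by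
  refine omega_induction ho (by (repeat' first
      | with_reducible apply DF.cmp | with_reducible apply DF.tau
      | with_reducible apply Dfn.rel | with_reducible apply Dfn.fnOn
      | with_reducible apply DF.funs | with_reducible apply DF.lam | with_reducible apply DF.ap
      | with_reducible apply Dfn.isFn | with_reducible apply DF.prod
      | with_reducible apply DF.pow | with_reducible apply DF.opair
      | with_reducible apply DF.upair | with_reducible assumption
      | with_reducible exact DF.var _ | with_reducible exact DF.const _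
      | with_reducible exact Dfn.const _ | with_reducible apply DF.the
      | with_reducible apply DF.mkS | with_reducible apply Dfn.mem
      | with_reducible apply Dfn.eq | with_reducible apply Dfn.and
      | with_reducible apply Dfn.or | with_reducible apply Dfn.iff
      | with_reducible apply Dfn.imp | with_reducible apply Dfn.not
      | with_reducible apply Dfn.exu | with_reducible apply Dfn.ex
      | with_reducible apply Dfn.all)) (fun e he x hx => (he x hx).elim) ?_
  intro y hy ih s _ hs x hx
  rcases (hs x).1 hx with h | rfl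
  · exact ⟨(ih x h).1, fun z hz => (hs z).2 (Or.inl ((ih x h).2 z hz))⟩
  · exact ⟨hy, fun z hz => (hs z).2 (Or.inl hz)⟩

theorem omega_sub (ho : IsOmega ZM.E o) : ∀ n, ZM.E n o → ∀ m, ZM.E m o → (∀ z, ZM.E z m → ZM.E z n) →
    ZM.E m n ∨ m = n := by
  refine omega_induction ho (by (repeat' first
      | with_reducible apply DF.cmp | with_reducible apply DF.tau
      | with_reducible apply Dfn.rel | with_reducible apply Dfn.fnOn
      | with_reducible apply DF.funs | with_reducible apply DF.lam | with_reducible apply DF.ap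
      | with_reducible apply Dfn.isFn | with_reducible apply DF.prod
      | with_reducible apply DF.pow | with_reducible apply DF.opair
      | with_reducible apply DF.upair | with_reducible assumption
      | with_reducible exact DF.var _ | with_reducible exact DF.const _
      | with_reducible exact Dfn.const _ | with_reducible apply DF.the
      | with_reducible apply DF.mkS | with_reducible apply Dfn.mem
      | with_reducible apply Dfn.eq | with_reducible apply Dfn.and
      | with_reducible apply Dfn.or | with_reducible apply Dfn.iff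
      | with_reducible apply Dfn.imp | with_reducible apply Dfn.not
      | with_reducible apply Dfn.exu | with_reducible apply Dfn.ex
      | with_reducible apply Dfn.all)) (fun e he m _ h => ?_) ?_
  · exact Or.inr (ext fun z => ⟨fun hz => h z hz, fun hz => (he z hz).elim⟩)
  · intro n hn ih s _ hs m hm h
    by_cases hnm : ZM.E n m
    · right
      refine ext fun z => ⟨fun hz => h z hz, fun hz => ?_⟩
      rcases (hs z).1 hz with hz | rfl
      · exact (omega_trans ho m hm n hnm).2 z hz
      · exact hnm
    · left
      have h' : ∀ z, ZM.E z m → ZM.E z n := by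
        intro z hz
        rcases (hs z).1 (h z hz) with h1 | rfl
        · exact h1
        · exact (hnm hz).elim
      rcases ih m hm h' with h1 | h1
      · exact (hs m).2 (Or.inl h1)
      · exact (hs m).2 (Or.inr h1)

theorem omega_comp (ho : IsOmega ZM.E o) : ∀ m, ZM.E m o → ∀ n, ZM.E n o →
    (∀ z, ZM.E z m → ZM.E z n) ∨ (∀ z, ZM.E z n → ZM.E z m) := by
  refine omega_induction ho (by (repeat' first
      | with_reducible apply DF.cmp | with_reducible apply DF.tau
      | with_reducible apply Dfn.rel | with_reducible apply Dfn.fnOn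
      | with_reducible apply DF.funs | with_reducible apply DF.lam | with_reducible apply DF.ap
      | with_reducible apply Dfn.isFn | with_reducible apply DF.prod
      | with_reducible apply DF.pow | with_reducible apply DF.opair
      | with_reducible apply DF.upair | with_reducible assumption
      | with_reducible exact DF.var _ | with_reducible exact DF.const _
      | with_reducible exact Dfn.const _ | with_reducible apply DF.the
      | with_reducible apply DF.mkS | with_reducible apply Dfn.mem
      | with_reducible apply Dfn.eq | with_reducible apply Dfn.and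
      | with_reducible apply Dfn.or | with_reducible apply Dfn.iff
      | with_reducible apply Dfn.imp | with_reducible apply Dfn.not
      | with_reducible apply Dfn.exu | with_reducible apply Dfn.ex
      | with_reducible apply Dfn.all)) (fun e he n _ => Or.inl fun z hz => (he z hz).elim) ?_
  intro m hm ih s _ hs n hn
  rcases ih n hn with h | h
  · rcases omega_sub ho n hn m hm h with h1 | rfl
    · left
      intro z hz
      rcases (hs z).1 hz with h2 | rfl
      · exact h z h2
      · exact h1
    · right
      exact fun z hz => (hs z).2 (Or.inl hz)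
  · right
    exact fun z hz => (hs z).2 (Or.inl (h z hz))

theorem omega_max (ho : IsOmega ZM.E o) {m n : M} (hm : ZM.E m o) (hn : ZM.E n o) :
    ∃ k, ZM.E k o ∧ (∀ z, ZM.E z m → ZM.E z k) ∧ ∀ z, ZM.E z n → ZM.E z k := by
  rcases omega_comp ho m hm n hn with h | h
  · exact ⟨n, hn, h, fun z hz => hz⟩
  · exact ⟨m, hm, fun z hz => hz, h⟩

/-! ### the groups -/

theorem isFinPerm_iff {p : M} : IsFinPerm ZM.E o p ↔ IsFn p o o ∧
    (∀ m, ZM.E m o → ∃! n, ZM.E (opair n m) p) ∧ ∃ k, ZM.E k o ∧ ∀ n, ZM.E n o → ¬ ZM.E n k → ZM.E (opair n n) p := by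
  unfold IsFinPerm
  simp only [isFun_iff, app_iff]

/-- the trivial group -/
theorem exists_G1 (o : M) : ∃ G, IsGrp o G ∧ ∀ v v', Rel o G v v' ↔ ∀ n, ZM.E n o → ap v' n = ap v n := by
  have hid : F1 (fun n : M => n) := by (repeat' first
      | with_reducible apply DF.cmp | with_reducible apply DF.tau
      | with_reducible apply Dfn.rel | with_reducible apply Dfn.fnOn
      | with_reducible apply DF.funs | with_reducible apply DF.lam | with_reducible apply DF.ap
      | with_reducible apply Dfn.isFn | with_reducible apply DF.prod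
      | with_reducible apply DF.pow | with_reducible apply DF.opair
      | with_reducible apply DF.upair | with_reducible assumption
      | with_reducible exact DF.var _ | with_reducible exact DF.const _
      | with_reducible exact Dfn.const _ | with_reducible apply DF.the
      | with_reducible apply DF.mkS | with_reducible apply Dfn.mem
      | with_reducible apply Dfn.eq | with_reducible apply Dfn.and
      | with_reducible apply Dfn.or | with_reducible apply Dfn.iff
      | with_reducible apply Dfn.imp | with_reducible apply Dfn.not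
      | with_reducible apply Dfn.exu | with_reducible apply Dfn.ex
      | with_reducible apply Dfn.all)
  have hid' : ∀ n, ZM.E n o → ap (lam o (fun n => n)) n = n := fun n hn =>
    ap_lam hid (B := o) (fun _ h => h) hn
  have hfn : IsFn (lam o (fun n => n)) o o := lam_isFn hid (fun _ h => h)
  have hmem : ∀ p, ZM.E p (upair (lam o (fun n => n)) (lam o (fun n => n))) ↔ p = lam o (fun n => n) :=
    fun p => by rw [mem_upair, or_self]
  refine ⟨upair (lam o (fun n => n)) (lam o (fun n => n)), ⟨?_, ?_, ?_, ?_⟩, fun v v' => ?_⟩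
  · intro p hp
    rw [(hmem p).1 hp]
    exact hfn
  · exact ⟨_, (hmem _).2 rfl, hid'⟩
  · intro p q hp hq
    rw [(hmem p).1 hp, (hmem q).1 hq]
    exact ⟨_, (hmem _).2 rfl, fun n hn => by rw [hid' n hn, hid' n hn]⟩
  · intro p hp
    rw [(hmem p).1 hp]
    exact ⟨_, (hmem _).2 rfl, fun n hn => by rw [hid' n hn, hid' n hn]; exact ⟨rfl, rfl⟩⟩
  · constructor
    · rintro ⟨p, hp, h⟩ n hn
      rw [h n hn, (hmem p).1 hp, hid' n hn]
    · intro h
      exact ⟨_, (hmem _).2 rfl, fun n hn => by rw [hid' n hn, h n hn]⟩

/-- the group of finitely supported permutations -/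
theorem exists_GT (ho : IsOmega ZM.E o) : ∃ G, IsGrp o G ∧ ∀ p, ZM.E p G ↔ IsFinPerm ZM.E o p := by
  obtain ⟨G, hG⟩ := exists_sep (P := fun p => IsFn p o o ∧
    (∀ m, ZM.E m o → ∃! n, ZM.E (opair n m) p) ∧ ∃ k, ZM.E k o ∧ ∀ n, ZM.E n o → ¬ ZM.E n k → ZM.E (opair n n) p)
    (by (repeat' first
        | with_reducible apply DF.cmp | with_reducible apply DF.tau
        | with_reducible apply Dfn.rel | with_reducible apply Dfn.fnOn
        | with_reducible apply DF.funs | with_reducible apply DF.lam
        | with_reducible apply DF.ap | with_reducible apply Dfn.isFn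
        | with_reducible apply DF.prod | with_reducible apply DF.pow
        | with_reducible apply DF.opair | with_reducible apply DF.upair
        | with_reducible assumption | with_reducible exact DF.var _
        | with_reducible exact DF.const _ | with_reducible exact Dfn.const _
        | with_reducible apply DF.the | with_reducible apply DF.mkS
        | with_reducible apply Dfn.mem | with_reducible apply Dfn.eq
        | with_reducible apply Dfn.and | with_reducible apply Dfn.or
        | with_reducible apply Dfn.iff | with_reducible apply Dfn.imp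
        | with_reducible apply Dfn.not | with_reducible apply Dfn.exu
        | with_reducible apply Dfn.ex | with_reducible apply Dfn.all)) (funs o o)
  have hG' : ∀ p, ZM.E p G ↔ IsFinPerm ZM.E o p := fun p => by
    rw [hG, mem_funs, isFinPerm_iff]
    exact ⟨fun h => h.2, fun h => ⟨h.1, h⟩⟩
  refine ⟨G, ⟨?_, ?_, ?_, ?_⟩, hG'⟩
  · intro p hp
    exact (isFinPerm_iff.1 ((hG' p).1 hp)).1
  · have hid : F1 (fun n : M => n) := by (repeat' first
      | with_reducible apply DF.cmp | with_reducible apply DF.tau
      | with_reducible apply Dfn.rel | with_reducible apply Dfn.fnOn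
      | with_reducible apply DF.funs | with_reducible apply DF.lam | with_reducible apply DF.ap
      | with_reducible apply Dfn.isFn | with_reducible apply DF.prod
      | with_reducible apply DF.pow | with_reducible apply DF.opair
      | with_reducible apply DF.upair | with_reducible assumption
      | with_reducible exact DF.var _ | with_reducible exact DF.const _
      | with_reducible exact Dfn.const _ | with_reducible apply DF.the
      | with_reducible apply DF.mkS | with_reducible apply Dfn.mem
      | with_reducible apply Dfn.eq | with_reducible apply Dfn.and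
      | with_reducible apply Dfn.or | with_reducible apply Dfn.iff
      | with_reducible apply Dfn.imp | with_reducible apply Dfn.not
      | with_reducible apply Dfn.exu | with_reducible apply Dfn.ex
      | with_reducible apply Dfn.all)
    have hid' : ∀ n, ZM.E n o → ap (lam o (fun n => n)) n = n := fun n hn =>
      ap_lam hid (B := o) (fun _ h => h) hn
    have hfn : IsFn (lam o (fun n => n)) o o := lam_isFn hid (fun _ h => h)
    refine ⟨lam o (fun n => n), (hG' _).2 (isFinPerm_iff.2 ⟨hfn, fun m hm => ⟨m, ?_, ?_⟩, ?_⟩), hid'⟩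
    · exact (hfn.mem_iff hm).2 (hid' m hm).symm
    · intro y hy
      have hy' := (hfn.mem_dom hy).1
      rw [hfn.mem_iff hy', hid' y hy'] at hy
      exact hy.symm
    · obtain ⟨e, _, he⟩ := ho.1.1
      exact ⟨e, he, fun n hn _ => (hfn.mem_iff hn).2 (hid' n hn).symm⟩
  · intro p q hp hq
    obtain ⟨hp1, hp2, k, hk, hp3⟩ := isFinPerm_iff.1 ((hG' p).1 hp)
    obtain ⟨hq1, hq2, l, hl, hq3⟩ := isFinPerm_iff.1 ((hG' q).1 hq)
    have hpo : ∀ x, ZM.E x o → ZM.E (ap p x) o := fun x hx => hp1.ap_mem hx
    have hr1 : IsFn (cmp o p q) o o := cmp_isFn hpo hq1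
    have hr2 : ∀ n, ZM.E n o → ap (cmp o p q) n = ap p (ap q n) := fun n hn => ap_cmp hpo hq1 hn
    refine ⟨cmp o p q, (hG' _).2 (isFinPerm_iff.2 ⟨hr1, fun m hm => ?_, ?_⟩), hr2⟩
    · obtain ⟨x, hx, hx'⟩ := hp2 m hm
      have hxo := (hp1.mem_dom hx).1
      obtain ⟨y, hy, hy'⟩ := hq2 x hxo
      have hyo := (hq1.mem_dom hy).1
      refine ⟨y, ?_, fun z hz => ?_⟩
      · simp only
        rw [hr1.mem_iff hyo, hr2 y hyo, ← (hq1.mem_iff hyo).1 hy, ← (hp1.mem_iff hxo).1 hx]
      · replace hz : ZM.E (opair z m) (cmp o p q) := hz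
        have hzo := (hr1.mem_dom hz).1
        rw [hr1.mem_iff hzo, hr2 z hzo] at hz
        have hqz := hq1.ap_mem hzo
        have h1 : ap q z = x := hx' _ ((hp1.mem_iff hqz).2 hz)
        exact hy' _ ((hq1.mem_iff hzo).2 h1.symm)
    · obtain ⟨j, hj, h1, h2⟩ := omega_max ho hk hl
      refine ⟨j, hj, fun n hn hnj => ?_⟩
      have h3 := hq3 n hn (fun h => hnj (h2 n h))
      have h4 := hp3 n hn (fun h => hnj (h1 n h))
      rw [hq1.mem_iff hn] at h3
      rw [hp1.mem_iff hn] at h4
      rw [hr1.mem_iff hn, hr2 n hn, ← h3]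
      exact h4
  · intro p hp
    obtain ⟨hp1, hp2, k, hk, hp3⟩ := isFinPerm_iff.1 ((hG' p).1 hp)
    have hF : F1 (fun m : M => the (fun n => ZM.E (opair n m) p)) := by (repeat' first
        | with_reducible apply DF.cmp | with_reducible apply DF.tau
        | with_reducible apply Dfn.rel | with_reducible apply Dfn.fnOn
        | with_reducible apply DF.funs | with_reducible apply DF.lam
        | with_reducible apply DF.ap | with_reducible apply Dfn.isFn
        | with_reducible apply DF.prod | with_reducible apply DF.pow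
        | with_reducible apply DF.opair | with_reducible apply DF.upair
        | with_reducible assumption | with_reducible exact DF.var _
        | with_reducible exact DF.const _ | with_reducible exact Dfn.const _
        | with_reducible apply DF.the | with_reducible apply DF.mkS
        | with_reducible apply Dfn.mem | with_reducible apply Dfn.eq
        | with_reducible apply Dfn.and | with_reducible apply Dfn.or
        | with_reducible apply Dfn.iff | with_reducible apply Dfn.imp
        | with_reducible apply Dfn.not | with_reducible apply Dfn.exu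
        | with_reducible apply Dfn.ex | with_reducible apply Dfn.all)
    have hFo : ∀ m, ZM.E m o → ZM.E (the (fun n => ZM.E (opair n m) p)) o := fun m hm =>
      (hp1.mem_dom (the_spec (hp2 m hm))).1
    have hr1 := lam_isFn hF hFo
    have hr2 : ∀ m, ZM.E m o → ap (lam o (fun m => the (fun n => ZM.E (opair n m) p))) m =
        the (fun n => ZM.E (opair n m) p) := fun m hm => ap_lam hF hFo hm
    set q := lam o (fun m => the (fun n => ZM.E (opair n m) p)) with hq
    have hr3 : ∀ n m, ZM.E n o → ZM.E m o → (ZM.E (opair n m) p ↔ ap q m = n) := by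
      intro n m hn hm
      rw [hr2 m hm]
      constructor
      · intro h
        exact (hp2 m hm).unique (the_spec (hp2 m hm)) h
      · rintro rfl
        exact the_spec (hp2 m hm)
    refine ⟨q, (hG' _).2 (isFinPerm_iff.2 ⟨hr1, fun n hn => ⟨ap p n, ?_, fun m hm => ?_⟩,
      k, hk, fun n hn hnk => ?_⟩), fun n hn => ⟨?_, ?_⟩⟩
    · simp only
      have hpn := hp1.ap_mem hn
      rw [hr1.mem_iff hpn]
      exact ((hr3 n _ hn hpn).1 ((hp1.mem_iff hn).2 rfl)).symm
    · replace hm : ZM.E (opair m n) q := hm
      have hmo := (hr1.mem_dom hm).1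
      rw [hr1.mem_iff hmo] at hm
      exact (hp1.mem_iff hn).1 ((hr3 n m hn hmo).2 hm.symm)
    · rw [hr1.mem_iff hn]
      exact ((hr3 n n hn hn).1 (hp3 n hn hnk)).symm
    · have hqn := hr1.ap_mem hn
      exact ((hp1.mem_iff hqn).1 ((hr3 _ n hqn hn).2 rfl)).symm
    · have hpn := hp1.ap_mem hn
      exact (hr3 n _ hn hpn).1 ((hp1.mem_iff hn).2 rfl)

/-! ### translation of the definitions -/

theorem isPtAlg_iff {A α a : M} : IsPtAlg ZM.E o A α a ↔ ZM.E a A ∧ IsFn α (funs o A) A := by
  unfold IsPtAlg IsFn
  simp only [isFun_iff, isOPair_iff, app_iff, mem_funs]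

theorem isWU_iff {A α G : M} (hα : IsFn α (funs o A) A) (hG : ∀ p, ZM.E p G ↔ IsFinPerm ZM.E o p) :
    IsWU ZM.E o A α ↔ WUG o G A α := by
  unfold IsWU WUG
  simp only [isFun_iff, app_iff]
  constructor
  · rintro h v v' hv hv' ⟨p, hp, hvv⟩
    have hp' := (isFinPerm_iff.1 ((hG p).1 hp)).1
    have h1 := h v p v' hv ((hG p).1 hp) hv' (fun n m x hnm hmx => by
      have hn := (hp'.mem_dom hnm).1
      have hm := (hp'.mem_dom hnm).2
      rw [hp'.mem_iff hn] at hnm
      rw [hv.mem_iff hm] at hmx
      rw [hv'.mem_iff hn, hvv n hn, hmx, hnm]) (ap α v) ((hα.mem_iff (mem_funs.2 hv)).2 rfl)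
    exact (hα.mem_iff (mem_funs.2 hv')).1 h1
  · intro h v p v' hv hp hv' hvv y hy
    have hp' := (isFinPerm_iff.1 hp).1
    rw [hα.mem_iff (mem_funs.2 hv)] at hy
    rw [hα.mem_iff (mem_funs.2 hv'), hy]
    refine h v v' hv hv' ⟨p, (hG p).2 hp, fun n hn => ?_⟩
    have hpn := hp'.ap_mem hn
    exact ((hv'.mem_iff hn).1 (hvv n _ _ ((hp'.mem_iff hn).2 rfl) ((hv.mem_iff hpn).2 rfl))).symm

theorem isHom_iff {A α a B β b h : M} (ha : ZM.E a A) (hα : IsFn α (funs o A) A)
    (hβ : IsFn β (funs o B) B) : IsHom ZM.E o A α a B β b h ↔ Hom o A α a B β b h := by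
  unfold IsHom
  simp only [isFun_iff, app_iff]
  constructor
  · rintro ⟨h1, h2, h3⟩
    have hB : ∀ x, ZM.E x A → ZM.E (ap h x) B := fun x hx => h1.ap_mem hx
    refine ⟨h1, ((h1.mem_iff ha).1 h2).symm, fun v hv => ?_⟩
    have hw := cmp_isFn hB hv
    have hαv := hα.ap_mem (mem_funs.2 hv)
    have h4 := h3 v (cmp o h v) hv hw (fun n x y hnx hxy => by
      have hn := (hv.mem_dom hnx).1
      have hx := (hv.mem_dom hnx).2
      rw [hv.mem_iff hn] at hnx
      rw [h1.mem_iff hx] at hxy
      rw [hw.mem_iff hn, ap_cmp hB hv hn, hxy, hnx]) (ap α v) (ap h (ap α v))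
      ((hα.mem_iff (mem_funs.2 hv)).2 rfl) ((h1.mem_iff hαv).2 rfl)
    exact (hβ.mem_iff (mem_funs.2 hw)).1 h4
  · rintro ⟨h1, h2, h3⟩
    have hB : ∀ x, ZM.E x A → ZM.E (ap h x) B := fun x hx => h1.ap_mem hx
    refine ⟨h1, (h1.mem_iff ha).2 h2.symm, fun v w hv hw hvw x y hx hy => ?_⟩
    have hαv := hα.ap_mem (mem_funs.2 hv)
    have hwe : w = cmp o h v := hw.ext (cmp_isFn hB hv) fun n hn => by
      rw [ap_cmp hB hv hn]
      have hvn := hv.ap_mem hn
      exact ((hw.mem_iff hn).1 (hvw n _ _ ((hv.mem_iff hn).2 rfl) ((h1.mem_iff hvn).2 rfl))).symm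
    rw [hα.mem_iff (mem_funs.2 hv)] at hx
    rw [hx, h1.mem_iff hαv] at hy
    rw [hβ.mem_iff (mem_funs.2 hw), hy, h3 v hv, hwe]

theorem Good.isInitialAlg {G W ν l : M} (hG : IsGrp o G)
    (hG1 : ∀ v v', Rel o G v v' ↔ ∀ n, ZM.E n o → ap v' n = ap v n) (h : Good o G W ν l) :
    IsInitialAlg ZM.E o W ν l := by
  refine ⟨isPtAlg_iff.2 ⟨h.pt, h.fn⟩, fun B β b hB => ?_⟩
  obtain ⟨hb, hβ⟩ := isPtAlg_iff.1 hB
  have hwu : WUG o G B β := by
    intro v v' hv hv' hvv
    rw [hG1] at hvv
    rw [hv'.ext hv hvv]
  simp only [isHom_iff h.pt h.fn hβ]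
  exact h.initial hG hb hβ hwu

theorem Good.isInitialWU {G T τ r : M} (hG : IsGrp o G) (hGT : ∀ p, ZM.E p G ↔ IsFinPerm ZM.E o p)
    (h : Good o G T τ r) : IsInitialWU ZM.E o T τ r := by
  refine ⟨isPtAlg_iff.2 ⟨h.pt, h.fn⟩, (isWU_iff h.fn hGT).2 h.wug, fun B β b hB hwu => ?_⟩
  obtain ⟨hb, hβ⟩ := isPtAlg_iff.1 hB
  simp only [isHom_iff h.pt h.fn hβ]
  exact h.initial hG hb hβ ((isWU_iff hβ hGT).1 hwu)

end Pool.Agent.Helper23.WT
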